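import Pool.Agent.X87.CM.Log5

set_option autoImplicit false

/-!
# Logarithmic means of the values at the primes
-/

open Finset Filter Topology

namespace Pool.Agent.X87.CM

open Pool.H232R3

variable {b : ℕ → ℂ} {K : ℝ} {P : ℕ}

/-- the completely multiplicative function with the values `-b p / p` at the primes `p ≥ P` -/
noncomputable def gB (b : ℕ → ℂ) (P : ℕ) : ArithmeticFunction ℂ :=
  cmOf fun p => if P ≤ p then -(b p / p) else 0

theorem gB_one : gB b P 1 = 1 := cmOf_one _
theorem gB_mul (m n : ℕ) : gB b P (m * n) = gB b P m * gB b P n := cmOf_mul _ m n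
theorem gB_prime (p : ℕ) (hp : p.Prime) : gB b P p = if P ≤ p then -(b p / p) else 0 :=
  cmOf_prime _ p hp

/-- the terms -/
noncomputable def wb (b : ℕ → ℂ) (P : ℕ) (s : ℂ) (p : Nat.Primes) : ℂ :=
  if P ≤ (p : ℕ) then b p * zz s p else 0

noncomputable def BB (b : ℕ → ℂ) (P : ℕ) (s : ℂ) : ℂ := ∑' p, -Complex.log (1 + wb b P s p)

/-- `b` is bounded by `K`, and `P` is large -/
structure OK (b : ℕ → ℂ) (K : ℝ) (P : ℕ) : Prop where
  nonneg : 0 ≤ K
  bd : ∀ p : ℕ, p.Prime → ‖b p‖ ≤ K
  large : ∀ p : ℕ, P ≤ p → K * (p : ℝ) ^ (-(1 / 2) : ℝ) ≤ 1 / 4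

theorem wb_norm (h : OK b K P) (s : ℂ) (p : Nat.Primes) : ‖wb b P s p‖ ≤ K * ‖zz s p‖ := by
  unfold wb
  split_ifs
  · rw [norm_mul]
    exact mul_le_mul_of_nonneg_right (h.bd p p.2) (norm_nonneg _)
  · rw [norm_zero]
    exact mul_nonneg h.nonneg (norm_nonneg _)

theorem wb_small (h : OK b K P) (s : ℂ) (hs : -(1 / 2) ≤ s.re) (p : Nat.Primes) :
    ‖wb b P s p‖ ≤ 1 / 4 := by
  by_cases hp : P ≤ (p : ℕ)
  · refine (wb_norm h s p).trans (le_trans ?_ (h.large p hp))
    exact mul_le_mul_of_nonneg_left (zz_le s hs p) h.nonneg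
  · unfold wb
    rw [if_neg hp, norm_zero]; norm_num

theorem logwb (h : OK b K P) (s : ℂ) (hs : -(1 / 2) ≤ s.re) (p : Nat.Primes) :
    ‖-Complex.log (1 + wb b P s p)‖ ≤ 2 * K * ‖zz s p‖ := by
  rw [norm_neg]
  have h1 := wb_small h s hs p
  have h2 := Complex.norm_log_one_add_half_le_self (z := wb b P s p) (by linarith)
  have h3 := wb_norm h s p
  have := norm_nonneg (wb b P s p)
  linarith

theorem logwb_summable (h : OK b K P) (s : ℂ) (hs : 0 < s.re) :
    Summable fun p => -Complex.log (1 + wb b P s p) :=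
  Summable.of_norm_bounded ((zz_summable s hs).norm.mul_left (2 * K)) fun p =>
    logwb h s (by linarith) p

theorem wb_differentiable (p : Nat.Primes) : Differentiable ℂ (fun s => wb b P s p) := by
  unfold wb
  split_ifs
  · exact (zz_differentiable p).const_mul _
  · exact differentiable_const _

theorem BB_differentiableAt (h : OK b K P) (s : ℂ) (hs : 0 < s.re) :
    DifferentiableAt ℂ (BB b P) s := by
  have hK := h.nonneg
  set a : ℝ := s.re / 2 with ha
  have ha1 : 0 < a := by rw [ha]; linarith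
  have ha2 : a < s.re := by rw [ha]; linarith
  have hsum : Summable fun p : Nat.Primes => (p : ℝ) ^ (-(1 + a)) :=
    Nat.Primes.summable_rpow.mpr (by linarith)
  have h := Complex.differentiableOn_tsum_of_summable_norm (U := {s : ℂ | a < s.re})
    (F := fun p s => -Complex.log (1 + wb b P s p))
    (u := fun p : Nat.Primes => 2 * K * (p : ℝ) ^ (-(1 + a)))
    (hsum.mul_left _)
    (fun p w hw => by
      have hw' : a < w.re := hw
      refine (DifferentiableAt.neg ?_).differentiableWithinAt
      exact DifferentiableAt.clog ((differentiableAt_const _).add (wb_differentiable p w))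
        (slit (by linarith [wb_small h w (by linarith) p]))) (open_re a) (fun p w hw => by
      have hw' : a < w.re := hw
      refine (logwb h w (by linarith) p).trans ?_
      rw [zz_norm]
      have hp1 : (1 : ℝ) ≤ p := by exact_mod_cast p.2.one_lt.le
      gcongr)
  exact (h s ha2).differentiableAt ((open_re a).mem_nhds ha2)

theorem gB_euler (h : OK b K P) (s : ℂ) (hs : 0 < s.re)
    (hS : LSeriesSummable (fun n => gB b P n) s) :
    LSeries (fun n => gB b P n) s = Complex.exp (BB b P s) := by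
  let φ : ℕ →*₀ ℂ :=
    { toFun := fun n => gB b P n * (n : ℂ) ^ (-s)
      map_zero' := by simp
      map_one' := by simp [gB_one]
      map_mul' := fun m n => by
        rw [gB_mul, Nat.cast_mul, Complex.natCast_mul_natCast_cpow]
        ring }
  have hφ : ∀ n, φ n = LSeries.term (fun n => gB b P n) s n := by
    intro n
    rw [LSeries.term_def]
    split_ifs with h0
    · rw [h0]; simp
    · show gB b P n * (n : ℂ) ^ (-s) = _
      rw [Complex.cpow_neg, div_eq_mul_inv]
  have hsum : Summable (fun n => ‖φ n‖) := by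
    simp_rw [hφ]
    exact hS.norm
  have h := EulerProduct.exp_tsum_primes_log_eq_tsum (f := φ) hsum
  have e1 : ∑' n, φ n = LSeries (fun n => gB b P n) s := tsum_congr hφ
  rw [e1] at h
  rw [← h]
  congr 1
  refine tsum_congr fun p => ?_
  have e3 : φ (p : ℕ) = gB b P p * (p : ℂ) ^ (-s) := rfl
  rw [e3, gB_prime _ p.2]
  unfold wb
  split_ifs
  · rw [zz_eq]
    have : 1 - -(b p / ((p : ℕ) : ℂ)) * ((p : ℕ) : ℂ) ^ (-s)
        = 1 + b p * (((p : ℕ) : ℂ)⁻¹ * ((p : ℕ) : ℂ) ^ (-s)) := by
      rw [div_eq_mul_inv]; ring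
    rw [this]
  · simp

theorem stepBB (h : OK b K P) (hd : Gd (fun n => gB b P n)) (s : ℂ) (hs : 0 < s.re) :
    s * Phi (fun n => gB b P n) s = Complex.exp (BB b P s) := by
  refine ident 0 one_pos (fun s => s * Phi (fun n => gB b P n) s)
    (fun s => Complex.exp (BB b P s)) ?_ ?_ ?_ s hs
  · intro s hs
    have hs' : 0 < s.re := hs
    exact (differentiableAt_id.mul (hd.diff s (by linarith))).differentiableWithinAt
  · intro s hs
    exact (BB_differentiableAt h s hs).cexp.differentiableWithinAt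
  · intro s hs
    have h1 : LSeriesSummable (fun n => gB b P n) s := by
      obtain ⟨K, hb⟩ := hd.bd
      refine LSeriesSummable_of_bounded_of_one_lt_re (m := 2 * K) ?_ hs
      intro n hn
      obtain ⟨m, rfl⟩ : ∃ m, n = m + 1 := ⟨n - 1, by omega⟩
      have h2 : gB b P (m + 1) = SS (fun n => gB b P n) (m + 1) - SS (fun n => gB b P n) m := by
        rw [SS_succ]; ring
      rw [h2]
      refine (norm_sub_le _ _).trans ?_
      have := hb (m + 1)
      have := hb m
      linarith
    show s * Phi (fun n => gB b P n) s = _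
    rw [← hd.ser s (by linarith) h1, gB_euler h s (by linarith) h1]

/-- the logarithm near a point of the line `Re s = 0` -/
theorem BB_order (h : OK b K P) (hd : Gd (fun n => gB b P n)) (c : ℂ) (hc : c.re = 0) :
    ∃ n : ℕ, ∃ T : ℂ, Tendsto (fun x : ℝ => BB b P (c + x) - n * (Real.log x : ℝ)) (𝓝[>] 0)
      (𝓝 T) := by
  set F : ℂ → ℂ := fun s => s * Phi (fun n => gB b P n) s with hF
  have hFd : DifferentiableOn ℂ F {s | -(1 / 2) < s.re} := fun s hs =>
    (differentiableAt_id.mul (hd.diff s hs)).differentiableWithinAt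
  have hFa : AnalyticAt ℂ F c := hFd.analyticOnNhd (open_re _) c (by
    show -(1 / 2) < c.re
    rw [hc]; norm_num)
  have hof : Tendsto (fun x : ℝ => c + (x : ℂ)) (𝓝[>] 0) (𝓝 c) := by
    have : Tendsto (fun x : ℝ => c + (x : ℂ)) (𝓝 0) (𝓝 (c + ((0 : ℝ) : ℂ))) :=
      (continuous_const.add Complex.continuous_ofReal).tendsto 0
    rw [Complex.ofReal_zero, add_zero] at this
    exact this.mono_left nhdsWithin_le_nhds
  have hpos : ∀ᶠ x : ℝ in 𝓝[>] 0, 0 < x := self_mem_nhdsWithin
  have hne : ¬ ∀ᶠ z in 𝓝 c, F z = 0 := by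
    intro h1
    obtain ⟨x, hx0, hx⟩ := ((hof.eventually h1).and hpos).exists
    rw [hF] at hx0
    have hre : 0 < (c + (x : ℂ)).re := by simp [hc, hx]
    rw [show (fun s => s * Phi (fun n => gB b P n) s) (c + (x : ℂ))
      = (c + (x : ℂ)) * Phi (fun n => gB b P n) (c + (x : ℂ)) from rfl, stepBB h hd _ hre] at hx0
    exact Complex.exp_ne_zero _ hx0
  obtain ⟨n, G, hGa, hG0, hFG⟩ := (hFa.exists_eventuallyEq_pow_smul_nonzero_iff).2 hne
  have hcont : ContinuousAt (fun s => G s / G c) c := hGa.continuousAt.div_const _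
  have hone : (fun s => G s / G c) c = 1 := div_self hG0
  have hev : ∀ᶠ s in 𝓝 c, (G s / G c ∈ Complex.slitPlane ∧ AnalyticAt ℂ G s) ∧
      F s = (s - c) ^ n • G s := by
    refine ((hcont.eventually (Complex.isOpen_slitPlane.mem_nhds (x := (fun s => G s / G c) c)
      ?_)).and hGa.eventually_analyticAt).and hFG
    rw [hone]
    exact Complex.one_mem_slitPlane
  rw [Metric.eventually_nhds_iff_ball] at hev
  obtain ⟨δ, hδ, hev⟩ := hev
  set U : Set ℂ := {s : ℂ | 0 < s.re} ∩ Metric.ball c δ with hU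
  have hUo : IsOpen U := (open_re 0).inter Metric.isOpen_ball
  have hUc : IsPreconnected U :=
    ((convex_halfSpace_re_gt 0).inter (convex_ball c δ)).isPreconnected
  have hslit : ∀ s ∈ U, s - c ∈ Complex.slitPlane := fun s hs => Or.inl (by
    rw [Complex.sub_re, hc, sub_zero]; exact hs.1)
  set D : ℂ → ℂ := fun s => BB b P s - n * Complex.log (s - c) - Complex.log (G s / G c) with hD
  have hDd : DifferentiableOn ℂ D U := by
    intro s hs
    have hb := hev s hs.2
    refine (DifferentiableAt.sub ((BB_differentiableAt h s hs.1).sub ?_) ?_).differentiableWithinAt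
    · exact ((differentiableAt_id.sub_const c).clog (hslit s hs)).const_mul _
    · exact (hb.1.2.differentiableAt.div_const _).clog hb.1.1
  have hexp : ∀ s ∈ U, Complex.exp (D s) = G c := by
    intro s hs
    have hb := hev s hs.2
    have hsc : s - c ≠ 0 := Complex.slitPlane_ne_zero (hslit s hs)
    have h1 : Complex.exp (BB b P s) = (s - c) ^ n * G s := by
      rw [← stepBB h hd s hs.1]
      exact hb.2
    have hGs : G s ≠ 0 := by
      intro h0
      rw [h0, mul_zero] at h1
      exact Complex.exp_ne_zero _ h1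
    rw [hD]
    show Complex.exp (BB b P s - n * Complex.log (s - c) - Complex.log (G s / G c)) = _
    rw [Complex.exp_sub, Complex.exp_sub, h1, Complex.exp_log (div_ne_zero hGs hG0),
      Complex.exp_nat_mul, Complex.exp_log hsc]
    field_simp
  have hderiv : Set.EqOn (deriv D) 0 U := by
    intro s hs
    have hd' := (hDd s hs).differentiableAt (hUo.mem_nhds hs)
    have h1 : HasDerivAt (fun s => Complex.exp (D s)) (Complex.exp (D s) * deriv D s) s :=
      hd'.hasDerivAt.cexp
    have h2 : HasDerivAt (fun s => Complex.exp (D s)) 0 s := by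
      refine (hasDerivAt_const s (G c)).congr_of_eventuallyEq ?_
      filter_upwards [hUo.mem_nhds hs] with w hw
      exact hexp w hw
    have h3 := h1.unique h2
    exact (mul_eq_zero.1 h3).resolve_left (Complex.exp_ne_zero _)
  have hxU : ∀ᶠ x : ℝ in 𝓝[>] 0, c + (x : ℂ) ∈ U := by
    filter_upwards [hof.eventually (Metric.ball_mem_nhds c hδ), hpos] with x hx hx0
    refine ⟨?_, hx⟩
    show 0 < (c + (x : ℂ)).re
    simp [hc, hx0]
  obtain ⟨x₁, hx₁⟩ := hxU.exists
  refine ⟨n, D (c + x₁) + Complex.log 1, ?_⟩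
  have hlim : Tendsto (fun x : ℝ => D (c + x₁) + Complex.log (G (c + x) / G c))
      (𝓝[>] 0) (𝓝 (D (c + x₁) + Complex.log 1)) := by
    refine tendsto_const_nhds.add ?_
    have h3 : Tendsto (fun x : ℝ => G (c + x) / G c) (𝓝[>] 0) (𝓝 1) := by
      have := hcont.tendsto.comp hof
      rw [div_self hG0] at this
      exact this
    exact (continuousAt_clog Complex.one_mem_slitPlane).tendsto.comp h3
  refine hlim.congr' ?_
  filter_upwards [hxU, hpos] with x hx hx0
  have h1 := hUo.is_const_of_deriv_eq_zero hUc hDd hderiv hx hx₁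
  rw [← h1, hD]
  show BB b P (c + x) - n * Complex.log (c + x - c) - Complex.log (G (c + x) / G c)
    + Complex.log (G (c + x) / G c) = _
  rw [add_sub_cancel_left, Complex.ofReal_log hx0.le]
  ring

end Pool.Agent.X87.CM
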