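import Pool.Agent.X87.CM.Inf1

set_option autoImplicit false

/-!
# The coefficients of an absolutely convergent series are natural numbers
-/

open Finset Filter Topology

namespace Pool.Agent.X87.CM

open Pool.H232R3

variable {b : ℕ → ℂ} {K : ℝ} {P : ℕ} {κ : ℕ → ℂ} {γ : ℕ → ℝ}

noncomputable def zp (P : ℕ) (s : ℂ) (p : Nat.Primes) : ℂ := if P ≤ (p : ℕ) then zz s p else 0
noncomputable def ZP (P : ℕ) (s : ℂ) : ℂ := ∑' p, zp P s p

theorem zp_norm (s : ℂ) (p : Nat.Primes) : ‖zp P s p‖ ≤ ‖zz s p‖ := by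
  unfold zp
  split_ifs
  · exact le_rfl
  · rw [norm_zero]; exact norm_nonneg _

theorem zp_summable (s : ℂ) (hs : 0 < s.re) : Summable (zp P s) :=
  Summable.of_norm_bounded (zz_summable s hs).norm fun p => zp_norm s p

noncomputable def C2 : ℝ := ∑' p : Nat.Primes, (p : ℝ) ^ (-(2 : ℝ))

theorem C2_hasSum : HasSum (fun p : Nat.Primes => (p : ℝ) ^ (-(2 : ℝ))) C2 :=
  (Nat.Primes.summable_rpow.mpr (by norm_num)).hasSum

theorem sq_le (s : ℂ) (hs : 0 < s.re) (p : Nat.Primes) : ‖zz s p‖ ^ 2 ≤ (p : ℝ) ^ (-(2 : ℝ)) := by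
  rw [zz_sq_norm]
  have : (1 : ℝ) ≤ p := by exact_mod_cast p.2.one_lt.le
  exact Real.rpow_le_rpow_of_exponent_le this (by linarith)

theorem ZP_TT (s : ℂ) (hs : 0 < s.re) : ‖ZP P s + TT P s‖ ≤ 2 * C2 := by
  unfold ZP TT
  rw [← (zp_summable s hs).tsum_add (tt_summable s hs)]
  refine tsum_of_norm_bounded (C2_hasSum.mul_left 2) fun p => ?_
  refine le_trans ?_ (mul_le_mul_of_nonneg_left (sq_le s hs p) two_pos.le)
  unfold zp tt
  split_ifs
  · rw [add_comm]; exact log_sub s (by linarith) p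
  · rw [add_zero, norm_zero]; positivity

theorem BB_wb (h : OK b K P) (s : ℂ) (hs : 0 < s.re) :
    ‖BB b P s + ∑' p, wb b P s p‖ ≤ 2 * K ^ 2 * C2 := by
  unfold BB
  have hsw : Summable (wb b P s) :=
    Summable.of_norm_bounded ((zz_summable s hs).norm.mul_left K) fun p => wb_norm h s p
  rw [← (logwb_summable h s hs).tsum_add hsw]
  refine tsum_of_norm_bounded (C2_hasSum.mul_left (2 * K ^ 2)) fun p => ?_
  have h1 := wb_small h s (by linarith) p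
  have h2 := wb_norm h s p
  have h3 := Complex.norm_log_one_add_sub_self_le (z := wb b P s p) (by linarith)
  have h4 : (1 - ‖wb b P s p‖)⁻¹ ≤ 4 := by
    rw [inv_le_comm₀ (by linarith) (by norm_num)]; linarith
  have h5 := sq_le s hs p
  have h6 : ‖wb b P s p‖ ^ 2 ≤ K ^ 2 * ‖zz s p‖ ^ 2 := by
    rw [← mul_pow]; exact pow_le_pow_left₀ (norm_nonneg _) h2 2
  have e : -Complex.log (1 + wb b P s p) + wb b P s p
      = -(Complex.log (1 + wb b P s p) - wb b P s p) := by ring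
  rw [e, norm_neg]
  have h7 : ‖wb b P s p‖ ^ 2 * (1 - ‖wb b P s p‖)⁻¹ ≤ ‖wb b P s p‖ ^ 2 * 4 :=
    mul_le_mul_of_nonneg_left h4 (sq_nonneg _)
  have h8 : K ^ 2 * ‖zz s p‖ ^ 2 ≤ K ^ 2 * (p : ℝ) ^ (-(2 : ℝ)) :=
    mul_le_mul_of_nonneg_left h5 (sq_nonneg _)
  linarith

/-- the values at the primes -/
noncomputable def bI (κ : ℕ → ℂ) (γ : ℕ → ℝ) (p : ℕ) : ℂ :=
  ∑' j, κ j * (p : ℂ) ^ (γ j * Complex.I)

theorem zz_sh (s : ℂ) (t : ℝ) (p : Nat.Primes) :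
    zz (sh s t) p = (p : ℂ) ^ (t * Complex.I) * zz s p := by
  have hp : ((p : ℕ) : ℂ) ≠ 0 := by exact_mod_cast p.2.ne_zero
  unfold zz sh
  rw [← Complex.cpow_add _ _ hp]
  congr 1
  ring

theorem wb_eq (s : ℂ) (p : Nat.Primes) :
    wb (bI κ γ) P s p = ∑' j, κ j * zp P (sh s (γ j)) p := by
  unfold wb zp bI
  split_ifs
  · rw [← tsum_mul_right]
    refine tsum_congr fun j => ?_
    rw [zz_sh]; ring
  · simp

theorem wb_sum (hκ : Summable fun j => ‖κ j‖) (s : ℂ) (hs : 0 < s.re) :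
    ∑' p, wb (bI κ γ) P s p = ∑' j, κ j * ZP P (sh s (γ j)) := by
  simp_rw [wb_eq, ZP, ← tsum_mul_left]
  refine Summable.tsum_comm ?_
  have h1 : Summable fun x : ℕ × Nat.Primes => ‖κ x.1‖ * ‖zz s x.2‖ :=
    hκ.mul_of_nonneg (zz_summable s hs).norm (fun _ => norm_nonneg _) (fun _ => norm_nonneg _)
  refine Summable.of_norm_bounded h1 fun x => ?_
  show ‖κ x.1 * zp P (sh s (γ x.1)) x.2‖ ≤ _
  rw [norm_mul]
  refine mul_le_mul_of_nonneg_left ((zp_norm _ _).trans (le_of_eq ?_)) (norm_nonneg _)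
  rw [zz_sh_norm]

theorem div_log_zero (u : ℝ → ℂ) (C : ℝ) (h : ∀ᶠ x : ℝ in 𝓝[>] 0, ‖u x‖ ≤ C) :
    Tendsto (fun x : ℝ => u x / (Real.log x : ℝ)) (𝓝[>] 0) (𝓝 0) := by
  rw [tendsto_zero_iff_norm_tendsto_zero]
  have h1 : Tendsto (fun x : ℝ => |Real.log x|) (𝓝[>] 0) atTop :=
    tendsto_abs_atBot_atTop.comp Real.tendsto_log_nhdsGT_zero
  have h2 : Tendsto (fun x : ℝ => C / |Real.log x|) (𝓝[>] 0) (𝓝 0) := tendsto_const_nhds.div_atTop h1
  refine squeeze_zero' (Eventually.of_forall fun x => norm_nonneg _) ?_ h2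
  filter_upwards [h] with x hx
  rw [norm_div, Complex.norm_real, Real.norm_eq_abs]
  gcongr

theorem logs_bdd : ∃ C : ℝ, ∀ᶠ x : ℝ in 𝓝[>] 0,
    |Real.log ‖ZZ (x : ℂ)‖ + Real.log ‖QQ P (x : ℂ)‖| ≤ C := by
  have h := (logs_cont (P := P)).norm.tendsto.mono_left (nhdsWithin_le_nhds (s := Set.Ioi 0))
  refine ⟨_, h.eventually_le_const (lt_add_one _)⟩

theorem ZP_le (x : ℝ) (hx : 0 < x) (t : ℝ) : ‖ZP P (sh (x : ℂ) t)‖ ≤ ‖ZP P (x : ℂ)‖ := by
  have hx' : 0 < ((x : ℂ)).re := by simpa using hx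
  have hs : 0 < (sh (x : ℂ) t).re := by rw [sh_re]; exact hx'
  have e : ∀ p : Nat.Primes, ‖zp P (sh (x : ℂ) t) p‖ = (zp P (x : ℂ) p).re := by
    intro p
    unfold zp
    split_ifs
    · rw [zz_sh_norm, zz_real, Complex.norm_real, Complex.ofReal_re, Real.norm_eq_abs, abs_of_nonneg]
      positivity
    · simp
  calc ‖ZP P (sh (x : ℂ) t)‖ ≤ ∑' p, ‖zp P (sh (x : ℂ) t) p‖ :=
        norm_tsum_le_tsum_norm (zp_summable _ hs).norm
    _ = ∑' p, (zp P (x : ℂ) p).re := tsum_congr e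
    _ = (ZP P (x : ℂ)).re := ((Complex.re_tsum (zp_summable _ hx'))).symm
    _ ≤ _ := Complex.re_le_norm _

theorem ZP_bound : ∀ᶠ x : ℝ in 𝓝[>] 0, ∀ t : ℝ,
    ‖ZP P (sh (x : ℂ) t) / (Real.log x : ℝ)‖ ≤ 2 := by
  obtain ⟨C, hC⟩ := logs_bdd (P := P)
  have h1 : Tendsto (fun x : ℝ => |Real.log x|) (𝓝[>] 0) atTop :=
    tendsto_abs_atBot_atTop.comp Real.tendsto_log_nhdsGT_zero
  have hpos : ∀ᶠ x : ℝ in 𝓝[>] 0, 0 < x := self_mem_nhdsWithin
  filter_upwards [hC, hpos, h1.eventually_ge_atTop (C + 2 * C2), h1.eventually_gt_atTop 0]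
    with x hx hx0 hx1 hx2 t
  rw [norm_div, Complex.norm_real, Real.norm_eq_abs, div_le_iff₀ hx2]
  have h2 := ZP_le (P := P) x hx0 t
  have h3 := ZP_TT (P := P) (x : ℂ) (by simpa using hx0)
  have h4 : ‖TT P (x : ℂ)‖ ≤ |Real.log x| + C := by
    rw [TT_pos x hx0, Complex.norm_real, Real.norm_eq_abs]
    exact (abs_sub _ _).trans (by linarith)
  have h5 : ‖ZP P (x : ℂ)‖ ≤ ‖ZP P (x : ℂ) + TT P (x : ℂ)‖ + ‖TT P (x : ℂ)‖ := by
    have := norm_sub_le (ZP P (x : ℂ) + TT P (x : ℂ)) (TT P (x : ℂ))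
    rwa [add_sub_cancel_right] at this
  linarith

theorem ZP_lim_zero : Tendsto (fun x : ℝ => ZP P (sh (x : ℂ) 0) / (Real.log x : ℝ)) (𝓝[>] 0)
    (𝓝 (-1)) := by
  obtain ⟨C, hC⟩ := logs_bdd (P := P)
  have hpos : ∀ᶠ x : ℝ in 𝓝[>] 0, 0 < x := self_mem_nhdsWithin
  have h1 : Tendsto (fun x : ℝ => |Real.log x|) (𝓝[>] 0) atTop :=
    tendsto_abs_atBot_atTop.comp Real.tendsto_log_nhdsGT_zero
  have h := div_log_zero (fun x : ℝ => ZP P (sh (x : ℂ) 0) + (Real.log x : ℝ)) (2 * C2 + C) (by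
    filter_upwards [hC, hpos] with x hx hx0
    have h3 := ZP_TT (P := P) (x : ℂ) (by simpa using hx0)
    have e0 : sh (x : ℂ) 0 = x := by simp [sh]
    have e : ZP P (sh (x : ℂ) 0) + (Real.log x : ℝ) = (ZP P (x : ℂ) + TT P (x : ℂ))
        + ((Real.log ‖ZZ x‖ + Real.log ‖QQ P x‖ : ℝ) : ℂ) := by
      rw [e0, TT_pos x hx0]
      push_cast
      ring
    rw [e]
    refine (norm_add_le _ _).trans ?_
    rw [Complex.norm_real, Real.norm_eq_abs]
    linarith)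
  have h2 := h.sub_const 1
  rw [zero_sub] at h2
  refine h2.congr' ?_
  filter_upwards [h1.eventually_gt_atTop 0] with x hx
  have hl : ((Real.log x : ℝ) : ℂ) ≠ 0 := by
    rw [Complex.ofReal_ne_zero]; exact abs_pos.1 hx
  field_simp
  ring

theorem ZP_lim_ne (t : ℝ) (ht : t ≠ 0) :
    Tendsto (fun x : ℝ => ZP P (sh (x : ℂ) t) / (Real.log x : ℝ)) (𝓝[>] 0) (𝓝 0) := by
  obtain ⟨T, hT⟩ := TT_limit (P := P) t ht
  have hpos : ∀ᶠ x : ℝ in 𝓝[>] 0, 0 < x := self_mem_nhdsWithin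
  refine div_log_zero _ (2 * C2 + (‖T‖ + 1)) ?_
  filter_upwards [hpos, hT.norm.eventually_le_const (lt_add_one _)] with x hx0 hx
  have h3 := ZP_TT (P := P) (sh (x : ℂ) t) (by rw [sh_re]; simpa using hx0)
  have := norm_sub_le (ZP P (sh (x : ℂ) t) + TT P (sh (x : ℂ) t)) (TT P (sh (x : ℂ) t))
  rw [add_sub_cancel_right] at this
  linarith

theorem natural_I (hκ : Summable fun j => ‖κ j‖) (hγ : Function.Injective γ)
    (h : OK (bI κ γ) K P) (hd : Gd (fun n => gB (bI κ γ) P n)) (i : ℕ) : ∃ n : ℕ, κ i = n := by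
  set c : ℂ := γ i * Complex.I with hc
  have hcre : c.re = 0 := by simp [hc]
  obtain ⟨n, T, hT⟩ := BB_order h hd c hcre
  have hpos : ∀ᶠ x : ℝ in 𝓝[>] 0, 0 < x := self_mem_nhdsWithin
  have h1 : Tendsto (fun x : ℝ => |Real.log x|) (𝓝[>] 0) atTop :=
    tendsto_abs_atBot_atTop.comp Real.tendsto_log_nhdsGT_zero
  have hsh : ∀ (x : ℝ) (j : ℕ), sh (c + x) (γ j) = sh (x : ℂ) (γ j - γ i) := by
    intro x j
    rw [hc]; unfold sh
    push_cast
    ring
  -- the first limit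
  have l1 : Tendsto (fun x : ℝ => BB (bI κ γ) P (c + x) / (Real.log x : ℝ)) (𝓝[>] 0)
      (𝓝 (n : ℂ)) := by
    have h2 := (div_log_zero _ _ (hT.norm.eventually_le_const (lt_add_one _))).add_const (n : ℂ)
    rw [zero_add] at h2
    refine h2.congr' ?_
    filter_upwards [h1.eventually_gt_atTop 0] with x hx
    have hl : ((Real.log x : ℝ) : ℂ) ≠ 0 := by
      rw [Complex.ofReal_ne_zero]; exact abs_pos.1 hx
    field_simp
    ring
  -- the second limit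
  have l2 : Tendsto (fun x : ℝ => ∑' j, κ j * (ZP P (sh (x : ℂ) (γ j - γ i)) / (Real.log x : ℝ)))
      (𝓝[>] 0) (𝓝 (∑' j, κ j * (if j = i then (-1 : ℂ) else 0))) := by
    refine tendsto_tsum_of_dominated_convergence (bound := fun j => ‖κ j‖ * 2) (hκ.mul_right 2)
      (fun j => ?_) ?_
    · refine Tendsto.const_mul _ ?_
      by_cases hj : j = i
      · subst hj
        rw [if_pos rfl, sub_self]
        exact ZP_lim_zero
      · rw [if_neg hj]
        exact ZP_lim_ne _ (sub_ne_zero.2 fun h => hj (hγ h))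
    · filter_upwards [ZP_bound (P := P)] with x hx j
      rw [norm_mul]
      exact mul_le_mul_of_nonneg_left (hx _) (norm_nonneg _)
  have e2 : ∑' j, κ j * (if j = i then (-1 : ℂ) else 0) = -κ i := by
    rw [tsum_eq_single i fun j hj => by rw [if_neg hj, mul_zero], if_pos rfl, mul_neg, mul_one]
  rw [e2] at l2
  -- the third limit
  have l3 := div_log_zero (fun x : ℝ => BB (bI κ γ) P (c + x) +
      ∑' j, κ j * ZP P (sh (x : ℂ) (γ j - γ i))) (2 * K ^ 2 * C2) (by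
    filter_upwards [hpos] with x hx
    have hre : 0 < (c + (x : ℂ)).re := by simp [hcre, hx]
    have h3 := BB_wb h (c + x) hre
    rw [wb_sum hκ _ hre] at h3
    simp_rw [hsh] at h3
    exact h3)
  have l4 := l3.sub l2
  rw [zero_sub, neg_neg] at l4
  refine ⟨n, tendsto_nhds_unique (l4.congr fun x => ?_) l1⟩
  have e4 : ∑' j, κ j * (ZP P (sh (x : ℂ) (γ j - γ i)) / (Real.log x : ℝ))
      = (∑' j, κ j * ZP P (sh (x : ℂ) (γ j - γ i))) / (Real.log x : ℝ) := by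
    rw [← tsum_div_const]
    exact tsum_congr fun j => by rw [mul_div_assoc]
  rw [e4]
  ring

end Pool.Agent.X87.CM
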