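import Pool.Agent.X87.CM.Inf2

set_option autoImplicit false

/-!
# The theorem for absolutely convergent series
-/

open Finset Filter Topology

namespace Pool.Agent.X87.CM

open Pool.H232R3

variable {κ : ℕ → ℂ} {γ : ℕ → ℝ}

theorem bI_norm (hκ : Summable fun j => ‖κ j‖) (p : ℕ) (hp : p.Prime) :
    ‖bI κ γ p‖ ≤ ∑' j, ‖κ j‖ := by
  unfold bI
  refine tsum_of_norm_bounded hκ.hasSum fun j => ?_
  rw [norm_mul, Complex.norm_natCast_cpow_of_pos hp.pos]
  simp

theorem exists_OK (hκ : Summable fun j => ‖κ j‖) : ∃ P, OK (bI κ γ) (∑' j, ‖κ j‖) P := by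
  have h0 : 0 ≤ ∑' j, ‖κ j‖ := tsum_nonneg fun _ => norm_nonneg _
  obtain ⟨P, hP⟩ := exists_large ((∑' j, ‖κ j‖ : ℝ) : ℂ)
  refine ⟨P, h0, fun p hp => bI_norm hκ p hp, fun p hp => ?_⟩
  have := hP p hp
  rwa [Complex.norm_real, Real.norm_eq_abs, abs_of_nonneg h0] at this

/-- if the partial sums of `f` are `O (N ^ (-1/2) (log N + 1) ^ A)`, the coefficients are natural -/
theorem natural_of_LB (f : ℕ → ℂ) (h1 : f 1 = 1)
    (hf : ∀ m n : ℕ, 0 < m → 0 < n → f (m * n) = f m * f n)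
    (hκ : Summable fun j => ‖κ j‖) (hγ : Function.Injective γ)
    (hs : Summable fun p : ℕ => if p.Prime then
      Real.sqrt p * ‖f p + (∑' j, κ j * (p : ℂ) ^ (γ j * Complex.I)) / p‖ else 0)
    {A C : ℝ} (hA : 0 ≤ A) (hC : 0 ≤ C) (hL : LB (fun n => ext0 f n) A C) (i : ℕ) :
    ∃ n : ℕ, κ i = n := by
  obtain ⟨P, hP⟩ := exists_OK (γ := γ) hκ
  have hnorm : ∀ p : ℕ, p.Prime → ‖gB (bI κ γ) P p‖ * Real.sqrt p ≤ 1 / 4 := by
    intro p hp
    rw [gB_prime p hp]
    have hp0 : (0 : ℝ) < p := by exact_mod_cast hp.pos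
    split_ifs with h
    · have h2 := hP.large p h
      rw [norm_neg, norm_div, Complex.norm_natCast]
      have e : (∑' j, ‖κ j‖) / p * Real.sqrt p = (∑' j, ‖κ j‖) * (p : ℝ) ^ (-(1 / 2) : ℝ) := by
        rw [Real.sqrt_eq_rpow, div_mul_eq_mul_div, mul_div_assoc]
        congr 1
        rw [div_eq_iff hp0.ne', ← Real.rpow_add_one hp0.ne']
        norm_num
      rw [← e] at h2
      refine le_trans ?_ h2
      have := hP.bd p hp
      gcongr
    · simp
  have hS : Summable fun p : ℕ => if p.Prime then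
      ‖gB (bI κ γ) P p - ext0 f p‖ * Real.sqrt p / (1 - ‖gB (bI κ γ) P p‖ * Real.sqrt p)
      else 0 := by
    refine Summable.of_norm_bounded_eventually_nat (hs.mul_left 2) ?_
    filter_upwards [eventually_ge_atTop (max P 1)] with p hp
    have hpP : P ≤ p := (le_max_left _ _).trans hp
    have hp1 : 1 ≤ p := (le_max_right _ _).trans hp
    by_cases hpp : p.Prime
    · rw [if_pos hpp, if_pos hpp]
      have h2 := hnorm p hpp
      have h3 : 0 ≤ ‖gB (bI κ γ) P p‖ * Real.sqrt p := by positivity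
      have h4 : ‖gB (bI κ γ) P p - ext0 f p‖
          = ‖f p + (∑' j, κ j * (p : ℂ) ^ (γ j * Complex.I)) / p‖ := by
        rw [gB_prime p hpp, if_pos hpP, ext0_apply f p hpp.ne_zero, ← norm_neg]
        congr 1
        unfold bI
        ring
      rw [Real.norm_eq_abs, abs_of_nonneg (div_nonneg (by positivity) (by linarith)), h4,
        div_le_iff₀ (by linarith)]
      have h5 : 0 ≤ Real.sqrt p * ‖f p + (∑' j, κ j * (p : ℂ) ^ (γ j * Complex.I)) / p‖ := by
        positivity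
      nlinarith
    · rw [if_neg hpp, if_neg hpp]
      simp
  obtain ⟨C', hC', hL'⟩ := LB_quo (ext0 f) (gB (bI κ γ) P)
    (by rw [ext0_apply f 1 one_ne_zero, h1])
    (ext0_mul f hf) gB_one gB_mul (fun p hp => by linarith [hnorm p hp]) hS hA hC hL
  exact natural_I hκ hγ hP (Gd_of_LB hA hC' hL') i

/-- the same for an eventual bound -/
theorem natural_of_small (f : ℕ → ℂ) (h1 : f 1 = 1)
    (hf : ∀ m n : ℕ, 0 < m → 0 < n → f (m * n) = f m * f n)
    (hκ : Summable fun j => ‖κ j‖) (hγ : Function.Injective γ)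
    (hs : Summable fun p : ℕ => if p.Prime then
      Real.sqrt p * ‖f p + (∑' j, κ j * (p : ℂ) ^ (γ j * Complex.I)) / p‖ else 0)
    {A : ℝ} (hA : 0 ≤ A) (M₀ : ℕ) (hM₀ : ∀ N : ℕ, M₀ ≤ N → 1 < N →
      ‖∑ n ∈ Finset.Icc 1 N, f n‖ < (N : ℝ) ^ (-(1 / 2) : ℝ) * Real.log N ^ A) (i : ℕ) :
    ∃ n : ℕ, κ i = n := by
  have hL : LC (fun n => ext0 f n) A 1
      (∑ n ∈ Finset.range (M₀ + 2), ‖SS (fun n => ext0 f n) n‖ * Real.sqrt n) := by
    intro N hN
    have hN0 : (0 : ℝ) < N := by exact_mod_cast hN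
    have hN1 : (1 : ℝ) ≤ N := by exact_mod_cast hN
    have hl : 0 ≤ Real.log N := Real.log_nonneg hN1
    have hbA := bb_nonneg A hN1
    have hb0 := bb_nonneg 0 hN1
    by_cases hNM : N < M₀ + 2
    · have h5 := Finset.single_le_sum (f := fun n => ‖SS (fun n => ext0 f n) n‖ * Real.sqrt n)
          (fun n _ => by positivity) (Finset.mem_range.2 hNM)
      have h6 : ‖SS (fun n => ext0 f n) N‖
          = (‖SS (fun n => ext0 f n) N‖ * Real.sqrt N) * bb 0 N := by
        unfold bb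
        rw [Real.rpow_zero, mul_one, Real.sqrt_eq_rpow, mul_assoc, ← Real.rpow_add hN0]
        norm_num
      rw [h6]
      have h7 : (‖SS (fun n => ext0 f n) N‖ * Real.sqrt N) * bb 0 N
          ≤ (∑ n ∈ Finset.range (M₀ + 2), ‖SS (fun n => ext0 f n) n‖ * Real.sqrt n) * bb 0 N :=
        mul_le_mul_of_nonneg_right h5 hb0
      have h8 : 0 ≤ 1 * bb A N := by positivity
      linarith
    · push Not at hNM
      have h4 := (hM₀ N (by omega) (by omega)).le
      rw [← ext0_SS] at h4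
      have h5 : Real.log N ^ A ≤ (Real.log N + 1) ^ A :=
        Real.rpow_le_rpow hl (by linarith) hA
      have h6 : (N : ℝ) ^ (-(1 / 2) : ℝ) * Real.log N ^ A ≤ bb A N := by
        unfold bb
        gcongr
      have h7 : 0 ≤ (∑ n ∈ Finset.range (M₀ + 2), ‖SS (fun n => ext0 f n) n‖ * Real.sqrt n) *
          bb 0 N := mul_nonneg (Finset.sum_nonneg fun n _ => by positivity) hb0
      linarith
  have hC0 : 0 ≤ ∑ n ∈ Finset.range (M₀ + 2), ‖SS (fun n => ext0 f n) n‖ * Real.sqrt n :=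
    Finset.sum_nonneg fun n _ => by positivity
  exact natural_of_LB f h1 hf hκ hγ hs hA (by linarith) (LB_of_LC hA hC0 hL) i

/-- a coefficient which is not natural -/
theorem mainJ (f : ℕ → ℂ) (h1 : f 1 = 1)
    (hf : ∀ m n : ℕ, 0 < m → 0 < n → f (m * n) = f m * f n)
    (hκ : Summable fun j => ‖κ j‖) (hγ : Function.Injective γ)
    (hs : Summable fun p : ℕ => if p.Prime then
      Real.sqrt p * ‖f p + (∑' j, κ j * (p : ℂ) ^ (γ j * Complex.I)) / p‖ else 0)
    (hn : ∃ j, ∀ n : ℕ, κ j ≠ n) (A : ℝ) (M : ℕ) :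
    ∃ N : ℕ, M ≤ N ∧ 1 < N ∧
      (N : ℝ) ^ (-(1 / 2) : ℝ) * Real.log N ^ A ≤ ‖∑ n ∈ Finset.Icc 1 N, f n‖ := by
  by_contra hcon
  push Not at hcon
  obtain ⟨j, hj⟩ := hn
  obtain ⟨n, hn⟩ := natural_of_small f h1 hf hκ hγ hs (le_max_right A 0) (max M 3)
    (fun N hN _ => by
      have hN3 : 3 ≤ N := (le_max_right _ _).trans hN
      refine (hcon N ((le_max_left _ _).trans hN) (by omega)).trans_le ?_
      have hlog : 1 ≤ Real.log N := by
        rw [Real.le_log_iff_exp_le (by positivity)]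
        have h3 : (3 : ℝ) ≤ N := by exact_mod_cast hN3
        have := Real.exp_one_lt_d9
        linarith
      have := Real.rpow_le_rpow_of_exponent_le hlog (le_max_left A 0)
      gcongr) j
  exact hj n hn

open Classical in
/-- half of the sum of the products `κ_i κ_j` with `γ_i + γ_j = 0` and of the `κ_j` with `γ_j = 0` -/
noncomputable def orderI (κ : ℕ → ℂ) (γ : ℕ → ℝ) : ℂ :=
  (∑' i, ∑' j, (if γ i + γ j = 0 then κ i * κ j else 0) + ∑' j, (if γ j = 0 then κ j else 0)) / 2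

/-- the theorem: the partial sums are not `o (N ^ (-1/2) (log N) ^ A)` for
`A = max (Re (order κ γ) - 1) 0` -/
theorem mainI (f : ℕ → ℂ) (h1 : f 1 = 1)
    (hf : ∀ m n : ℕ, 0 < m → 0 < n → f (m * n) = f m * f n) (κ : ℕ → ℂ)
    (γ : ℕ → ℝ) (hγ : Function.Injective γ) (hκ : Summable fun j => ‖κ j‖)
    (hs : Summable fun p : ℕ => if p.Prime then
      Real.sqrt p * ‖f p + (∑' j, κ j * (p : ℂ) ^ (γ j * Complex.I)) / p‖ else 0) :
    ∃ c : ℝ, 0 < c ∧ ∀ M : ℕ, ∃ N : ℕ, M ≤ N ∧ 1 < N ∧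
      c * ((N : ℝ) ^ (-(1 / 2) : ℝ) * Real.log N ^ max ((orderI κ γ).re - 1) 0)
        ≤ ‖∑ n ∈ Finset.Icc 1 N, f n‖ := by
  classical
  set A : ℝ := max ((orderI κ γ).re - 1) 0 with hAd
  have hA : 0 ≤ A := le_max_right _ _
  by_contra hcon0
  have hcon := hcon0
  push Not at hcon
  -- the coefficients are natural
  have hnat : ∀ i, ∃ n : ℕ, κ i = n := by
    obtain ⟨M₀, hM₀⟩ := hcon 1 one_pos
    exact natural_of_small f h1 hf hκ hγ hs hA M₀ fun N hN hN1 => (hM₀ N hN hN1).trans_eq (one_mul _)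
  -- finitely many of them are not zero
  have hfin : {j | κ j ≠ 0}.Finite := by
    have h2 : ∀ᶠ j in cofinite, ‖κ j‖ < 1 :=
      hκ.tendsto_cofinite_zero.eventually (gt_mem_nhds one_pos)
    refine (h2 : {j | ¬ ‖κ j‖ < 1}.Finite).subset fun j hj => ?_
    obtain ⟨n, hn⟩ := hnat j
    show ¬ ‖κ j‖ < 1
    rw [hn, Complex.norm_natCast, not_lt]
    have hn0 : n ≠ 0 := by
      rintro rfl
      exact hj (by rw [hn]; simp)
    exact_mod_cast Nat.one_le_iff_ne_zero.2 hn0
  set J : Finset ℕ := hfin.toFinset with hJ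
  have hout : ∀ j ∉ J, κ j = 0 := by
    intro j hj
    by_contra h
    exact hj (by rw [hJ, Set.Finite.mem_toFinset]; exact h)
  set e : Fin J.card ≃ J := J.equivFin.symm with he
  have htr : ∀ F : ℕ → ℂ, (∀ j ∉ J, F j = 0) → ∑' j, F j = ∑ x : Fin J.card, F (e x) := by
    intro F hF
    rw [tsum_eq_sum hF, ← Finset.sum_coe_sort J F, ← Equiv.sum_comp e]
  set κ' : Fin J.card → ℂ := fun x => κ (e x) with hκ'
  set γ' : Fin J.card → ℝ := fun x => γ (e x) with hγ'
  have hinj : Function.Injective γ' := fun x y hxy => e.injective (Subtype.ext (hγ hxy))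
  have hord : orderI κ γ = order κ' γ' := by
    unfold orderI order
    congr 1
    congr 1
    · rw [htr (fun i => ∑' j, (if γ i + γ j = 0 then κ i * κ j else 0)) (fun i hi => by
        simp [hout i hi])]
      refine Finset.sum_congr rfl fun x _ => ?_
      rw [htr (fun j => (if γ (e x) + γ j = 0 then κ (e x) * κ j else 0)) (fun i hi => by
        simp [hout i hi])]
    · rw [htr (fun j => (if γ j = 0 then κ j else 0)) (fun i hi => by simp [hout i hi])]
  have hs' : Summable fun p : ℕ => if p.Prime then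
      Real.sqrt p * ‖f p + (∑ x, κ' x * (p : ℂ) ^ (γ' x * Complex.I)) / p‖ else 0 := by
    refine hs.congr fun p => ?_
    rw [htr (fun j => κ j * (p : ℂ) ^ (γ j * Complex.I)) (fun i hi => by simp [hout i hi])]
  refine hcon0 ?_
  have h := mainE f h1 hf J.card κ' γ' hinj hs'
  rw [← hord] at h
  exact h

end Pool.Agent.X87.CM
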