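import Mathlib
import Pool.Agent.H232R3.CMOFinal
import Pool.Agent.H232R3.MOEuler

set_option autoImplicit false

/-!
# Euler products of the completely multiplicative functions with the values `-κ / p` at large primes
-/

open Finset Filter Topology

namespace Pool.Agent.X87.CM

open Pool.H232R3

/-- the values at the primes -/
noncomputable def uk (κ : ℂ) (P : ℕ) : ℕ → ℂ := fun p => if P ≤ p then -(κ / p) else 0

/-- the completely multiplicative function with the values `-κ / p` at the primes `p ≥ P` and `0` at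
the other primes -/
noncomputable def gk (κ : ℂ) (P : ℕ) : ArithmeticFunction ℂ := cmOf (uk κ P)

/-- `P` is large compared with `κ` -/
def Large (κ : ℂ) (P : ℕ) : Prop := ∀ p : ℕ, P ≤ p → ‖κ‖ * (p : ℝ) ^ (-(1 / 2) : ℝ) ≤ 1 / 4

theorem exists_large (κ : ℂ) : ∃ P, Large κ P := by
  have h1 : Tendsto (fun p : ℕ => ‖κ‖ * (p : ℝ) ^ (-(1 / 2) : ℝ)) atTop (𝓝 (‖κ‖ * 0)) :=
    ((tendsto_rpow_neg_atTop (by norm_num : (0 : ℝ) < 1 / 2)).comp
      tendsto_natCast_atTop_atTop).const_mul _
  rw [mul_zero] at h1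
  obtain ⟨P, hP⟩ := eventually_atTop.1 (h1.eventually (ge_mem_nhds (by norm_num : (0 : ℝ) < 1 / 4)))
  exact ⟨P, hP⟩

variable {κ : ℂ} {P : ℕ}

theorem small (hP : Large κ P) {s : ℂ} (hs : -(1 / 2) ≤ s.re) (p : Nat.Primes) (hp : P ≤ (p : ℕ)) :
    ‖κ * zz s p‖ ≤ 1 / 4 := by
  rw [norm_mul]
  refine le_trans ?_ (hP p hp)
  gcongr
  exact zz_le s hs p

/-- the logarithm of the regularised local factor -/
noncomputable def ell (κ : ℂ) (P : ℕ) (s : ℂ) (p : Nat.Primes) : ℂ :=
  if P ≤ (p : ℕ) then -Complex.log (1 + κ * zz s p) - κ * Complex.log (1 - zz s p) else 0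

/-- the logarithm of the local factor of the zeta function, up to the sign -/
noncomputable def tt (P : ℕ) (s : ℂ) (p : Nat.Primes) : ℂ :=
  if P ≤ (p : ℕ) then Complex.log (1 - zz s p) else 0

noncomputable def LL (κ : ℂ) (P : ℕ) (s : ℂ) : ℂ := ∑' p, ell κ P s p
noncomputable def TT (P : ℕ) (s : ℂ) : ℂ := ∑' p, tt P s p
noncomputable def QQ (P : ℕ) (s : ℂ) : ℂ := ∏ p ∈ Ps P, (1 - zz s p)

theorem zz_three (s : ℂ) (hs : -(1 / 2) ≤ s.re) (p : Nat.Primes) : ‖zz s p‖ ≤ 3 / 4 :=
  (zz_le s hs p).trans (half_le p)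

theorem log_sub (s : ℂ) (hs : -(1 / 2) ≤ s.re) (p : Nat.Primes) :
    ‖Complex.log (1 - zz s p) + zz s p‖ ≤ 2 * ‖zz s p‖ ^ 2 := by
  have h3 := zz_three s hs p
  have h := Complex.norm_log_one_add_sub_self_le (z := -zz s p) (by rw [norm_neg]; linarith)
  rw [norm_neg] at h
  have e : Complex.log (1 + -zz s p) - -zz s p = Complex.log (1 - zz s p) + zz s p := by
    rw [← sub_eq_add_neg]; ring
  rw [e] at h
  refine h.trans ?_
  have h4 : (1 - ‖zz s p‖)⁻¹ ≤ 4 := by
    rw [inv_le_comm₀ (by linarith) (by norm_num)]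
    linarith
  nlinarith [sq_nonneg ‖zz s p‖]

theorem ell_bound (hP : Large κ P) (s : ℂ) (hs : -(1 / 2) ≤ s.re) (p : Nat.Primes) :
    ‖ell κ P s p‖ ≤ (‖κ‖ ^ 2 + 2 * ‖κ‖) * ‖zz s p‖ ^ 2 := by
  unfold ell
  split_ifs with hp
  · have h1 := small hP hs p hp
    have h := Complex.norm_log_one_add_sub_self_le (z := κ * zz s p) (by linarith)
    have h4 : (1 - ‖κ * zz s p‖)⁻¹ ≤ 4 / 3 := by
      rw [inv_le_comm₀ (by linarith) (by norm_num)]
      linarith
    have h5 : ‖Complex.log (1 + κ * zz s p) - κ * zz s p‖ ≤ ‖κ‖ ^ 2 * ‖zz s p‖ ^ 2 := by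
      refine h.trans ?_
      rw [← mul_pow, ← norm_mul]
      nlinarith [sq_nonneg ‖κ * zz s p‖]
    have h6 := log_sub s hs p
    have e : -Complex.log (1 + κ * zz s p) - κ * Complex.log (1 - zz s p)
        = -(Complex.log (1 + κ * zz s p) - κ * zz s p)
          - κ * (Complex.log (1 - zz s p) + zz s p) := by ring
    rw [e]
    refine (norm_sub_le _ _).trans ?_
    rw [norm_neg, norm_mul]
    have h7 : ‖κ‖ * ‖Complex.log (1 - zz s p) + zz s p‖ ≤ ‖κ‖ * (2 * ‖zz s p‖ ^ 2) := by gcongr
    linarith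
  · rw [norm_zero]; positivity

theorem zz_sq_norm (s : ℂ) (p : Nat.Primes) : ‖zz s p‖ ^ 2 = (p : ℝ) ^ (-(2 + 2 * s.re)) := by
  rw [zz_norm, ← Real.rpow_natCast, ← Real.rpow_mul (Nat.cast_nonneg _)]
  congr 1
  push_cast
  ring

theorem sq_summable {σ : ℝ} (hs : -(1 / 2) < σ) :
    Summable fun p : Nat.Primes => (p : ℝ) ^ (-(2 + 2 * σ)) :=
  Nat.Primes.summable_rpow.mpr (by linarith)

theorem ell_summable (hP : Large κ P) (s : ℂ) (hs : -(1 / 2) < s.re) : Summable (ell κ P s) := by
  refine Summable.of_norm_bounded ((sq_summable hs).mul_left (‖κ‖ ^ 2 + 2 * ‖κ‖)) fun p => ?_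
  rw [← zz_sq_norm]
  exact ell_bound hP s hs.le p

theorem tt_bound (s : ℂ) (hs : -(1 / 2) ≤ s.re) (p : Nat.Primes) :
    ‖tt P s p‖ ≤ 3 * ‖zz s p‖ := by
  unfold tt
  split_ifs
  · have h := log_sub s hs p
    have h3 := zz_three s hs p
    have e : Complex.log (1 - zz s p) = (Complex.log (1 - zz s p) + zz s p) - zz s p := by ring
    rw [e]
    refine (norm_sub_le _ _).trans ?_
    nlinarith [norm_nonneg (zz s p)]
  · rw [norm_zero]; positivity

theorem tt_summable (s : ℂ) (hs : 0 < s.re) : Summable (tt P s) := by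
  refine Summable.of_norm_bounded ((zz_summable s hs).norm.mul_left 3) fun p => ?_
  exact tt_bound s (by linarith) p

theorem zz_differentiable (p : Nat.Primes) : Differentiable ℂ (fun s => zz s p) := by
  intro s
  have hp : (p : ℂ) ≠ 0 := by exact_mod_cast p.2.ne_zero
  unfold zz
  exact ((differentiableAt_const _).add differentiableAt_id).neg.const_cpow (Or.inl hp)

theorem slit {z : ℂ} (h : ‖z‖ < 1) : 1 + z ∈ Complex.slitPlane :=
  Complex.mem_slitPlane_of_norm_lt_one h

theorem log_differentiableAt (s : ℂ) (hs : -(1 / 2) ≤ s.re) (p : Nat.Primes) :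
    DifferentiableAt ℂ (fun s => Complex.log (1 - zz s p)) s := by
  refine DifferentiableAt.clog ((differentiableAt_const _).sub (zz_differentiable p s)) ?_
  have h3 := zz_three s hs p
  rw [sub_eq_add_neg]
  exact slit (by rw [norm_neg]; linarith)

theorem ell_differentiableAt (hP : Large κ P) (s : ℂ) (hs : -(1 / 2) ≤ s.re) (p : Nat.Primes) :
    DifferentiableAt ℂ (fun s => ell κ P s p) s := by
  unfold ell
  by_cases hp : P ≤ (p : ℕ)
  · simp only [if_pos hp]
    have h1 := small hP hs p hp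
    refine DifferentiableAt.sub (DifferentiableAt.neg ?_) ((log_differentiableAt s hs p).const_mul κ)
    exact DifferentiableAt.clog ((differentiableAt_const _).add
      ((zz_differentiable p s).const_mul κ)) (slit (by linarith))
  · simp only [if_neg hp]
    exact differentiableAt_const _

theorem tt_differentiableAt (s : ℂ) (hs : -(1 / 2) ≤ s.re) (p : Nat.Primes) :
    DifferentiableAt ℂ (fun s => tt P s p) s := by
  unfold tt
  by_cases hp : P ≤ (p : ℕ)
  · simp only [if_pos hp]
    exact log_differentiableAt s hs p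
  · simp only [if_neg hp]
    exact differentiableAt_const _

theorem open_re (a : ℝ) : IsOpen {s : ℂ | a < s.re} := isOpen_lt continuous_const Complex.continuous_re

theorem LL_differentiableAt (hP : Large κ P) (s : ℂ) (hs : -(1 / 2) < s.re) :
    DifferentiableAt ℂ (LL κ P) s := by
  set a : ℝ := (s.re - 1 / 2) / 2 with ha
  have ha1 : -(1 / 2) < a := by rw [ha]; linarith
  have ha2 : a < s.re := by rw [ha]; linarith
  have h := Complex.differentiableOn_tsum_of_summable_norm (U := {s : ℂ | a < s.re})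
    (F := fun p s => ell κ P s p) (u := fun p : Nat.Primes =>
      (‖κ‖ ^ 2 + 2 * ‖κ‖) * (p : ℝ) ^ (-(2 + 2 * a))) ((sq_summable ha1).mul_left _)
    (fun p w hw => (ell_differentiableAt hP w (by
      have : a < w.re := hw
      linarith) p).differentiableWithinAt) (open_re a) (fun p w hw => by
      have hw' : a < w.re := hw
      refine (ell_bound hP w (by linarith) p).trans ?_
      rw [zz_sq_norm]
      have hp1 : (1 : ℝ) ≤ p := by exact_mod_cast p.2.one_lt.le
      gcongr)
  exact (h s ha2).differentiableAt ((open_re a).mem_nhds ha2)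

theorem TT_differentiableAt (s : ℂ) (hs : 0 < s.re) : DifferentiableAt ℂ (TT P) s := by
  set a : ℝ := s.re / 2 with ha
  have ha1 : 0 < a := by rw [ha]; linarith
  have ha2 : a < s.re := by rw [ha]; linarith
  have hsum : Summable fun p : Nat.Primes => (p : ℝ) ^ (-(1 + a)) :=
    Nat.Primes.summable_rpow.mpr (by linarith)
  have h := Complex.differentiableOn_tsum_of_summable_norm (U := {s : ℂ | a < s.re})
    (F := fun p s => tt P s p) (u := fun p : Nat.Primes => 3 * (p : ℝ) ^ (-(1 + a)))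
    (hsum.mul_left _)
    (fun p w hw => (tt_differentiableAt w (by
      have : a < w.re := hw
      linarith) p).differentiableWithinAt) (open_re a) (fun p w hw => by
      have hw' : a < w.re := hw
      refine (tt_bound w (by linarith) p).trans ?_
      rw [zz_norm]
      have hp1 : (1 : ℝ) ≤ p := by exact_mod_cast p.2.one_lt.le
      gcongr)
  exact (h s ha2).differentiableAt ((open_re a).mem_nhds ha2)

theorem QQ_differentiable : Differentiable ℂ (QQ P) := by
  intro s
  unfold QQ
  refine DifferentiableAt.fun_finsetProd fun p _ => ?_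
  exact (differentiableAt_const _).sub (zz_differentiable p s)

theorem one_sub_ne (s : ℂ) (hs : -(1 / 2) ≤ s.re) (p : Nat.Primes) : 1 - zz s p ≠ 0 := by
  intro h
  have h3 := zz_three s hs p
  rw [sub_eq_zero] at h
  rw [← h, norm_one] at h3
  norm_num at h3

theorem QQ_ne (s : ℂ) (hs : -(1 / 2) ≤ s.re) : QQ P s ≠ 0 :=
  Finset.prod_ne_zero_iff.2 fun p _ => one_sub_ne s hs p

theorem zeta_id (s : ℂ) (hs : 0 < s.re) :
    riemannZeta (s + 1) * Complex.exp (TT P s) * QQ P s = 1 := by
  have h1 := zeta_prod1 s hs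
  have h2 : ∑' p : Nat.Primes, -Complex.log (1 - zz s p)
      = -(TT P s + ∑ p ∈ Ps P, Complex.log (1 - zz s p)) := by
    rw [tsum_neg]
    congr 1
    have h3 : ∀ p : Nat.Primes, Complex.log (1 - zz s p)
        = tt P s p + (if P ≤ (p : ℕ) then 0 else Complex.log (1 - zz s p)) := by
      intro p
      unfold tt
      split_ifs <;> simp
    have h4 : ∀ p ∉ Ps P, (if P ≤ (p : ℕ) then 0 else Complex.log (1 - zz s p)) = 0 := by
      intro p hp
      rw [mem_Ps, not_lt] at hp
      rw [if_pos hp]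
    have h5 : Summable fun p : Nat.Primes =>
        (if P ≤ (p : ℕ) then 0 else Complex.log (1 - zz s p)) :=
      summable_of_ne_finset_zero h4
    rw [tsum_congr h3, (tt_summable s hs).tsum_add h5, tsum_eq_sum h4]
    congr 1
    refine Finset.sum_congr rfl fun p hp => ?_
    rw [mem_Ps] at hp
    rw [if_neg (not_le.2 hp)]
  have h6 : Complex.exp (∑ p ∈ Ps P, Complex.log (1 - zz s p)) = QQ P s := by
    rw [Complex.exp_sum]
    exact Finset.prod_congr rfl fun p _ => Complex.exp_log (one_sub_ne s (by linarith) p)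
  rw [← h1, h2, neg_add, Complex.exp_add, Complex.exp_neg, Complex.exp_neg, h6]
  have := QQ_ne (P := P) s (by linarith)
  have := Complex.exp_ne_zero (TT P s)
  field_simp

theorem gk_one : gk κ P 1 = 1 := cmOf_one _
theorem gk_mul (m n : ℕ) : gk κ P (m * n) = gk κ P m * gk κ P n := cmOf_mul _ m n
theorem gk_prime (p : ℕ) (hp : p.Prime) : gk κ P p = if P ≤ p then -(κ / p) else 0 :=
  cmOf_prime _ p hp

theorem gk_euler (hP : Large κ P) (s : ℂ) (hs : 0 < s.re)
    (hS : LSeriesSummable (fun n => gk κ P n) s) :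
    LSeries (fun n => gk κ P n) s = Complex.exp (LL κ P s + κ * TT P s) := by
  let φ : ℕ →*₀ ℂ :=
    { toFun := fun n => gk κ P n * (n : ℂ) ^ (-s)
      map_zero' := by simp
      map_one' := by simp [gk_one]
      map_mul' := fun m n => by
        rw [gk_mul, Nat.cast_mul, Complex.natCast_mul_natCast_cpow]
        ring }
  have hφ : ∀ n, φ n = LSeries.term (fun n => gk κ P n) s n := by
    intro n
    rw [LSeries.term_def]
    split_ifs with h0
    · rw [h0]; simp
    · show gk κ P n * (n : ℂ) ^ (-s) = _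
      rw [Complex.cpow_neg, div_eq_mul_inv]
  have hsum : Summable (fun n => ‖φ n‖) := by
    simp_rw [hφ]
    exact hS.norm
  have h := EulerProduct.exp_tsum_primes_log_eq_tsum (f := φ) hsum
  have e1 : ∑' n, φ n = LSeries (fun n => gk κ P n) s := tsum_congr hφ
  rw [e1] at h
  rw [← h]
  congr 1
  have e2 : ∀ p : Nat.Primes, -Complex.log (1 - φ p) = ell κ P s p + κ * tt P s p := by
    intro p
    have e3 : φ (p : ℕ) = gk κ P p * (p : ℂ) ^ (-s) := rfl
    rw [e3, gk_prime _ p.2]
    unfold ell tt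
    split_ifs
    · rw [zz_eq]
      have : 1 - -(κ / ((p : ℕ) : ℂ)) * ((p : ℕ) : ℂ) ^ (-s)
          = 1 + κ * (((p : ℕ) : ℂ)⁻¹ * ((p : ℕ) : ℂ) ^ (-s)) := by
        rw [div_eq_mul_inv]; ring
      rw [this]
      ring
    · simp
  rw [tsum_congr e2, (ell_summable hP s (by linarith)).tsum_add ((tt_summable s hs).mul_left κ),
    tsum_mul_left]
  rfl

end Pool.Agent.X87.CM
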