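import Pool.Agent.X87.CM.Trig5

set_option autoImplicit false

/-!
# Partial sums bounded by `N ^ (-1/2) (log N) ^ A`
-/

open Finset Filter Topology MeasureTheory Set

namespace Pool.Agent.X87.CM

open Pool.H232R3

/-- the partial sums are at most `C N ^ (-1/2) (log N + 1) ^ A` -/
def LB (g : ℕ → ℂ) (A C : ℝ) : Prop :=
  ∀ N : ℕ, 1 ≤ N → ‖SS g N‖ ≤ C * ((N : ℝ) ^ (-(1 / 2) : ℝ) * (Real.log N + 1) ^ A)

variable {g : ℕ → ℂ} {A C : ℝ}

theorem LB_floor (hA : 0 ≤ A) (hC : 0 ≤ C) (h : LB g A C) (t : ℝ) (ht : 1 ≤ t) :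
    ‖SS g ⌊t⌋₊‖ ≤ 2 * C * (t ^ (-(1 / 2) : ℝ) * (Real.log t + 1) ^ A) := by
  have hf : 1 ≤ ⌊t⌋₊ := by rwa [Nat.one_le_floor_iff]
  have h1 := h _ hf
  have hf1 : (1 : ℝ) ≤ ⌊t⌋₊ := by exact_mod_cast hf
  have hf2 : (⌊t⌋₊ : ℝ) ≤ t := Nat.floor_le (by linarith)
  have hf3 : t / 4 ≤ ⌊t⌋₊ := by
    have := Nat.lt_floor_add_one t
    linarith
  have h2 : (⌊t⌋₊ : ℝ) ^ (-(1 / 2) : ℝ) ≤ 2 * t ^ (-(1 / 2) : ℝ) := by
    have h3 : (⌊t⌋₊ : ℝ) ^ (-(1 / 2) : ℝ) ≤ (t / 4) ^ (-(1 / 2) : ℝ) :=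
      Real.rpow_le_rpow_of_nonpos (by linarith) hf3 (by norm_num)
    have h4 : (t / 4) ^ (-(1 / 2) : ℝ) = 2 * t ^ (-(1 / 2) : ℝ) := by
      rw [Real.div_rpow (by linarith) (by norm_num)]
      have : (4 : ℝ) ^ (-(1 / 2) : ℝ) = 1 / 2 := by
        rw [show (4 : ℝ) = 2 ^ (2 : ℝ) by norm_num, ← Real.rpow_mul (by norm_num)]
        norm_num
      rw [this]; ring
    linarith
  have hl : 0 ≤ Real.log ⌊t⌋₊ := Real.log_nonneg hf1
  have h5 : (Real.log ⌊t⌋₊ + 1) ^ A ≤ (Real.log t + 1) ^ A := by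
    refine Real.rpow_le_rpow (by linarith) ?_ hA
    have := Real.log_le_log (by linarith) hf2
    linarith
  have h6 : 0 ≤ (Real.log ⌊t⌋₊ + 1) ^ A := Real.rpow_nonneg (by linarith) _
  calc ‖SS g ⌊t⌋₊‖ ≤ C * ((⌊t⌋₊ : ℝ) ^ (-(1 / 2) : ℝ) * (Real.log ⌊t⌋₊ + 1) ^ A) := h1
    _ ≤ C * ((2 * t ^ (-(1 / 2) : ℝ)) * (Real.log t + 1) ^ A) := by gcongr
    _ = _ := by ring

theorem log_pow_le (hA : 0 ≤ A) (h : ℝ) (hh : 0 < h) (hh1 : h ≤ 1) (t : ℝ) (ht : 1 ≤ t) :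
    (Real.log t + 1) ^ A
      ≤ ((2 * (A + 1)) ^ A * Real.exp 1) * (h ^ (-A) * t ^ (h / 2)) := by
  have hl : 0 ≤ Real.log t := Real.log_nonneg ht
  have ht0 : 0 < t := by linarith
  set u : ℝ := Real.log t + 1 with hu
  have hu0 : 0 ≤ u := by linarith
  have h1 : u ≤ (2 * (A + 1) / h) * Real.exp (h * u / (2 * (A + 1))) := by
    have h2 : h * u / (2 * (A + 1)) ≤ Real.exp (h * u / (2 * (A + 1))) := by
      have := Real.add_one_le_exp (h * u / (2 * (A + 1)))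
      linarith
    have h3 : u = (2 * (A + 1) / h) * (h * u / (2 * (A + 1))) := by field_simp
    calc u = (2 * (A + 1) / h) * (h * u / (2 * (A + 1))) := h3
      _ ≤ _ := by gcongr
  have h4 : u ^ A ≤ ((2 * (A + 1) / h) * Real.exp (h * u / (2 * (A + 1)))) ^ A :=
    Real.rpow_le_rpow hu0 h1 hA
  refine h4.trans ?_
  rw [Real.mul_rpow (by positivity) (Real.exp_pos _).le, ← Real.exp_mul,
    Real.div_rpow (by positivity) hh.le]
  have h5 : Real.exp (h * u / (2 * (A + 1)) * A) ≤ Real.exp 1 * t ^ (h / 2) := by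
    rw [Real.rpow_def_of_pos ht0, ← Real.exp_add]
    refine Real.exp_le_exp.2 ?_
    have h6 : h * u / (2 * (A + 1)) * A ≤ h * u / 2 := by
      rw [div_mul_eq_mul_div, div_le_div_iff₀ (by positivity) (by norm_num)]
      nlinarith [mul_nonneg hh.le hu0]
    have h7 : h * u / 2 ≤ 1 + Real.log t * (h / 2) := by
      rw [hu]
      nlinarith
    linarith
  have h8 : 0 ≤ (2 * (A + 1)) ^ A / h ^ A := by positivity
  rw [Real.rpow_neg hh.le]
  calc (2 * (A + 1)) ^ A / h ^ A * Real.exp (h * u / (2 * (A + 1)) * A)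
      ≤ (2 * (A + 1)) ^ A / h ^ A * (Real.exp 1 * t ^ (h / 2)) := by gcongr
    _ = _ := by ring

/-- the constant -/
noncomputable def K0 (A C : ℝ) : ℝ := 2 * C * ((2 * (A + 1)) ^ A * Real.exp 1)

theorem K0_nonneg (hA : 0 ≤ A) (hC : 0 ≤ C) : 0 ≤ K0 A C := by unfold K0; positivity

theorem LB_rpow (hA : 0 ≤ A) (hC : 0 ≤ C) (hL : LB g A C) (h : ℝ) (hh : 0 < h) (hh1 : h ≤ 1)
    (t : ℝ) (ht : 1 ≤ t) : ‖SS g ⌊t⌋₊‖ ≤ K0 A C * h ^ (-A) * t ^ (-(1 / 2 - h / 2) : ℝ) := by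
  have ht0 : 0 < t := by linarith
  refine (LB_floor hA hC hL t ht).trans ?_
  have h1 := log_pow_le hA h hh hh1 t ht
  have h2 : t ^ (-(1 / 2 - h / 2) : ℝ) = t ^ (-(1 / 2) : ℝ) * t ^ (h / 2) := by
    rw [← Real.rpow_add ht0]; congr 1; ring
  rw [h2]
  unfold K0
  calc 2 * C * (t ^ (-(1 / 2) : ℝ) * (Real.log t + 1) ^ A)
      ≤ 2 * C * (t ^ (-(1 / 2) : ℝ) *
          (((2 * (A + 1)) ^ A * Real.exp 1) * (h ^ (-A) * t ^ (h / 2)))) := by gcongr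
    _ = _ := by ring

theorem LB_const (hA : 0 ≤ A) (hC : 0 ≤ C) (hL : LB g A C) (N : ℕ) : ‖SS g N‖ ≤ K0 A C := by
  rcases Nat.eq_zero_or_pos N with h0 | hpos
  · rw [h0, SS_zero, norm_zero]; exact K0_nonneg hA hC
  · have h1 := LB_rpow hA hC hL 1 one_pos le_rfl N (by exact_mod_cast hpos)
    rw [Nat.floor_natCast, Real.one_rpow] at h1
    norm_num at h1
    exact h1

theorem Phi_diffL (hA : 0 ≤ A) (hC : 0 ≤ C) (hL : LB g A C) (s : ℂ) (hs : -(1 / 2) < s.re) :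
    DifferentiableAt ℂ (Phi g) s := by
  set h : ℝ := min 1 (s.re + 1 / 2) with hh
  have hh0 : 0 < h := lt_min one_pos (by linarith)
  have hh1 : h ≤ 1 := min_le_left _ _
  have hh2 : h ≤ s.re + 1 / 2 := min_le_right _ _
  have key : DifferentiableAt ℂ (mellin (fun t : ℝ => SS g ⌊t⌋₊)) (-s) := by
    refine mellin_differentiableAt_of_isBigO_rpow (a := 1 / 2 - h / 2) (b := (-s).re - 1)
      (locInt_SSfloor g (K0 A C) (LB_const hA hC hL)) ?_ ?_ ?_ ?_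
    · refine Asymptotics.IsBigO.of_bound (K0 A C * h ^ (-A)) ?_
      filter_upwards [eventually_ge_atTop (1 : ℝ)] with t ht
      rw [Real.norm_eq_abs, abs_of_nonneg (by positivity)]
      exact LB_rpow hA hC hL h hh0 hh1 t ht
    · rw [Complex.neg_re]; linarith
    · refine Asymptotics.IsBigO.of_bound 1 ?_
      have : ∀ᶠ t in 𝓝[>] (0 : ℝ), t < 1 :=
        (nhdsWithin_le_nhds) (Iio_mem_nhds one_pos)
      filter_upwards [this] with t ht
      rw [SSfloor_lt_one g t ht, norm_zero]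
      positivity
    · linarith
  exact key.comp s (differentiable_neg s)

theorem Phi_LSeriesL (hA : 0 ≤ A) (hC : 0 ≤ C) (hL : LB g A C) (s : ℂ)
    (hs : 0 < s.re) (hS : LSeriesSummable g s) : LSeries g s = s * Phi g s := by
  rw [Phi_eq_integral]
  refine LSeries_eq_mul_integral g le_rfl hs hS ?_
  refine Asymptotics.IsBigO.of_bound (K0 A C) ?_
  refine Eventually.of_forall fun n => ?_
  simp only [Real.rpow_zero, norm_one, mul_one]
  exact LB_const hA hC hL n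

theorem Phi_boundL (hA : 0 ≤ A) (hC : 0 ≤ C) (hL : LB g A C) (h : ℝ) (hh : 0 < h) (hh1 : h ≤ 1) :
    ‖Phi g ((h - 1 / 2 : ℝ) : ℂ)‖ ≤ K0 A C * h ^ (-A) * (2 / h) := by
  rw [Phi_eq_integral]
  have hint : IntegrableOn (fun t : ℝ => K0 A C * h ^ (-A) * t ^ (-1 - h / 2 : ℝ)) (Ioi 1) :=
    (integrableOn_Ioi_rpow_of_lt (by linarith) one_pos).const_mul _
  have hle : ‖∫ t in Ioi (1 : ℝ), SS g ⌊t⌋₊ * (t : ℂ) ^ (-(((h - 1 / 2 : ℝ) : ℂ) + 1))‖
      ≤ ∫ t in Ioi (1 : ℝ), K0 A C * h ^ (-A) * t ^ (-1 - h / 2 : ℝ) := by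
    refine norm_integral_le_of_norm_le hint ?_
    rw [ae_restrict_iff' measurableSet_Ioi]
    refine Eventually.of_forall fun t ht => ?_
    have ht1 : (1 : ℝ) < t := ht
    have ht0 : 0 < t := by linarith
    rw [norm_mul, Complex.norm_cpow_eq_rpow_re_of_pos ht0]
    have hre : (-(((h - 1 / 2 : ℝ) : ℂ) + 1)).re = -(h + 1 / 2) := by
      rw [Complex.neg_re, Complex.add_re, Complex.ofReal_re, Complex.one_re]; ring
    rw [hre]
    have h1 := LB_rpow hA hC hL h hh hh1 t ht1.le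
    have h2 : t ^ (-1 - h / 2 : ℝ) = t ^ (-(1 / 2 - h / 2) : ℝ) * t ^ (-(h + 1 / 2) : ℝ) := by
      rw [← Real.rpow_add ht0]
      congr 1
      ring
    rw [h2, ← mul_assoc]
    gcongr
  refine hle.trans (le_of_eq ?_)
  rw [integral_const_mul, integral_Ioi_rpow_of_lt (by linarith) one_pos, Real.one_rpow]
  have e : -1 - h / 2 + 1 = -(h / 2) := by ring
  rw [e, neg_div_neg_eq, one_div_div]

theorem LB_quo (f g : ArithmeticFunction ℂ) (h1 : f 1 = 1)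
    (hf : ∀ m n, f (m * n) = f m * f n) (g1 : g 1 = 1) (hg : ∀ m n, g (m * n) = g m * g n)
    (hlt : ∀ p : ℕ, p.Prime → ‖g p‖ * Real.sqrt p < 1)
    (hS : Summable fun p : ℕ => if p.Prime then
      ‖g p - f p‖ * Real.sqrt p / (1 - ‖g p‖ * Real.sqrt p) else 0)
    (hA : 0 ≤ A) (hC : 0 ≤ C) (hL : LB (fun n => f n) A C) :
    ∃ C' : ℝ, 0 ≤ C' ∧ LB (fun n => g n) A C' := by
  have hsum := quo_summable f g h1 hf g1 hg hlt hS
  refine ⟨2 * C * ∑' d : ℕ, ‖quo f g d‖ * Real.sqrt d, ?_, fun N hN => ?_⟩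
  · have : 0 ≤ ∑' d : ℕ, ‖quo f g d‖ * Real.sqrt d := tsum_nonneg fun d => by positivity
    positivity
  have hN0 : (0 : ℝ) < N := by exact_mod_cast hN
  have hN1 : (1 : ℝ) ≤ N := by exact_mod_cast hN
  have hlN : 0 ≤ Real.log N := Real.log_nonneg hN1
  have hterm : ∀ d ∈ Finset.Ioc 0 N, ‖quo f g d * SS (fun n => f n) (N / d)‖
      ≤ (2 * C * ((N : ℝ) ^ (-(1 / 2) : ℝ) * (Real.log N + 1) ^ A)) *
        (‖quo f g d‖ * Real.sqrt d) := by
    intro d hd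
    rw [Finset.mem_Ioc] at hd
    have hd0 : (0 : ℝ) < d := by exact_mod_cast hd.1
    have hq : 1 ≤ N / d := Nat.div_pos hd.2 hd.1
    have h2 := hL (N / d) hq
    have hq1 : (1 : ℝ) ≤ ((N / d : ℕ) : ℝ) := by exact_mod_cast hq
    have h3 : N ≤ 4 * (d * (N / d)) := by
      have := Nat.div_add_mod N d
      have h3 := Nat.mod_lt N hd.1
      have h4 : d * 1 ≤ d * (N / d) := Nat.mul_le_mul_left d hq
      omega
    have h4 : (N : ℝ) / (4 * d) ≤ ((N / d : ℕ) : ℝ) := by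
      rw [div_le_iff₀ (by positivity)]
      have : (N : ℝ) ≤ 4 * (d * ((N / d : ℕ) : ℝ)) := by exact_mod_cast h3
      linarith
    have h5 : ((N / d : ℕ) : ℝ) ^ (-(1 / 2) : ℝ) ≤ 2 * Real.sqrt d * (N : ℝ) ^ (-(1 / 2) : ℝ) := by
      have h6 : ((N / d : ℕ) : ℝ) ^ (-(1 / 2) : ℝ) ≤ ((N : ℝ) / (4 * d)) ^ (-(1 / 2) : ℝ) :=
        Real.rpow_le_rpow_of_nonpos (by positivity) h4 (by norm_num)
      have h7 : ((N : ℝ) / (4 * d)) ^ (-(1 / 2) : ℝ)
          = 2 * Real.sqrt d * (N : ℝ) ^ (-(1 / 2) : ℝ) := by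
        rw [Real.div_rpow hN0.le (by positivity), Real.rpow_neg (by positivity : (0 : ℝ) ≤ 4 * d),
          ← Real.sqrt_eq_rpow, Real.sqrt_mul (by norm_num)]
        have h8 : Real.sqrt 4 = 2 := by
          rw [show (4 : ℝ) = 2 ^ 2 by norm_num]
          exact Real.sqrt_sq (by norm_num)
        rw [h8, div_inv_eq_mul]
        ring
      exact h6.trans h7.le
    have h9 : (Real.log ((N / d : ℕ) : ℝ) + 1) ^ A ≤ (Real.log N + 1) ^ A := by
      refine Real.rpow_le_rpow ?_ ?_ hA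
      · have := Real.log_nonneg hq1
        linarith
      · have h10 : ((N / d : ℕ) : ℝ) ≤ N := by exact_mod_cast Nat.div_le_self N d
        have := Real.log_le_log (by linarith) h10
        linarith
    have h11 : 0 ≤ (Real.log ((N / d : ℕ) : ℝ) + 1) ^ A := by
      have := Real.log_nonneg hq1
      exact Real.rpow_nonneg (by linarith) _
    rw [norm_mul]
    calc ‖quo f g d‖ * ‖SS (fun n => f n) (N / d)‖
        ≤ ‖quo f g d‖ * (C * ((2 * Real.sqrt d * (N : ℝ) ^ (-(1 / 2) : ℝ)) *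
          (Real.log N + 1) ^ A)) := by
          refine mul_le_mul_of_nonneg_left (h2.trans ?_) (norm_nonneg _)
          gcongr
      _ = _ := by ring
  rw [SS_quo f g h1 hf N]
  refine (norm_sum_le _ _).trans ((Finset.sum_le_sum hterm).trans ?_)
  rw [← Finset.mul_sum]
  have h12 : ∑ d ∈ Finset.Ioc 0 N, ‖quo f g d‖ * Real.sqrt d
      ≤ ∑' d : ℕ, ‖quo f g d‖ * Real.sqrt d :=
    hsum.sum_le_tsum _ fun d _ => by positivity
  have h13 : 0 ≤ (N : ℝ) ^ (-(1 / 2) : ℝ) * (Real.log N + 1) ^ A :=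
    mul_nonneg (by positivity) (Real.rpow_nonneg (by linarith) _)
  calc 2 * C * ((N : ℝ) ^ (-(1 / 2) : ℝ) * (Real.log N + 1) ^ A) *
        ∑ d ∈ Finset.Ioc 0 N, ‖quo f g d‖ * Real.sqrt d
      ≤ 2 * C * ((N : ℝ) ^ (-(1 / 2) : ℝ) * (Real.log N + 1) ^ A) *
        ∑' d : ℕ, ‖quo f g d‖ * Real.sqrt d := by gcongr
    _ = _ := by ring

end Pool.Agent.X87.CM
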