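import Pool.Agent.X87.CM.Log1

set_option autoImplicit false

/-!
# Powers of the logarithm
-/

open Finset Filter Topology

namespace Pool.Agent.X87.CM

open Pool.H232R3

/-- the properties of the partial sums which are used -/
structure Gd (g : ℕ → ℂ) : Prop where
  diff : ∀ s : ℂ, -(1 / 2) < s.re → DifferentiableAt ℂ (Phi g) s
  bd : ∃ K : ℝ, ∀ N : ℕ, ‖SS g N‖ ≤ K
  ser : ∀ s : ℂ, 0 < s.re → LSeriesSummable g s → LSeries g s = s * Phi g s

theorem Gd_of_LB {g : ℕ → ℂ} {A C : ℝ} (hA : 0 ≤ A) (hC : 0 ≤ C) (hL : LB g A C) : Gd g :=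
  ⟨Phi_diffL hA hC hL, ⟨K0 A C, LB_const hA hC hL⟩, Phi_LSeriesL hA hC hL⟩

variable {ι : Type} [Fintype ι] {κ : ι → ℂ} {γ : ι → ℝ} {P : ℕ}

theorem summable_of_Gd (hd : Gd (fun n => gT κ γ P n)) (s : ℂ) (hs : 1 < s.re) :
    LSeriesSummable (fun n => gT κ γ P n) s := by
  obtain ⟨K, hb⟩ := hd.bd
  refine LSeriesSummable_of_bounded_of_one_lt_re (m := 2 * K) ?_ hs
  intro n hn
  obtain ⟨m, rfl⟩ : ∃ m, n = m + 1 := ⟨n - 1, by omega⟩
  have h2 : gT κ γ P (m + 1) = SS (fun n => gT κ γ P n) (m + 1) - SS (fun n => gT κ γ P n) m := by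
    rw [SS_succ]; ring
  rw [h2]
  refine (norm_sub_le _ _).trans ?_
  have := hb (m + 1)
  have := hb m
  linarith

/-- the Euler product, right of the line `Re s = 0` -/
theorem stepBG (hP : LargeT κ P) (hd : Gd (fun n => gT κ γ P n)) (s : ℂ) (hs : 0 < s.re) :
    s * Phi (fun n => gT κ γ P n) s
      = Complex.exp (LLT κ γ P s + ∑ j, κ j * TT P (sh s (γ j))) := by
  refine ident 0 one_pos (fun s => s * Phi (fun n => gT κ γ P n) s)
    (fun s => Complex.exp (LLT κ γ P s + ∑ j, κ j * TT P (sh s (γ j)))) ?_ ?_ ?_ s hs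
  · intro s hs
    have hs' : 0 < s.re := hs
    exact (differentiableAt_id.mul (hd.diff s (by linarith))).differentiableWithinAt
  · intro s hs
    have hs' : 0 < s.re := hs
    refine (DifferentiableAt.add (LLT_differentiableAt hP s (by linarith)) ?_).cexp.differentiableWithinAt
    exact DifferentiableAt.fun_sum fun j _ => (TTsh_differentiableAt (γ j) s hs').const_mul (κ j)
  · intro s hs
    have h1 := summable_of_Gd hd s hs
    show s * Phi (fun n => gT κ γ P n) s = _
    rw [← hd.ser s (by linarith) h1, gT_euler hP s (by linarith) h1]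

/-- the Euler product for natural coefficients, right of the line `Re s = -1 / 2` -/
theorem stepCG {k : ι → ℕ} (hP : LargeT (fun j => (k j : ℂ)) P)
    (hd : Gd (fun n => gT (fun j => (k j : ℂ)) γ P n)) (s : ℂ) (hs : -(1 / 2) < s.re) :
    s * Phi (fun n => gT (fun j => (k j : ℂ)) γ P n) s *
        ∏ j, (ZZ (sh s (γ j)) * QQ P (sh s (γ j))) ^ k j
      = (∏ j, (sh s (γ j)) ^ k j) * Complex.exp (LLT (fun j => (k j : ℂ)) γ P s) := by
  refine ident (-(1 / 2)) (by norm_num)
    (fun s => s * Phi (fun n => gT (fun j => (k j : ℂ)) γ P n) s *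
        ∏ j, (ZZ (sh s (γ j)) * QQ P (sh s (γ j))) ^ k j)
    (fun s => (∏ j, (sh s (γ j)) ^ k j) * Complex.exp (LLT (fun j => (k j : ℂ)) γ P s)) ?_ ?_ ?_ s hs
  · intro s hs
    refine ((differentiableAt_id.mul (hd.diff s hs)).mul ?_).differentiableWithinAt
    refine DifferentiableAt.fun_finsetProd fun j _ => ?_
    refine DifferentiableAt.pow ?_ _
    exact ((ZZ_differentiable _).comp s (sh_differentiable (γ j) s)).mul
      ((QQ_differentiable _).comp s (sh_differentiable (γ j) s))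
  · intro s hs
    refine (DifferentiableAt.mul ?_ (LLT_differentiableAt hP s hs).cexp).differentiableWithinAt
    exact DifferentiableAt.fun_finsetProd fun j _ => (sh_differentiable (γ j) s).pow _
  · intro s hs
    show s * Phi (fun n => gT (fun j => (k j : ℂ)) γ P n) s *
        ∏ j, (ZZ (sh s (γ j)) * QQ P (sh s (γ j))) ^ k j
      = (∏ j, (sh s (γ j)) ^ k j) * Complex.exp (LLT (fun j => (k j : ℂ)) γ P s)
    rw [stepBG hP hd s (by linarith), Complex.exp_add, Complex.exp_sum, mul_assoc,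
      ← Finset.prod_mul_distrib, mul_comm]
    congr 1
    refine Finset.prod_congr rfl fun j _ => ?_
    have s0 : sh s (γ j) ≠ 0 := by
      intro h
      have := congrArg Complex.re h
      rw [sh_re] at this
      simp at this
      linarith
    have h1 := zeta_id (P := P) (sh s (γ j)) (by rw [sh_re]; linarith)
    rw [ZZ_eq _ s0, Complex.exp_nat_mul, ← mul_pow]
    congr 1
    calc Complex.exp (TT P (sh s (γ j))) *
          (sh s (γ j) * riemannZeta (sh s (γ j) + 1) * QQ P (sh s (γ j)))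
        = sh s (γ j) * (riemannZeta (sh s (γ j) + 1) * Complex.exp (TT P (sh s (γ j))) *
            QQ P (sh s (γ j))) := by ring
      _ = _ := by rw [h1, mul_one]

theorem natural_G (hγ : Function.Injective γ) (hP : LargeT κ P)
    (hd : Gd (fun n => gT κ γ P n)) (j : ι) : ∃ n : ℕ, κ j = n := by
  classical
  have hT : ∀ i, ∃ T : ℂ, i ≠ j →
      Tendsto (fun x : ℝ => TT P (sh (x : ℂ) (γ i - γ j))) (𝓝[>] 0) (𝓝 T) := by
    intro i
    by_cases hi : i = j
    · exact ⟨0, fun h => absurd hi h⟩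
    · obtain ⟨T, hT⟩ := TT_limit (P := P) (γ i - γ j) (sub_ne_zero.2 fun h => hi (hγ h))
      exact ⟨T, fun _ => hT⟩
  choose T hT using hT
  set c : ℂ := γ j * Complex.I with hc
  have hcre : c.re = 0 := by simp [hc]
  set F : ℂ → ℂ := fun s => s * Phi (fun n => gT κ γ P n) s with hF
  have hFd : DifferentiableOn ℂ F {s | -(1 / 2) < s.re} := fun s hs =>
    (differentiableAt_id.mul (hd.diff s hs)).differentiableWithinAt
  have hFa : AnalyticAt ℂ F c := hFd.analyticOnNhd (open_re _) c (by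
    show -(1 / 2) < c.re
    rw [hcre]; norm_num)
  refine natural_of_branch (κ j) c F hFa
    (fun x : ℝ => Complex.exp (LLT κ γ P (c + x) +
      ∑ i ∈ univ.erase j, κ i * TT P (sh (x : ℂ) (γ i - γ j))
      - κ j * (Real.log ‖ZZ x‖ + Real.log ‖QQ P x‖ : ℝ)))
    (Complex.exp (LLT κ γ P c + ∑ i ∈ univ.erase j, κ i * T i
      - κ j * (Real.log ‖ZZ ((0 : ℝ) : ℂ)‖ + Real.log ‖QQ P ((0 : ℝ) : ℂ)‖ : ℝ)))
    (Complex.exp_ne_zero _) ?_ (fun x => Complex.exp_ne_zero _) ?_
  · refine (Complex.continuous_exp.tendsto _).comp ((Tendsto.add ?_ ?_).sub ?_)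
    · have h1 : ContinuousAt (fun x : ℝ => c + (x : ℂ)) 0 :=
        (continuous_const.add Complex.continuous_ofReal).continuousAt
      have h2 : ContinuousAt (fun x : ℝ => LLT κ γ P (c + (x : ℂ))) 0 := by
        refine ContinuousAt.comp (f := fun x : ℝ => c + (x : ℂ)) (g := LLT κ γ P) ?_ h1
        refine (LLT_differentiableAt hP _ ?_).continuousAt
        simp [hcre]
      have h3 := h2.tendsto
      simp only [Complex.ofReal_zero, add_zero] at h3
      exact h3.mono_left nhdsWithin_le_nhds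
    · refine tendsto_finsetSum _ fun i hi => ?_
      exact (hT i (Finset.ne_of_mem_erase hi)).const_mul (κ i)
    · refine Tendsto.const_mul (κ j) ?_
      exact ((Complex.continuous_ofReal.continuousAt.comp (logs_cont (P := P))).tendsto).mono_left
        nhdsWithin_le_nhds
  · intro x hx
    have h1 : 0 < (c + (x : ℂ)).re := by simp [hcre, hx]
    have h2 : ∀ i, sh (c + (x : ℂ)) (γ i) = sh (x : ℂ) (γ i - γ j) := by
      intro i
      unfold sh
      rw [hc]; push_cast; ring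
    have h3 : sh (x : ℂ) (γ j - γ j) = x := by unfold sh; simp
    rw [hF]
    show (c + (x : ℂ)) * Phi (fun n => gT κ γ P n) (c + x) = _
    rw [stepBG hP hd _ h1, ← Finset.add_sum_erase _ _ (Finset.mem_univ j), h2, h3, TT_pos x hx,
      ← Complex.exp_add]
    congr 1
    simp only [h2]
    push_cast
    ring

open Classical in
theorem lowerI (δ : ℝ) : ∃ C : ℝ, ∀ᶠ y : ℝ in 𝓝[>] 0,
    (if δ = 0 then -Real.log y else 0) - C ≤ -(TT P (sh (y : ℂ) δ)).re := by
  by_cases hδ : δ = 0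
  · subst hδ
    obtain ⟨C, hC⟩ := lower0 (P := P)
    refine ⟨C, ?_⟩
    filter_upwards [hC] with y hy
    have e : sh (y : ℂ) 0 = y := by unfold sh; simp
    rw [e, if_pos rfl]
    exact hy
  · obtain ⟨C, hC⟩ := lower (P := P) δ
    refine ⟨C, ?_⟩
    filter_upwards [hC] with y hy
    rw [if_neg hδ]
    linarith

open Classical in
/-- the order of the singularity at `-1 / 2` -/
noncomputable def MM (k : ι → ℕ) (γ : ι → ℝ) : ℝ :=
  (∑ i, ∑ j, (if γ i + γ j = 0 then (k i : ℝ) * k j else 0) +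
    ∑ j, (if γ j = 0 then (k j : ℝ) else 0)) / 2

theorem LLT_lowerM {k : ι → ℕ} (hP : LargeT (fun j => (k j : ℂ)) P) :
    ∃ C : ℝ, ∀ᶠ y : ℝ in 𝓝[>] 0,
      MM k γ * -Real.log y - C ≤ (LLT (fun j => (k j : ℂ)) γ P (((y - 1) / 2 : ℝ) : ℂ)).re := by
  classical
  obtain ⟨C₀, hC₀⟩ := LLT_second (γ := γ) hP
  have hl : ∀ i j : ι, ∃ C : ℝ, ∀ᶠ y : ℝ in 𝓝[>] 0,
      (if γ i + γ j = 0 then -Real.log y else 0) - C ≤ -(TT P (sh (y : ℂ) (γ i + γ j))).re :=
    fun i j => by
      obtain ⟨C, hC⟩ := lowerI (P := P) (γ i + γ j)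
      exact ⟨C, by convert hC⟩
  choose c hc using hl
  set S : ℝ := ∑ i, ∑ j, (k i : ℝ) * k j * c i j with hS
  set S' : ℝ := ∑ j, (k j : ℝ) * c j j with hS'
  refine ⟨C₀ + (S + S') / 2, ?_⟩
  filter_upwards [self_mem_nhdsWithin,
    eventually_all.2 fun i => eventually_all.2 fun j => hc i j] with y hy0 hyij
  have hy0' : (0 : ℝ) < y := hy0
  set m : ι → ι → ℝ := fun i j => -(TT P (sh (y : ℂ) (γ i + γ j))).re with hm
  have hA : (∑ i, ∑ j, (if γ i + γ j = 0 then (k i : ℝ) * k j else 0)) * -Real.log y - S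
      ≤ ∑ i, ∑ j, (k i : ℝ) * k j * m i j := by
    rw [hS, Finset.sum_mul, ← Finset.sum_sub_distrib]
    refine Finset.sum_le_sum fun i _ => ?_
    rw [Finset.sum_mul, ← Finset.sum_sub_distrib]
    refine Finset.sum_le_sum fun j _ => ?_
    have h1 : (k i : ℝ) * k j * ((if γ i + γ j = 0 then -Real.log y else 0) - c i j)
        ≤ (k i : ℝ) * k j * m i j := mul_le_mul_of_nonneg_left (hyij i j) (by positivity)
    refine le_trans (le_of_eq ?_) h1
    split_ifs <;> ring
  have hB : (∑ j, (if γ j = 0 then (k j : ℝ) else 0)) * -Real.log y - S'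
      ≤ ∑ j, (k j : ℝ) * m j j := by
    rw [hS', Finset.sum_mul, ← Finset.sum_sub_distrib]
    refine Finset.sum_le_sum fun j _ => ?_
    have h1 : (k j : ℝ) * ((if γ j + γ j = 0 then -Real.log y else 0) - c j j)
        ≤ (k j : ℝ) * m j j := mul_le_mul_of_nonneg_left (hyij j j) (by positivity)
    refine le_trans (le_of_eq ?_) h1
    by_cases h0 : γ j = 0
    · rw [if_pos h0, if_pos (by rw [h0, add_zero])]; ring
    · rw [if_neg h0, if_neg (fun h => h0 (by linarith))]; ring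
  have hx : -(1 / 2) < (y - 1) / 2 := by linarith
  have hxy : 1 + 2 * ((y - 1) / 2) = y := by ring
  have h2 := hC₀ ((y - 1) / 2) hx
  rw [hxy] at h2
  set E : ℂ := (∑ i, ∑ j, (k i : ℂ) * (k j : ℂ) * TT P (sh (y : ℂ) (γ i + γ j)) +
      ∑ j, (k j : ℂ) * TT P (sh (y : ℂ) (γ j + γ j))) / 2 with hE
  have hEre : E.re = -(∑ i, ∑ j, (k i : ℝ) * k j * m i j + ∑ j, (k j : ℝ) * m j j) / 2 := by
    have e1 : ∀ i j : ι, ((k i : ℂ) * (k j : ℂ) * TT P (sh (y : ℂ) (γ i + γ j))).re
        = -((k i : ℝ) * k j * m i j) := by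
      intro i j
      have : (k i : ℂ) * (k j : ℂ) = (((k i : ℝ) * k j : ℝ) : ℂ) := by push_cast; rfl
      rw [this, Complex.re_ofReal_mul]
      show _ = -((k i : ℝ) * k j * -(TT P (sh (y : ℂ) (γ i + γ j))).re)
      ring
    have e2 : ∀ j : ι, ((k j : ℂ) * TT P (sh (y : ℂ) (γ j + γ j))).re = -((k j : ℝ) * m j j) := by
      intro j
      have : (k j : ℂ) = ((k j : ℝ) : ℂ) := by push_cast; rfl
      rw [this, Complex.re_ofReal_mul]
      show _ = -((k j : ℝ) * -(TT P (sh (y : ℂ) (γ j + γ j))).re)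
      ring
    have e3 : E.re = ((∑ i, ∑ j, (k i : ℂ) * (k j : ℂ) * TT P (sh (y : ℂ) (γ i + γ j)) +
      ∑ j, (k j : ℂ) * TT P (sh (y : ℂ) (γ j + γ j)))).re / 2 := by
      rw [hE]
      have : (2 : ℂ) = ((2 : ℝ) : ℂ) := by norm_num
      rw [this, Complex.div_ofReal_re]
    rw [e3, Complex.add_re, Complex.re_sum, Complex.re_sum]
    simp only [Complex.re_sum, e1, e2, Finset.sum_neg_distrib]
    ring
  have h3 := (Complex.abs_re_le_norm _).trans h2
  rw [Complex.add_re, hEre] at h3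
  have h4 := (abs_le.1 h3).1
  have h5 : MM k γ * -Real.log y
      = ((∑ i, ∑ j, (if γ i + γ j = 0 then (k i : ℝ) * k j else 0)) * -Real.log y +
        (∑ j, (if γ j = 0 then (k j : ℝ) else 0)) * -Real.log y) / 2 := by
    have : MM k γ = (∑ i, ∑ j, (if γ i + γ j = 0 then (k i : ℝ) * k j else 0) +
        ∑ j, (if γ j = 0 then (k j : ℝ) else 0)) / 2 := by
      unfold MM
      congr!
    rw [this]; ring
  rw [h5]
  linarith

end Pool.Agent.X87.CM
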