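import Pool.Agent.X87.CM.Log2

set_option autoImplicit false

/-!
# The theorem with powers of the logarithm
-/

open Finset Filter Topology

namespace Pool.Agent.X87.CM

open Pool.H232R3

variable {ι : Type} [Fintype ι] {κ : ι → ℂ} {γ : ι → ℝ} {P : ℕ}

theorem coreG_nat {k : ι → ℕ} (hP : LargeT (fun j => (k j : ℂ)) P) {A C₁ : ℝ} (hA : 0 ≤ A)
    (hC₁ : 0 ≤ C₁) (hL : LB (fun n => gT (fun j => (k j : ℂ)) γ P n) A C₁)
    (hM : A + 1 < MM k γ) : False := by
  classical
  have hd := Gd_of_LB hA hC₁ hL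
  obtain ⟨C, hC⟩ := LLT_lowerM (γ := γ) hP
  -- the products near `-1 / 2`
  set X : ℝ → ℝ := fun y => (y - 1) / 2 with hX
  have hX0 : Tendsto X (𝓝[>] 0) (𝓝 (-(1 / 2))) := by
    have h1 : Tendsto X (𝓝 0) (𝓝 (X 0)) := by
      have : Continuous X := by rw [hX]; fun_prop
      exact this.tendsto 0
    have h2 : X 0 = -(1 / 2) := by rw [hX]; norm_num
    rw [h2] at h1
    exact h1.mono_left nhdsWithin_le_nhds
  set W : ℝ → ℝ := fun x => ‖∏ j, (ZZ (sh (x : ℂ) (γ j)) * QQ P (sh (x : ℂ) (γ j))) ^ k j‖ with hW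
  have hshc : ∀ j, Continuous fun x : ℝ => sh (x : ℂ) (γ j) := fun j =>
    (sh_differentiable (γ j)).continuous.comp Complex.continuous_ofReal
  have hWc : Continuous W := by
    rw [hW]
    refine (continuous_finsetProd _ fun j _ => ?_).norm
    exact (((ZZ_differentiable.continuous.comp (hshc j))).mul
      (QQ_differentiable.continuous.comp (hshc j))).pow _
  set R : ℝ → ℝ := fun x => ‖∏ j, (sh (x : ℂ) (γ j)) ^ k j‖ with hR
  have hRc : Continuous R := by
    rw [hR]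
    exact (continuous_finsetProd _ fun j _ => (hshc j).pow _).norm
  have hR0 : 0 < R (-(1 / 2)) := by
    rw [hR]
    refine norm_pos_iff.2 (Finset.prod_ne_zero_iff.2 fun j _ => pow_ne_zero _ ?_)
    intro h
    have := congrArg Complex.re h
    rw [sh_re, Complex.ofReal_re, Complex.zero_re] at this
    norm_num at this
  set r : ℝ := R (-(1 / 2)) / 2 with hr
  have hr0 : 0 < r := by rw [hr]; positivity
  set M : ℝ := W (-(1 / 2)) + 1 with hMd
  have hM0 : 0 < M := by
    have : 0 ≤ W (-(1 / 2)) := norm_nonneg _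
    rw [hMd]; linarith
  have hWe : ∀ᶠ y : ℝ in 𝓝[>] 0, W (X y) < M :=
    ((hWc.tendsto _).comp hX0).eventually (gt_mem_nhds (by rw [hMd]; linarith))
  have hRe : ∀ᶠ y : ℝ in 𝓝[>] 0, r < R (X y) :=
    ((hRc.tendsto _).comp hX0).eventually (lt_mem_nhds (by rw [hr]; linarith))
  set c : ℝ := r * Real.exp (-C) with hc
  have hc0 : 0 < c := by positivity
  have hK0 := K0_nonneg hA hC₁
  set K' : ℝ := K0 A C₁ * 2 ^ A * 4 * M with hK'
  have hK'0 : 0 ≤ K' := by positivity
  have h1 : ∀ᶠ y : ℝ in 𝓝[>] 0, y < 1 :=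
    eventually_nhdsWithin_of_eventually_nhds (gt_mem_nhds one_pos)
  have hfin : ∀ᶠ y : ℝ in 𝓝[>] 0, c ≤ K' * y ^ (MM k γ - (A + 1)) := by
    filter_upwards [hC, hWe, hRe, h1, self_mem_nhdsWithin] with y hCy hWy hRy hy1 hy0
    have hy0' : (0 : ℝ) < y := hy0
    have hx : -(1 / 2) < X y := by rw [hX]; show -(1 / 2) < (y - 1) / 2; linarith
    have h2 := congrArg norm (stepCG hP hd (X y : ℂ) (by simpa using hx))
    rw [norm_mul, norm_mul, norm_mul, Complex.norm_exp] at h2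
    have h3 : ‖((X y : ℝ) : ℂ)‖ ≤ 1 := by
      rw [Complex.norm_real, Real.norm_eq_abs, abs_le]
      rw [hX]
      show -1 ≤ (y - 1) / 2 ∧ (y - 1) / 2 ≤ 1
      constructor <;> linarith
    have h4 := Phi_boundL hA hC₁ hL (y / 2) (by linarith) (by linarith)
    have h5 : y / 2 - 1 / 2 = X y := by rw [hX]; show y / 2 - 1 / 2 = (y - 1) / 2; ring
    rw [h5] at h4
    have h6 : K0 A C₁ * (y / 2) ^ (-A) * (2 / (y / 2)) = K0 A C₁ * 2 ^ A * 4 * y ^ (-(A + 1)) := by
      rw [Real.div_rpow hy0'.le (by norm_num), Real.rpow_neg (by norm_num : (0 : ℝ) ≤ 2),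
        div_inv_eq_mul, neg_add, Real.rpow_add hy0', Real.rpow_neg_one]
      field_simp
      ring
    rw [h6] at h4
    have h7 : ‖((X y : ℝ) : ℂ)‖ * ‖Phi (fun n => gT (fun j => (k j : ℂ)) γ P n) (X y : ℂ)‖ * W (X y)
        ≤ 1 * (K0 A C₁ * 2 ^ A * 4 * y ^ (-(A + 1))) * M := by
      have : 0 ≤ W (X y) := norm_nonneg _
      gcongr
    have h8 : r * (Real.exp (-C) * y ^ (-MM k γ)) ≤ R (X y) *
        Real.exp (LLT (fun j => (k j : ℂ)) γ P ((X y : ℝ) : ℂ)).re := by
      have h9 : Real.exp (-C) * y ^ (-MM k γ)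
          ≤ Real.exp (LLT (fun j => (k j : ℂ)) γ P ((X y : ℝ) : ℂ)).re := by
        rw [Real.rpow_def_of_pos hy0', ← Real.exp_add]
        refine Real.exp_le_exp.2 (le_trans (le_of_eq ?_) hCy)
        ring
      have : 0 ≤ Real.exp (-C) * y ^ (-MM k γ) := by positivity
      gcongr
    have h11 : r * (Real.exp (-C) * y ^ (-MM k γ))
        ≤ 1 * (K0 A C₁ * 2 ^ A * 4 * y ^ (-(A + 1))) * M := h8.trans (h2.symm.le.trans h7)
    have h12 : c * y ^ (-MM k γ) ≤ K' * y ^ (-(A + 1)) := by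
      calc c * y ^ (-MM k γ) = r * (Real.exp (-C) * y ^ (-MM k γ)) := by rw [hc]; ring
        _ ≤ _ := h11
        _ = _ := by rw [hK']; ring
    have h13 : y ^ (MM k γ - (A + 1)) = y ^ (MM k γ) * y ^ (-(A + 1)) := by
      rw [← Real.rpow_add hy0', sub_eq_add_neg]
    have h14 : y ^ (-MM k γ) * y ^ (MM k γ) = 1 := by
      rw [← Real.rpow_add hy0', neg_add_cancel, Real.rpow_zero]
    have h15 : 0 ≤ y ^ (MM k γ) := by positivity
    calc c = c * (y ^ (-MM k γ) * y ^ (MM k γ)) := by rw [h14, mul_one]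
      _ = (c * y ^ (-MM k γ)) * y ^ (MM k γ) := by ring
      _ ≤ (K' * y ^ (-(A + 1))) * y ^ (MM k γ) := by gcongr
      _ = _ := by rw [h13]; ring
  have hlim : Tendsto (fun y : ℝ => K' * y ^ (MM k γ - (A + 1))) (𝓝[>] 0) (𝓝 (K' * 0)) := by
    refine Tendsto.const_mul K' ?_
    have h2 : ContinuousAt (fun y : ℝ => y ^ (MM k γ - (A + 1))) 0 :=
      Real.continuousAt_rpow_const _ _ (Or.inr (by linarith))
    have h3 := h2.tendsto
    rw [Real.zero_rpow (by linarith)] at h3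
    exact h3.mono_left nhdsWithin_le_nhds
  have h14 := ge_of_tendsto hlim hfin
  rw [mul_zero] at h14
  linarith

open Classical in
/-- the order of the singularity, for complex coefficients -/
theorem MM_re (k : ι → ℕ) (γ : ι → ℝ) :
    ((∑ i, ∑ j, (if γ i + γ j = 0 then (k i : ℂ) * (k j : ℂ) else 0) +
      ∑ j, (if γ j = 0 then (k j : ℂ) else 0)) / 2).re = MM k γ := by
  have e : ((∑ i, ∑ j, (if γ i + γ j = 0 then (k i : ℂ) * (k j : ℂ) else 0) +
      ∑ j, (if γ j = 0 then (k j : ℂ) else 0)) / 2) = ((MM k γ : ℝ) : ℂ) := by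
    unfold MM
    push_cast
    congr 2
    · refine Finset.sum_congr rfl fun i _ => Finset.sum_congr rfl fun j _ => ?_
      split_ifs <;> simp
    · refine Finset.sum_congr rfl fun j _ => ?_
      split_ifs <;> simp
  rw [e, Complex.ofReal_re]

open Classical in
theorem coreG (hγ : Function.Injective γ) (hP : LargeT κ P) {A C₁ : ℝ} (hA : 0 ≤ A)
    (hC₁ : 0 ≤ C₁) (hL : LB (fun n => gT κ γ P n) A C₁)
    (hM : A + 1 < ((∑ i, ∑ j, (if γ i + γ j = 0 then κ i * κ j else 0) +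
      ∑ j, (if γ j = 0 then κ j else 0)) / 2).re) : False := by
  choose k hk using natural_G hγ hP (Gd_of_LB hA hC₁ hL)
  obtain rfl : κ = fun j => (k j : ℂ) := funext hk
  refine coreG_nat hP hA hC₁ hL (hM.trans_le (le_of_eq ?_))
  exact MM_re k γ

open Classical in
/-- the partial sums are not `O (N ^ (-1/2) (log N) ^ A)` -/
theorem mainG (f : ℕ → ℂ) (h1 : f 1 = 1)
    (hf : ∀ m n : ℕ, 0 < m → 0 < n → f (m * n) = f m * f n) (κ : ι → ℂ) (γ : ι → ℝ)
    (hγ : Function.Injective γ)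
    (hs : Summable fun p : ℕ => if p.Prime then
      Real.sqrt p * ‖f p + (∑ j, κ j * (p : ℂ) ^ (γ j * Complex.I)) / p‖ else 0)
    (A : ℝ) (hA : 0 ≤ A)
    (hM : A + 1 < ((∑ i, ∑ j, (if γ i + γ j = 0 then κ i * κ j else 0) +
      ∑ j, (if γ j = 0 then κ j else 0)) / 2).re) (B : ℝ) (M₀ : ℕ) :
    ∃ N : ℕ, M₀ ≤ N ∧ 1 < N ∧
      B * ((N : ℝ) ^ (-(1 / 2) : ℝ) * Real.log N ^ A) ≤ ‖∑ n ∈ Finset.Icc 1 N, f n‖ := by
  by_contra hcon
  push Not at hcon
  obtain ⟨P, hP⟩ := exists_largeT κ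
  -- the bound for all `N`
  set C : ℝ := |B| + ∑ n ∈ Finset.range (M₀ + 2), ‖SS (fun n => ext0 f n) n‖ * Real.sqrt n with hC
  have hC0 : 0 ≤ C := by
    have : 0 ≤ ∑ n ∈ Finset.range (M₀ + 2), ‖SS (fun n => ext0 f n) n‖ * Real.sqrt n :=
      Finset.sum_nonneg fun n _ => by positivity
    have := abs_nonneg B
    rw [hC]; linarith
  have hLf : LB (fun n => ext0 f n) A C := by
    intro N hN
    have hN0 : (0 : ℝ) < N := by exact_mod_cast hN
    have hN1 : (1 : ℝ) ≤ N := by exact_mod_cast hN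
    have hl : 0 ≤ Real.log N := Real.log_nonneg hN1
    have h2 : (1 : ℝ) ≤ (Real.log N + 1) ^ A := Real.one_le_rpow (by linarith) hA
    have h3 : 0 ≤ (N : ℝ) ^ (-(1 / 2) : ℝ) := by positivity
    by_cases hNM : N < M₀ + 2
    · have h4 : ‖SS (fun n => ext0 f n) N‖ * Real.sqrt N ≤ C := by
        have h5 := Finset.single_le_sum (f := fun n => ‖SS (fun n => ext0 f n) n‖ * Real.sqrt n)
          (fun n _ => by positivity) (Finset.mem_range.2 hNM)
        have := abs_nonneg B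
        rw [hC]
        have h6 : ‖SS (fun n => ext0 f n) N‖ * Real.sqrt N
          ≤ ∑ n ∈ Finset.range (M₀ + 2), ‖SS (fun n => ext0 f n) n‖ * Real.sqrt n := h5
        linarith
      have h5 : ‖SS (fun n => ext0 f n) N‖
          = (‖SS (fun n => ext0 f n) N‖ * Real.sqrt N) * (N : ℝ) ^ (-(1 / 2) : ℝ) := by
        rw [Real.sqrt_eq_rpow, mul_assoc, ← Real.rpow_add hN0]
        norm_num
      rw [h5]
      calc (‖SS (fun n => ext0 f n) N‖ * Real.sqrt N) * (N : ℝ) ^ (-(1 / 2) : ℝ)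
          ≤ C * ((N : ℝ) ^ (-(1 / 2) : ℝ) * 1) := by
            rw [mul_one]; gcongr
        _ ≤ _ := by gcongr
    · push Not at hNM
      have h4 := (hcon N (by omega) (by omega)).le
      rw [← ext0_SS] at h4
      refine h4.trans ?_
      have h5 : Real.log N ^ A ≤ (Real.log N + 1) ^ A :=
        Real.rpow_le_rpow hl (by linarith) hA
      have h6 : 0 ≤ Real.log N ^ A := Real.rpow_nonneg hl _
      have h7 : B ≤ C := by
        have : 0 ≤ ∑ n ∈ Finset.range (M₀ + 2), ‖SS (fun n => ext0 f n) n‖ * Real.sqrt n :=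
          Finset.sum_nonneg fun n _ => by positivity
        have := le_abs_self B
        rw [hC]; linarith
      calc B * ((N : ℝ) ^ (-(1 / 2) : ℝ) * Real.log N ^ A)
          ≤ C * ((N : ℝ) ^ (-(1 / 2) : ℝ) * Real.log N ^ A) := by gcongr
        _ ≤ _ := by gcongr
  have haa : ∀ p : ℕ, p.Prime → ‖aa κ γ p‖ ≤ KK κ := by
    intro p hp
    unfold aa KK
    refine (norm_sum_le _ _).trans (Finset.sum_le_sum fun j _ => ?_)
    rw [norm_mul, Complex.norm_natCast_cpow_of_pos hp.pos]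
    simp
  have hnorm : ∀ p : ℕ, p.Prime → ‖gT κ γ P p‖ * Real.sqrt p ≤ 1 / 4 := by
    intro p hp
    rw [gT_prime p hp]
    have hp0 : (0 : ℝ) < p := by exact_mod_cast hp.pos
    split_ifs with h
    · have h2 := hP p h
      rw [norm_neg, norm_div, Complex.norm_natCast]
      have e : KK κ / p * Real.sqrt p = KK κ * (p : ℝ) ^ (-(1 / 2) : ℝ) := by
        rw [Real.sqrt_eq_rpow, div_mul_eq_mul_div, mul_div_assoc]
        congr 1
        rw [div_eq_iff hp0.ne', ← Real.rpow_add_one hp0.ne']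
        norm_num
      rw [← e] at h2
      refine le_trans ?_ h2
      have := haa p hp
      gcongr
    · simp
  have hS : Summable fun p : ℕ => if p.Prime then
      ‖gT κ γ P p - ext0 f p‖ * Real.sqrt p / (1 - ‖gT κ γ P p‖ * Real.sqrt p) else 0 := by
    refine Summable.of_norm_bounded_eventually_nat (hs.mul_left 2) ?_
    filter_upwards [eventually_ge_atTop (max P 1)] with p hp
    have hpP : P ≤ p := (le_max_left _ _).trans hp
    have hp1 : 1 ≤ p := (le_max_right _ _).trans hp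
    by_cases hpp : p.Prime
    · rw [if_pos hpp, if_pos hpp]
      have h2 := hnorm p hpp
      have h3 : 0 ≤ ‖gT κ γ P p‖ * Real.sqrt p := by positivity
      have h4 : ‖gT κ γ P p - ext0 f p‖
          = ‖f p + (∑ j, κ j * (p : ℂ) ^ (γ j * Complex.I)) / p‖ := by
        rw [gT_prime p hpp, if_pos hpP, ext0_apply f p hpp.ne_zero, ← norm_neg]
        congr 1
        unfold aa
        ring
      rw [Real.norm_eq_abs, abs_of_nonneg (div_nonneg (by positivity) (by linarith)), h4,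
        div_le_iff₀ (by linarith)]
      have h5 : 0 ≤ Real.sqrt p * ‖f p + (∑ j, κ j * (p : ℂ) ^ (γ j * Complex.I)) / p‖ := by
        positivity
      nlinarith
    · rw [if_neg hpp, if_neg hpp]
      simp
  obtain ⟨C', hC', hL'⟩ := LB_quo (ext0 f) (gT κ γ P) (by rw [ext0_apply f 1 one_ne_zero, h1])
    (ext0_mul f hf) gT_one gT_mul (fun p hp => by linarith [hnorm p hp]) hS hA hC0 hLf
  exact coreG hγ hP hA hC' hL' hM

end Pool.Agent.X87.CM
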