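import Pool.Agent.X87.CM.Log3

set_option autoImplicit false

/-!
# The endpoint exponent
-/

open Finset Filter Topology MeasureTheory Set

namespace Pool.Agent.X87.CM

open Pool.H232R3

/-- the comparison function -/
noncomputable def bb (A : ℝ) (t : ℝ) : ℝ := t ^ (-(1 / 2) : ℝ) * (Real.log t + 1) ^ A

theorem bb_nonneg (A : ℝ) {t : ℝ} (ht : 1 ≤ t) : 0 ≤ bb A t :=
  mul_nonneg (by positivity) (Real.rpow_nonneg (by have := Real.log_nonneg ht; linarith) _)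

theorem bb_mono {A : ℝ} (hA : 0 ≤ A) (t u : ℝ) (ht : 1 ≤ t) (htu : t ≤ u) (v : ℝ) (hv : 0 < v)
    (h : u / v ≤ t) : bb A t ≤ v ^ (1 / 2 : ℝ) * bb A u := by
  have hu0 : 0 < u := by linarith
  have h1 : t ^ (-(1 / 2) : ℝ) ≤ v ^ (1 / 2 : ℝ) * u ^ (-(1 / 2) : ℝ) := by
    have h3 : t ^ (-(1 / 2) : ℝ) ≤ (u / v) ^ (-(1 / 2) : ℝ) :=
      Real.rpow_le_rpow_of_nonpos (by positivity) h (by norm_num)
    have h4 : (u / v) ^ (-(1 / 2) : ℝ) = v ^ (1 / 2 : ℝ) * u ^ (-(1 / 2) : ℝ) := by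
      rw [Real.div_rpow hu0.le hv.le, Real.rpow_neg hv.le, div_inv_eq_mul, mul_comm]
    rwa [h4] at h3
  have hl : 0 ≤ Real.log t := Real.log_nonneg ht
  have h5 : (Real.log t + 1) ^ A ≤ (Real.log u + 1) ^ A := by
    refine Real.rpow_le_rpow (by linarith) ?_ hA
    have := Real.log_le_log (by linarith) htu
    linarith
  have h6 : 0 ≤ (Real.log t + 1) ^ A := Real.rpow_nonneg (by linarith) _
  unfold bb
  calc t ^ (-(1 / 2) : ℝ) * (Real.log t + 1) ^ A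
      ≤ (v ^ (1 / 2 : ℝ) * u ^ (-(1 / 2) : ℝ)) * (Real.log u + 1) ^ A := by gcongr
    _ = _ := by ring

theorem four_half : (4 : ℝ) ^ (1 / 2 : ℝ) = 2 := by
  rw [← Real.sqrt_eq_rpow, show (4 : ℝ) = 2 ^ 2 by norm_num]
  exact Real.sqrt_sq (by norm_num)

theorem bb_floor {A : ℝ} (hA : 0 ≤ A) (t : ℝ) (ht : 1 ≤ t) : bb A ⌊t⌋₊ ≤ 2 * bb A t := by
  have hf : 1 ≤ ⌊t⌋₊ := by rwa [Nat.one_le_floor_iff]
  have hf1 : (1 : ℝ) ≤ ⌊t⌋₊ := by exact_mod_cast hf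
  have := bb_mono hA ⌊t⌋₊ t hf1 (Nat.floor_le (by linarith)) 4 (by norm_num) (by
    have := Nat.lt_floor_add_one t
    linarith)
  rwa [four_half] at this

theorem bb_div {A : ℝ} (hA : 0 ≤ A) (N d : ℕ) (hd : 0 < d) (hdN : d ≤ N) :
    bb A ((N / d : ℕ) : ℝ) ≤ 2 * Real.sqrt d * bb A N := by
  have hq : 1 ≤ N / d := Nat.div_pos hdN hd
  have hq1 : (1 : ℝ) ≤ ((N / d : ℕ) : ℝ) := by exact_mod_cast hq
  have hd0 : (0 : ℝ) < d := by exact_mod_cast hd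
  have h3 : N ≤ 4 * (d * (N / d)) := by
    have := Nat.div_add_mod N d
    have h3 := Nat.mod_lt N hd
    have h4 : d * 1 ≤ d * (N / d) := Nat.mul_le_mul_left d hq
    omega
  have := bb_mono hA ((N / d : ℕ) : ℝ) N hq1 (by exact_mod_cast Nat.div_le_self N d) (4 * d)
    (by positivity) (by
      rw [div_le_iff₀ (by positivity)]
      have : (N : ℝ) ≤ 4 * (d * ((N / d : ℕ) : ℝ)) := by exact_mod_cast h3
      linarith)
  rwa [Real.mul_rpow (by norm_num) hd0.le, four_half, ← Real.sqrt_eq_rpow] at this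

/-- the partial sums are at most `ε N ^ (-1/2) (log N + 1) ^ A + C N ^ (-1/2)` -/
def LC (g : ℕ → ℂ) (A ε C : ℝ) : Prop :=
  ∀ N : ℕ, 1 ≤ N → ‖SS g N‖ ≤ ε * bb A N + C * bb 0 N

theorem bb_zero_le {A : ℝ} (hA : 0 ≤ A) {t : ℝ} (ht : 1 ≤ t) : bb 0 t ≤ bb A t := by
  unfold bb
  have hl : 0 ≤ Real.log t := Real.log_nonneg ht
  rw [Real.rpow_zero]
  have h2 : (1 : ℝ) ≤ (Real.log t + 1) ^ A := Real.one_le_rpow (by linarith) hA
  gcongr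

theorem LB_of_LC {g : ℕ → ℂ} {A ε C : ℝ} (hA : 0 ≤ A) (hC : 0 ≤ C) (h : LC g A ε C) :
    LB g A (ε + C) := by
  intro N hN
  have h1 := h N hN
  have h2 := bb_zero_le hA (show (1 : ℝ) ≤ N by exact_mod_cast hN)
  have h3 : C * bb 0 N ≤ C * bb A N := by gcongr
  show _ ≤ (ε + C) * bb A N
  linarith

theorem LC_quo (f g : ArithmeticFunction ℂ) (h1 : f 1 = 1)
    (hf : ∀ m n, f (m * n) = f m * f n) (g1 : g 1 = 1) (hg : ∀ m n, g (m * n) = g m * g n)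
    (hlt : ∀ p : ℕ, p.Prime → ‖g p‖ * Real.sqrt p < 1)
    (hS : Summable fun p : ℕ => if p.Prime then
      ‖g p - f p‖ * Real.sqrt p / (1 - ‖g p‖ * Real.sqrt p) else 0) :
    ∃ S : ℝ, 0 ≤ S ∧ ∀ A ε C : ℝ, 0 ≤ A → 0 ≤ ε → 0 ≤ C → LC (fun n => f n) A ε C →
      LC (fun n => g n) A (ε * S) (C * S) := by
  have hsum := quo_summable f g h1 hf g1 hg hlt hS
  refine ⟨2 * ∑' d : ℕ, ‖quo f g d‖ * Real.sqrt d, ?_, fun A ε C hA hε hC hL N hN => ?_⟩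
  · have : 0 ≤ ∑' d : ℕ, ‖quo f g d‖ * Real.sqrt d := tsum_nonneg fun d => by positivity
    positivity
  have hN1 : (1 : ℝ) ≤ N := by exact_mod_cast hN
  have hbA := bb_nonneg A hN1
  have hb0 := bb_nonneg 0 hN1
  have hterm : ∀ d ∈ Finset.Ioc 0 N, ‖quo f g d * SS (fun n => f n) (N / d)‖
      ≤ (2 * (ε * bb A N + C * bb 0 N)) * (‖quo f g d‖ * Real.sqrt d) := by
    intro d hd
    rw [Finset.mem_Ioc] at hd
    have hq : 1 ≤ N / d := Nat.div_pos hd.2 hd.1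
    have h2 := hL (N / d) hq
    have h3 := bb_div hA N d hd.1 hd.2
    have h4 := bb_div le_rfl N d hd.1 hd.2
    rw [norm_mul]
    calc ‖quo f g d‖ * ‖SS (fun n => f n) (N / d)‖
        ≤ ‖quo f g d‖ * (ε * (2 * Real.sqrt d * bb A N) + C * (2 * Real.sqrt d * bb 0 N)) := by
          refine mul_le_mul_of_nonneg_left (h2.trans ?_) (norm_nonneg _)
          gcongr
      _ = _ := by ring
  rw [SS_quo f g h1 hf N]
  refine (norm_sum_le _ _).trans ((Finset.sum_le_sum hterm).trans ?_)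
  rw [← Finset.mul_sum]
  have h12 : ∑ d ∈ Finset.Ioc 0 N, ‖quo f g d‖ * Real.sqrt d
      ≤ ∑' d : ℕ, ‖quo f g d‖ * Real.sqrt d :=
    hsum.sum_le_tsum _ fun d _ => by positivity
  calc 2 * (ε * bb A N + C * bb 0 N) * ∑ d ∈ Finset.Ioc 0 N, ‖quo f g d‖ * Real.sqrt d
      ≤ 2 * (ε * bb A N + C * bb 0 N) * ∑' d : ℕ, ‖quo f g d‖ * Real.sqrt d := by gcongr
    _ = _ := by ring

theorem Phi_bound_gen {g : ℕ → ℂ} (D h : ℝ) (hh : 0 < h)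
    (hb : ∀ t : ℝ, 1 ≤ t → ‖SS g ⌊t⌋₊‖ ≤ D * t ^ (-(1 / 2 - h / 2) : ℝ)) :
    ‖Phi g ((h - 1 / 2 : ℝ) : ℂ)‖ ≤ D * (2 / h) := by
  rw [Phi_eq_integral]
  have hint : IntegrableOn (fun t : ℝ => D * t ^ (-1 - h / 2 : ℝ)) (Ioi 1) :=
    (integrableOn_Ioi_rpow_of_lt (by linarith) one_pos).const_mul _
  have hle : ‖∫ t in Ioi (1 : ℝ), SS g ⌊t⌋₊ * (t : ℂ) ^ (-(((h - 1 / 2 : ℝ) : ℂ) + 1))‖
      ≤ ∫ t in Ioi (1 : ℝ), D * t ^ (-1 - h / 2 : ℝ) := by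
    refine norm_integral_le_of_norm_le hint ?_
    rw [ae_restrict_iff' measurableSet_Ioi]
    refine Eventually.of_forall fun t ht => ?_
    have ht1 : (1 : ℝ) < t := ht
    have ht0 : 0 < t := by linarith
    rw [norm_mul, Complex.norm_cpow_eq_rpow_re_of_pos ht0]
    have hre : (-(((h - 1 / 2 : ℝ) : ℂ) + 1)).re = -(h + 1 / 2) := by
      rw [Complex.neg_re, Complex.add_re, Complex.ofReal_re, Complex.one_re]; ring
    rw [hre]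
    have h1 := hb t ht1.le
    have h2 : t ^ (-1 - h / 2 : ℝ) = t ^ (-(1 / 2 - h / 2) : ℝ) * t ^ (-(h + 1 / 2) : ℝ) := by
      rw [← Real.rpow_add ht0]
      congr 1
      ring
    rw [h2, ← mul_assoc]
    gcongr
  refine hle.trans (le_of_eq ?_)
  rw [integral_const_mul, integral_Ioi_rpow_of_lt (by linarith) one_pos, Real.one_rpow]
  have e : -1 - h / 2 + 1 = -(h / 2) := by ring
  rw [e, neg_div_neg_eq, one_div_div]

theorem LC_floor {g : ℕ → ℂ} {A ε C : ℝ} (hA : 0 ≤ A) (hε : 0 ≤ ε) (hC : 0 ≤ C)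
    (hL : LC g A ε C) (h : ℝ) (hh : 0 < h) (hh1 : h ≤ 1) (t : ℝ) (ht : 1 ≤ t) :
    ‖SS g ⌊t⌋₊‖ ≤ (ε * K0 A 1 * h ^ (-A) + 2 * C) * t ^ (-(1 / 2 - h / 2) : ℝ) := by
  have ht0 : 0 < t := by linarith
  have hf : 1 ≤ ⌊t⌋₊ := by rwa [Nat.one_le_floor_iff]
  have h1 := hL _ hf
  have h2 := bb_floor hA t ht
  have h3 := bb_floor le_rfl t ht
  have h4 : t ^ (-(1 / 2 - h / 2) : ℝ) = t ^ (-(1 / 2) : ℝ) * t ^ (h / 2) := by
    rw [← Real.rpow_add ht0]; congr 1; ring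
  have h5 : 2 * bb A t ≤ K0 A 1 * h ^ (-A) * t ^ (-(1 / 2 - h / 2) : ℝ) := by
    have h6 := log_pow_le hA h hh hh1 t ht
    rw [h4]
    unfold K0 bb
    calc 2 * (t ^ (-(1 / 2) : ℝ) * (Real.log t + 1) ^ A)
        ≤ 2 * (t ^ (-(1 / 2) : ℝ) *
          (((2 * (A + 1)) ^ A * Real.exp 1) * (h ^ (-A) * t ^ (h / 2)))) := by gcongr
      _ = _ := by ring
  have h7 : bb 0 t ≤ t ^ (-(1 / 2 - h / 2) : ℝ) := by
    unfold bb
    rw [Real.rpow_zero, mul_one, h4]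
    have h8 : (1 : ℝ) ≤ t ^ (h / 2) := Real.one_le_rpow ht (by linarith)
    have h9 : 0 ≤ t ^ (-(1 / 2) : ℝ) := by positivity
    nlinarith
  calc ‖SS g ⌊t⌋₊‖ ≤ ε * bb A ⌊t⌋₊ + C * bb 0 ⌊t⌋₊ := h1
    _ ≤ ε * (2 * bb A t) + C * (2 * bb 0 t) := by gcongr
    _ ≤ ε * (K0 A 1 * h ^ (-A) * t ^ (-(1 / 2 - h / 2) : ℝ)) +
        C * (2 * t ^ (-(1 / 2 - h / 2) : ℝ)) := by gcongr
    _ = _ := by ring

end Pool.Agent.X87.CM
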