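import Pool.Agent.X87.CM.Kappa

set_option autoImplicit false

/-!
# The question of Kahane and Saias for values close to `-κ / p` at the primes
-/

open Finset Filter Topology

namespace Pool.Agent.X87.CM

open Pool.H232R3

variable {κ : ℂ} {P : ℕ}

/-- two analytic functions on a half plane which agree for large real parts are equal -/
theorem ident (a : ℝ) (ha : a < 1) (F G : ℂ → ℂ) (hF : DifferentiableOn ℂ F {s | a < s.re})
    (hG : DifferentiableOn ℂ G {s | a < s.re}) (h : ∀ s : ℂ, 1 < s.re → F s = G s) (s : ℂ)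
    (hs : a < s.re) : F s = G s := by
  have h1 : IsPreconnected {s : ℂ | a < s.re} := (convex_halfSpace_re_gt a).isPreconnected
  have h2 : (2 : ℂ) ∈ {s : ℂ | a < s.re} := by
    show a < (2 : ℂ).re
    simp; linarith
  have h3 : F =ᶠ[𝓝 (2 : ℂ)] G := by
    filter_upwards [(open_re 1).mem_nhds (show (1 : ℝ) < (2 : ℂ).re by simp)] with w hw
    exact h w hw
  exact (hF.analyticOnNhd (open_re a)).eqOn_of_preconnected_of_eventuallyEq
    (hG.analyticOnNhd (open_re a)) h1 h2 h3 hs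

/-- `s ζ (s + 1)` -/
noncomputable def ZZ (s : ℂ) : ℂ := DirichletCharacter.LFunctionTrivChar₁ 1 (s + 1)

theorem ZZ_differentiable : Differentiable ℂ ZZ :=
  (DirichletCharacter.differentiable_LFunctionTrivChar₁ 1).comp
    (differentiable_id.add (differentiable_const 1))

theorem ZZ_eq (s : ℂ) (hs : s ≠ 0) : ZZ s = s * riemannZeta (s + 1) := by
  have hs1 : s + 1 ≠ 1 := by simpa using hs
  unfold ZZ
  rw [DirichletCharacter.LFunctionTrivChar₁, Function.update_of_ne hs1,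
    DirichletCharacter.LFunctionTrivChar_eq_mul_riemannZeta hs1]
  simp

/-- decay of the partial sums -/
def Dec (κ : ℂ) (P : ℕ) : Prop :=
  Tendsto (fun N : ℕ => Real.sqrt N * ‖SS (fun n => gk κ P n) N‖) atTop (𝓝 0)

theorem summable_of_dec (hd : Dec κ P) (s : ℂ) (hs : 1 < s.re) :
    LSeriesSummable (fun n => gk κ P n) s := by
  obtain ⟨C, hC0, hC⟩ := bound_of_tendsto _ hd
  have hb := norm_SS_le_const _ C hC0 hC
  refine LSeriesSummable_of_bounded_of_one_lt_re (m := 2 * C) ?_ hs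
  intro n hn
  obtain ⟨m, rfl⟩ : ∃ m, n = m + 1 := ⟨n - 1, by omega⟩
  have h2 : gk κ P (m + 1) = SS (fun n => gk κ P n) (m + 1) - SS (fun n => gk κ P n) m := by
    rw [SS_succ]; ring
  rw [h2]
  refine (norm_sub_le _ _).trans ?_
  have := hb (m + 1)
  have := hb m
  linarith

/-- the Euler product, right of the line `Re s = 0` -/
theorem stepB (hP : Large κ P) (hd : Dec κ P) (s : ℂ) (hs : 0 < s.re) :
    s * Phi (fun n => gk κ P n) s = Complex.exp (LL κ P s + κ * TT P s) := by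
  refine ident 0 one_pos (fun s => s * Phi (fun n => gk κ P n) s)
    (fun s => Complex.exp (LL κ P s + κ * TT P s)) ?_ ?_ ?_ s hs
  · intro s hs
    have hs' : 0 < s.re := hs
    exact (differentiableAt_id.mul (Phi_differentiableAt _ hd s (by linarith))).differentiableWithinAt
  · intro s hs
    have hs' : 0 < s.re := hs
    exact ((LL_differentiableAt hP s (by linarith)).add
      ((TT_differentiableAt s hs').const_mul κ)).cexp.differentiableWithinAt
  · intro s hs
    have h1 := summable_of_dec hd s hs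
    show s * Phi (fun n => gk κ P n) s = _
    rw [← Phi_LSeries _ hd s (by linarith) h1, gk_euler hP s (by linarith) h1]

/-- the Euler product for natural `κ`, right of the line `Re s = -1 / 2` -/
theorem stepC {k : ℕ} (hP : Large (k : ℂ) P) (hd : Dec (k : ℂ) P) (s : ℂ) (hs : -(1 / 2) < s.re) :
    s * Phi (fun n => gk (k : ℂ) P n) s * (ZZ s * QQ P s) ^ k
      = s ^ k * Complex.exp (LL (k : ℂ) P s) := by
  refine ident (-(1 / 2)) (by norm_num)
    (fun s => s * Phi (fun n => gk (k : ℂ) P n) s * (ZZ s * QQ P s) ^ k)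
    (fun s => s ^ k * Complex.exp (LL (k : ℂ) P s)) ?_ ?_ ?_ s hs
  · intro s hs
    exact ((differentiableAt_id.mul (Phi_differentiableAt _ hd s hs)).mul
      (((ZZ_differentiable s).mul (QQ_differentiable s)).pow k)).differentiableWithinAt
  · intro s hs
    exact ((differentiableAt_id.pow k).mul
      (LL_differentiableAt hP s hs).cexp).differentiableWithinAt
  · intro s hs
    have s0 : s ≠ 0 := by rintro rfl; simp at hs; linarith
    show s * Phi (fun n => gk (k : ℂ) P n) s * (ZZ s * QQ P s) ^ k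
      = s ^ k * Complex.exp (LL (k : ℂ) P s)
    rw [stepB hP hd s (by linarith), ZZ_eq s s0, Complex.exp_add, Complex.exp_nat_mul]
    have h1 := zeta_id (P := P) s (by linarith)
    calc Complex.exp (LL (k : ℂ) P s) * Complex.exp (TT P s) ^ k *
          (s * riemannZeta (s + 1) * QQ P s) ^ k
        = s ^ k * Complex.exp (LL (k : ℂ) P s) *
          (riemannZeta (s + 1) * Complex.exp (TT P s) * QQ P s) ^ k := by
          simp only [mul_pow]; ring
      _ = _ := by rw [h1, one_pow, mul_one]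

theorem zz_real (x : ℝ) (p : Nat.Primes) : zz (x : ℂ) p = (((p : ℝ) ^ (-(1 + x)) : ℝ) : ℂ) := by
  have hp0 : (0 : ℝ) ≤ p := Nat.cast_nonneg _
  unfold zz
  rw [Complex.ofReal_cpow hp0]
  push_cast
  rfl

/-- the contribution of the small primes -/
noncomputable def ee (P : ℕ) (p : Nat.Primes) : ℝ :=
  if P ≤ (p : ℕ) then 0 else -Real.log (1 - 1 / (p : ℝ))

theorem local_real {k : ℕ} (hk : k ≠ 0) (x : ℝ) (hx : -(1 / 2) < x)
    (p : Nat.Primes) :
    0 ≤ (ell (k : ℂ) P (x : ℂ) p).re ∧ 0 ≤ ee P p ∧ 0 ≤ -Real.log (1 - (p : ℝ) ^ (-(2 + 2 * x))) ∧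
    -Real.log (1 - (p : ℝ) ^ (-(2 + 2 * x))) ≤ (ell (k : ℂ) P (x : ℂ) p).re + ee P p := by
  have hp1 : (1 : ℝ) < p := by exact_mod_cast p.2.one_lt
  have hp0 : (0 : ℝ) < p := by linarith
  have hp2 : (2 : ℝ) ≤ p := by exact_mod_cast p.2.two_le
  set t : ℝ := (p : ℝ) ^ (-(1 + x)) with ht
  have ht0 : 0 < t := by positivity
  have ht1 : t < 1 := Real.rpow_lt_one_of_one_lt_of_neg hp1 (by linarith)
  have e1 : (p : ℝ) ^ (-(2 + 2 * x)) = t * t := by
    rw [ht, ← Real.rpow_add hp0]; congr 1; ring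
  have htt : t * t < 1 := by nlinarith
  have hpos : 0 < 1 - t * t := by linarith
  have hb : 0 ≤ -Real.log (1 - (p : ℝ) ^ (-(2 + 2 * x))) := by
    rw [e1, neg_nonneg]
    exact Real.log_nonpos hpos.le (by nlinarith)
  have he0 : 0 ≤ ee P p := by
    unfold ee
    split_ifs
    · exact le_rfl
    · rw [neg_nonneg]
      have h1 : 1 / (p : ℝ) ≤ 1 := by rw [div_le_one hp0]; linarith
      exact Real.log_nonpos (by linarith) (by have : 0 ≤ 1 / (p : ℝ) := by positivity
                                              linarith)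
  by_cases hp : P ≤ (p : ℕ)
  · have hre : (ell (k : ℂ) P (x : ℂ) p).re = -Real.log (1 + k * t) - k * Real.log (1 - t) := by
      unfold ell
      rw [if_pos hp, zz_real, ← ht]
      have a1 : (1 : ℂ) + (k : ℂ) * (t : ℂ) = ((1 + k * t : ℝ) : ℂ) := by push_cast; ring
      have a2 : (1 : ℂ) - (t : ℂ) = ((1 - t : ℝ) : ℂ) := by push_cast; ring
      rw [a1, a2, ← Complex.ofReal_log (by positivity), ← Complex.ofReal_log (by linarith)]
      have a3 : -((Real.log (1 + k * t) : ℝ) : ℂ) - (k : ℂ) * ((Real.log (1 - t) : ℝ) : ℂ)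
          = ((-Real.log (1 + k * t) - k * Real.log (1 - t) : ℝ) : ℂ) := by push_cast; ring
      rw [a3, Complex.ofReal_re]
    have hk1 : (1 + (k : ℝ) * t) * (1 - t) ^ k ≤ 1 - t * t := by
      have b1 : 1 + (k : ℝ) * t ≤ (1 + t) ^ k := one_add_mul_le_pow (by linarith) k
      calc (1 + (k : ℝ) * t) * (1 - t) ^ k ≤ (1 + t) ^ k * (1 - t) ^ k := by
            have : 0 ≤ (1 - t) ^ k := pow_nonneg (by linarith) k
            gcongr
        _ = (1 - t * t) ^ k := by rw [← mul_pow]; congr 1; ring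
        _ ≤ 1 - t * t := pow_le_of_le_one hpos.le (by nlinarith) hk
    have hlog : Real.log (1 + k * t) + k * Real.log (1 - t) ≤ Real.log (1 - t * t) := by
      have c1 : 0 < 1 + (k : ℝ) * t := by positivity
      have c2 : 0 < (1 - t) ^ k := pow_pos (by linarith) k
      rw [← Real.log_pow, ← Real.log_mul c1.ne' c2.ne']
      exact Real.log_le_log (mul_pos c1 c2) hk1
    have hneg : Real.log (1 - t * t) ≤ 0 := by
      rw [e1] at hb; linarith
    refine ⟨by rw [hre]; linarith, he0, hb, ?_⟩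
    rw [hre, e1]
    linarith
  · have hre : ell (k : ℂ) P (x : ℂ) p = 0 := by unfold ell; rw [if_neg hp]
    have hee : ee P p = -Real.log (1 - 1 / (p : ℝ)) := by unfold ee; rw [if_neg hp]
    refine ⟨by rw [hre]; simp, he0, hb, ?_⟩
    rw [hre, hee, Complex.zero_re, zero_add, e1]
    have h2 : t * t ≤ 1 / (p : ℝ) := by
      rw [← e1, one_div, ← Real.rpow_neg_one]
      exact Real.rpow_le_rpow_of_exponent_le hp1.le (by linarith)
    have h3 : 0 < 1 - 1 / (p : ℝ) := by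
      have : 1 / (p : ℝ) ≤ 1 / 2 := by gcongr
      linarith
    have := Real.log_le_log h3 (by linarith : 1 - 1 / (p : ℝ) ≤ 1 - t * t)
    linarith

theorem ee_summable : Summable (ee P) := by
  refine summable_of_ne_finset_zero (s := Ps P) fun p hp => ?_
  rw [mem_Ps, not_lt] at hp
  unfold ee
  rw [if_pos hp]

theorem LL_lower {k : ℕ} (hk : k ≠ 0) (hP : Large (k : ℂ) P) (x : ℝ) (hx : -(1 / 2) < x) (N : ℕ) :
    ∑ n ∈ Finset.range N, 1 / (n : ℝ) ^ (2 + 2 * x)
      ≤ Real.exp (∑' p, ee P p) * ‖Complex.exp (LL (k : ℂ) P (x : ℂ))‖ := by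
  have h1 := sum_le_prod (2 + 2 * x) (by linarith) N
  refine h1.trans ?_
  have hsum : Summable (ell (k : ℂ) P (x : ℂ)) := ell_summable hP _ (by simpa using hx)
  have hre : (LL (k : ℂ) P (x : ℂ)).re = ∑' p, (ell (k : ℂ) P (x : ℂ) p).re :=
    Complex.re_tsum hsum
  have hres : Summable fun p => (ell (k : ℂ) P (x : ℂ) p).re := by
    have := Complex.reCLM.summable hsum
    simpa using this
  rw [Complex.norm_exp, hre, ← Real.exp_add, add_comm (∑' p, ee P p), ← hres.tsum_add ee_summable]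
  have h2 : ∏ p ∈ N.primesBelow, (1 - (p : ℝ) ^ (-(2 + 2 * x)))⁻¹
      = ∏ p ∈ Ps N, (1 - ((p : ℕ) : ℝ) ^ (-(2 + 2 * x)))⁻¹ :=
    (Finset.prod_subtype_eq_prod_filter (s := Finset.range N) (p := Nat.Prime)
      (fun p : ℕ => (1 - (p : ℝ) ^ (-(2 + 2 * x)))⁻¹)).symm
  have h3 : ∏ p ∈ Ps N, (1 - ((p : ℕ) : ℝ) ^ (-(2 + 2 * x)))⁻¹
      = Real.exp (∑ p ∈ Ps N, -Real.log (1 - ((p : ℕ) : ℝ) ^ (-(2 + 2 * x)))) := by
    rw [Real.exp_sum]
    refine Finset.prod_congr rfl fun p _ => ?_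
    have hp1 : (1 : ℝ) < (p : ℕ) := by exact_mod_cast p.2.one_lt
    have : (p : ℝ) ^ (-(2 + 2 * x)) < 1 := Real.rpow_lt_one_of_one_lt_of_neg hp1 (by linarith)
    rw [Real.exp_neg, Real.exp_log (by linarith)]
  rw [h2, h3]
  refine Real.exp_le_exp.2 ?_
  refine (Finset.sum_le_sum fun p _ => (local_real (P := P) hk x hx p).2.2.2).trans ?_
  exact (hres.add ee_summable).sum_le_tsum _ fun p _ =>
    add_nonneg (local_real (P := P) hk x hx p).1 (local_real (P := P) hk x hx p).2.1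

/-- no decay for natural `κ` -/
theorem core_nat (k : ℕ) (hP : Large (k : ℂ) P) (hd : Dec (k : ℂ) P) : False := by
  rcases Nat.eq_zero_or_pos k with h0 | hk
  · subst h0
    have h1 := stepC hP hd 0 (by norm_num)
    simp only [zero_mul, pow_zero, one_mul] at h1
    exact Complex.exp_ne_zero _ h1.symm
  have hk0 : k ≠ 0 := hk.ne'
  set E : ℝ := Real.exp (∑' p, ee P p) with hE
  have hE0 : 0 < E := Real.exp_pos _
  have hz : ∀ x : ℝ, -(1 / 2) < x →
      ∑' n : ℕ, 1 / (n : ℝ) ^ (2 + 2 * x) ≤ E * ‖Complex.exp (LL (k : ℂ) P (x : ℂ))‖ := by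
    intro x hx
    exact Real.tsum_le_of_sum_range_le (fun n => by positivity) fun N => LL_lower hk0 hP x hx N
  have hlim := tendsto_sub_mul_tsum_nat_rpow
  have hev : ∀ᶠ q in 𝓝[>] (1 : ℝ), 1 / 2 < (q - 1) * ∑' n : ℕ, 1 / (n : ℝ) ^ q :=
    (tendsto_order.mp hlim).1 _ (by norm_num)
  rw [eventually_nhdsWithin_iff, Metric.eventually_nhds_iff] at hev
  obtain ⟨δ, hδ, hev⟩ := hev
  obtain ⟨K, hK⟩ : ∃ K : ℝ, ∀ s ∈ Metric.closedBall (0 : ℂ) 1, ‖ZZ s * QQ P s‖ ≤ K :=
    (isCompact_closedBall (0 : ℂ) 1).exists_bound_of_continuousOn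
      (ZZ_differentiable.continuous.mul QQ_differentiable.continuous).continuousOn
  have hK0 : 0 ≤ K := (norm_nonneg _).trans (hK 0 (by simp))
  set A : ℝ := 2 * E * (4 ^ k * K ^ k) with hA
  have hA0 : 0 ≤ A := by positivity
  set ε : ℝ := 1 / (8 * (A + 1)) with hε
  have hε0 : 0 < ε := by positivity
  obtain ⟨B, hB0, hB⟩ := Phi_small _ hd ε hε0
  set h : ℝ := min (min (δ / 4) (1 / 4)) (1 / (8 * (A + 1) * (B + 1))) with hh
  have hh0 : 0 < h := by
    rw [hh]
    refine lt_min (lt_min (by positivity) (by norm_num)) (by positivity)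
  have hh1 : h ≤ δ / 4 := (min_le_left _ _).trans (min_le_left _ _)
  have hh2 : h ≤ 1 / 4 := (min_le_left _ _).trans (min_le_right _ _)
  have hh3 : h ≤ 1 / (8 * (A + 1) * (B + 1)) := min_le_right _ _
  set x : ℝ := h - 1 / 2 with hx
  have hx1 : -(1 / 2) < x := by rw [hx]; linarith
  have hq := hev (y := 2 + 2 * x) (by
    rw [Real.dist_eq, hx]
    have : 2 + 2 * (h - 1 / 2) - 1 = 2 * h := by ring
    rw [this, abs_of_nonneg (by linarith)]
    linarith) (by show (1 : ℝ) < 2 + 2 * x; rw [hx]; linarith)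
  have hq1 : 2 + 2 * x - 1 = 2 * h := by rw [hx]; ring
  rw [hq1] at hq
  have hzx := hz x hx1
  have hC := stepC hP hd (x : ℂ) (by simpa using hx1)
  have hCn : ‖(x : ℂ)‖ * ‖Phi (fun n => gk (k : ℂ) P n) x‖ * ‖ZZ x * QQ P x‖ ^ k
      = ‖(x : ℂ)‖ ^ k * ‖Complex.exp (LL (k : ℂ) P (x : ℂ))‖ := by
    have := congrArg norm hC
    simpa only [norm_mul, norm_pow] using this
  have hxn : ‖(x : ℂ)‖ = 1 / 2 - h := by
    rw [Complex.norm_real, Real.norm_eq_abs, abs_of_nonpos (by rw [hx]; linarith), hx]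
    ring
  have hZQ : ‖ZZ x * QQ P x‖ ≤ K := hK x (by
    rw [mem_closedBall_zero_iff, hxn]
    linarith)
  have hPhi := hB x hx1
  have hxh : x + 1 / 2 = h := by rw [hx]; ring
  rw [hxh] at hPhi
  have hBe : 0 ≤ B + ε / h := by positivity
  have hup : ‖Complex.exp (LL (k : ℂ) P (x : ℂ))‖ ≤ 4 ^ k * K ^ k * (B + ε / h) := by
    have h1 : ‖(x : ℂ)‖ ^ k * ‖Complex.exp (LL (k : ℂ) P (x : ℂ))‖ ≤ (B + ε / h) * K ^ k := by
      rw [← hCn]
      have h2 : ‖(x : ℂ)‖ ≤ 1 := by rw [hxn]; linarith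
      calc ‖(x : ℂ)‖ * ‖Phi (fun n => gk (k : ℂ) P n) x‖ * ‖ZZ x * QQ P x‖ ^ k
          ≤ 1 * (B + ε / h) * K ^ k := by gcongr
        _ = _ := by ring
    have h3 : (1 / 4 : ℝ) ^ k ≤ ‖(x : ℂ)‖ ^ k := by
      gcongr
      rw [hxn]; linarith
    have h4 : (1 / 4 : ℝ) ^ k * ‖Complex.exp (LL (k : ℂ) P (x : ℂ))‖ ≤ (B + ε / h) * K ^ k :=
      le_trans (by gcongr) h1
    have h5 : (4 : ℝ) ^ k * (1 / 4 : ℝ) ^ k = 1 := by rw [← mul_pow]; norm_num
    calc ‖Complex.exp (LL (k : ℂ) P (x : ℂ))‖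
        = 4 ^ k * ((1 / 4 : ℝ) ^ k * ‖Complex.exp (LL (k : ℂ) P (x : ℂ))‖) := by
          rw [← mul_assoc, h5, one_mul]
      _ ≤ 4 ^ k * ((B + ε / h) * K ^ k) := by gcongr
      _ = _ := by ring
  have hfin : 1 / 2 < 2 * h * (E * (4 ^ k * K ^ k * (B + ε / h))) := by
    refine hq.trans_le ?_
    have h1 := hzx.trans (mul_le_mul_of_nonneg_left hup hE0.le)
    gcongr
  have e8 : 2 * h * (E * (4 ^ k * K ^ k * (B + ε / h))) = A * (h * B) + A * ε := by
    rw [hA]
    field_simp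
  rw [e8] at hfin
  have e9 : A * ε ≤ 1 / 8 := by
    rw [hε, mul_one_div, div_le_div_iff₀ (by positivity) (by norm_num)]
    linarith
  have e10 : A * (h * B) ≤ 1 / 8 := by
    have : h * B ≤ 1 / (8 * (A + 1)) := by
      calc h * B ≤ 1 / (8 * (A + 1) * (B + 1)) * B := by gcongr
        _ ≤ 1 / (8 * (A + 1) * (B + 1)) * (B + 1) := by gcongr; linarith
        _ = 1 / (8 * (A + 1)) := by field_simp
    calc A * (h * B) ≤ A * (1 / (8 * (A + 1))) := by gcongr
      _ ≤ 1 / 8 := e9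
  linarith

end Pool.Agent.X87.CM
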