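import Pool.Agent.X87.CM.Main

set_option autoImplicit false

/-!
# The remaining values of `κ`, and functions close to `-κ / p`
-/

open Finset Filter Topology

namespace Pool.Agent.X87.CM

open Pool.H232R3

variable {κ : ℂ} {P : ℕ}

theorem TT_real (x : ℝ) (hx : 0 < x) : ∃ τ : ℝ, TT P (x : ℂ) = (τ : ℂ) := by
  have h : ∀ p : Nat.Primes, tt P (x : ℂ) p
      = ((if P ≤ (p : ℕ) then Real.log (1 - (p : ℝ) ^ (-(1 + x))) else 0 : ℝ) : ℂ) := by
    intro p
    have hp1 : (1 : ℝ) < p := by exact_mod_cast p.2.one_lt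
    have ht1 : (p : ℝ) ^ (-(1 + x)) < 1 := Real.rpow_lt_one_of_one_lt_of_neg hp1 (by linarith)
    unfold tt
    split_ifs
    · rw [zz_real]
      have a2 : (1 : ℂ) - (((p : ℝ) ^ (-(1 + x)) : ℝ) : ℂ)
          = ((1 - (p : ℝ) ^ (-(1 + x)) : ℝ) : ℂ) := by push_cast; ring
      rw [a2, ← Complex.ofReal_log (by linarith)]
    · simp
  refine ⟨∑' p : Nat.Primes, if P ≤ (p : ℕ) then Real.log (1 - (p : ℝ) ^ (-(1 + x))) else 0, ?_⟩
  unfold TT
  rw [tsum_congr h, Complex.ofReal_tsum]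

theorem ZZ_zero_ne : ZZ 0 ≠ 0 := by
  unfold ZZ
  rw [zero_add]
  exact DirichletCharacter.LFunctionTrivChar₁_apply_one_ne_zero 1

/-- the behaviour of the Euler product at zero -/
theorem near_zero (hP : Large κ P) (hd : Dec κ P) (x : ℝ) (hx : 0 < x) :
    (x : ℂ) * Phi (fun n => gk κ P n) x
      = Complex.exp (LL κ P x - κ * (Real.log ‖ZZ x‖ + Real.log ‖QQ P x‖ : ℝ)) *
        Complex.exp (κ * (Real.log x : ℝ)) := by
  obtain ⟨τ, hτ⟩ := TT_real (P := P) x hx
  have h1 := zeta_id (P := P) (x : ℂ) (by simpa using hx)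
  have hx0 : (x : ℂ) ≠ 0 := by exact_mod_cast hx.ne'
  have h2 := congrArg norm h1
  rw [hτ, norm_mul, norm_mul, Complex.norm_exp, Complex.ofReal_re, norm_one] at h2
  have hq : 0 < ‖QQ P (x : ℂ)‖ := norm_pos_iff.2 (QQ_ne _ (by simp; linarith))
  have hz : 0 < ‖riemannZeta ((x : ℂ) + 1)‖ := by
    rw [norm_pos_iff]
    intro h
    rw [h] at h1
    simp at h1
  have h3 : ‖ZZ (x : ℂ)‖ = x * ‖riemannZeta ((x : ℂ) + 1)‖ := by
    rw [ZZ_eq _ hx0, norm_mul, Complex.norm_real, Real.norm_eq_abs, abs_of_pos hx]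
  have h4 : Real.log ‖riemannZeta ((x : ℂ) + 1)‖ + τ + Real.log ‖QQ P (x : ℂ)‖ = 0 := by
    have := congrArg Real.log h2
    rw [Real.log_mul (by positivity) hq.ne', Real.log_mul hz.ne' (Real.exp_pos _).ne',
      Real.log_exp, Real.log_one] at this
    exact this
  have h5 : Real.log ‖ZZ (x : ℂ)‖ = Real.log x + Real.log ‖riemannZeta ((x : ℂ) + 1)‖ := by
    rw [h3, Real.log_mul hx.ne' hz.ne']
  have h6 : τ = Real.log x - (Real.log ‖ZZ (x : ℂ)‖ + Real.log ‖QQ P (x : ℂ)‖) := by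
    rw [h5]; linarith
  rw [stepB hP hd _ (by simpa using hx), hτ, h6, ← Complex.exp_add]
  congr 1
  push_cast
  ring

theorem core_other (hκ : ∀ k : ℕ, κ ≠ k) (hP : Large κ P) (hd : Dec κ P) : False := by
  set F : ℂ → ℂ := fun s => s * Phi (fun n => gk κ P n) s with hF
  have hFd : DifferentiableOn ℂ F {s | -(1 / 2) < s.re} := fun s hs =>
    (differentiableAt_id.mul (Phi_differentiableAt _ hd s hs)).differentiableWithinAt
  have hFa : AnalyticAt ℂ F 0 := hFd.analyticOnNhd (open_re _) 0 (by simp)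
  set V : ℝ → ℂ := fun x =>
    Complex.exp (LL κ P x - κ * (Real.log ‖ZZ x‖ + Real.log ‖QQ P x‖ : ℝ)) with hV
  have hFV : ∀ x : ℝ, 0 < x → F x = V x * Complex.exp (κ * (Real.log x : ℝ)) := fun x hx =>
    near_zero hP hd x hx
  have hV0 : Tendsto V (𝓝[>] 0) (𝓝 (V 0)) := by
    have hc : ContinuousAt V 0 := by
      have c0 : ContinuousAt (fun x : ℝ => (x : ℂ)) 0 := Complex.continuous_ofReal.continuousAt
      have c1 : ContinuousAt (fun x : ℝ => LL κ P (x : ℂ)) 0 :=
        ContinuousAt.comp (f := fun x : ℝ => (x : ℂ)) (g := LL κ P)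
          ((LL_differentiableAt hP _ (by simp)).continuousAt) c0
      have c2 : ContinuousAt (fun x : ℝ => Real.log ‖ZZ (x : ℂ)‖) 0 := by
        have : ContinuousAt (fun x : ℝ => ‖ZZ (x : ℂ)‖) 0 :=
          (ZZ_differentiable.continuous.comp Complex.continuous_ofReal).norm.continuousAt
        refine this.log ?_
        simpa using ZZ_zero_ne
      have c3 : ContinuousAt (fun x : ℝ => Real.log ‖QQ P (x : ℂ)‖) 0 := by
        have : ContinuousAt (fun x : ℝ => ‖QQ P (x : ℂ)‖) 0 :=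
          (QQ_differentiable.continuous.comp Complex.continuous_ofReal).norm.continuousAt
        refine this.log ?_
        simpa using QQ_ne (P := P) 0 (by simp)
      have c4 : ContinuousAt (fun x : ℝ => ((Real.log ‖ZZ (x : ℂ)‖ + Real.log ‖QQ P (x : ℂ)‖ : ℝ) : ℂ))
          0 := Complex.continuous_ofReal.continuousAt.comp (c2.add c3)
      exact (c1.sub (continuousAt_const.mul c4)).cexp
    exact hc.tendsto.mono_left nhdsWithin_le_nhds
  have hpos : ∀ᶠ x : ℝ in 𝓝[>] 0, 0 < x := self_mem_nhdsWithin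
  have hof : Tendsto (fun x : ℝ => (x : ℂ)) (𝓝[>] 0) (𝓝 0) := by
    have : Tendsto (fun x : ℝ => (x : ℂ)) (𝓝 0) (𝓝 ((0 : ℝ) : ℂ)) :=
      Complex.continuous_ofReal.tendsto 0
    rw [Complex.ofReal_zero] at this
    exact this.mono_left nhdsWithin_le_nhds
  have hne : ¬ ∀ᶠ z in 𝓝 (0 : ℂ), F z = 0 := by
    intro h
    obtain ⟨x, hx0, hx⟩ := ((hof.eventually h).and hpos).exists
    rw [hFV x hx] at hx0
    exact (mul_ne_zero (Complex.exp_ne_zero _) (Complex.exp_ne_zero _)) hx0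
  obtain ⟨n, G, hGa, hG0, hFG⟩ := (hFa.exists_eventuallyEq_pow_smul_nonzero_iff).2 hne
  set a : ℂ := κ - n with ha
  have ha0 : a ≠ 0 := sub_ne_zero.2 (hκ n)
  set φ : ℝ → ℂ := fun x => Complex.exp (a * (Real.log x : ℝ)) with hφ
  have hVne : ∀ x, V x ≠ 0 := fun x => Complex.exp_ne_zero _
  have hφeq : ∀ᶠ x : ℝ in 𝓝[>] 0, φ x = G x / V x := by
    filter_upwards [hof.eventually hFG, hpos] with x hx hx0
    rw [hFV x hx0, sub_zero, smul_eq_mul] at hx
    rw [eq_div_iff (hVne x)]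
    have hxn : (x : ℂ) ^ n = Complex.exp (n * (Real.log x : ℝ)) := by
      rw [Complex.exp_nat_mul, ← Complex.ofReal_exp, Real.exp_log hx0]
    have e1 : φ x * Complex.exp (n * (Real.log x : ℝ)) = Complex.exp (κ * (Real.log x : ℝ)) := by
      rw [hφ]
      show Complex.exp (a * (Real.log x : ℝ)) * _ = _
      rw [← Complex.exp_add]
      congr 1
      rw [ha]; ring
    have hn0 : Complex.exp ((n : ℂ) * (Real.log x : ℝ)) ≠ 0 := Complex.exp_ne_zero _
    apply mul_right_cancel₀ hn0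
    calc φ x * V x * Complex.exp (n * (Real.log x : ℝ))
        = V x * (φ x * Complex.exp (n * (Real.log x : ℝ))) := by ring
      _ = V x * Complex.exp (κ * (Real.log x : ℝ)) := by rw [e1]
      _ = (x : ℂ) ^ n * G x := hx
      _ = G x * Complex.exp (n * (Real.log x : ℝ)) := by rw [hxn]; ring
  set w : ℂ := G 0 / V 0 with hw
  have hw0 : w ≠ 0 := div_ne_zero hG0 (hVne 0)
  have hφw : Tendsto φ (𝓝[>] 0) (𝓝 w) := by
    have h1 : Tendsto (fun x : ℝ => G (x : ℂ)) (𝓝[>] 0) (𝓝 (G 0)) :=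
      hGa.continuousAt.tendsto.comp hof
    exact (h1.div hV0 (hVne 0)).congr' (hφeq.mono fun x hx => hx.symm)
  have key : ∀ y : ℝ, Complex.exp (a * y) = 1 := by
    intro y
    have hm : Tendsto (fun x : ℝ => Real.exp y * x) (𝓝[>] 0) (𝓝[>] 0) := by
      refine tendsto_nhdsWithin_iff.2 ⟨?_, ?_⟩
      · have : Tendsto (fun x : ℝ => Real.exp y * x) (𝓝 0) (𝓝 (Real.exp y * 0)) :=
          (continuous_const.mul continuous_id).tendsto 0
        rw [mul_zero] at this
        exact this.mono_left nhdsWithin_le_nhds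
      · filter_upwards [hpos] with x hx
        exact mul_pos (Real.exp_pos y) hx
    have h1 := hφw.comp hm
    have h2 : Tendsto (fun x => φ x * Complex.exp (a * y)) (𝓝[>] 0) (𝓝 (w * Complex.exp (a * y))) :=
      hφw.mul_const _
    have h3 : (φ ∘ fun x : ℝ => Real.exp y * x) =ᶠ[𝓝[>] 0] fun x => φ x * Complex.exp (a * y) := by
      filter_upwards [hpos] with x hx
      show Complex.exp (a * (Real.log (Real.exp y * x) : ℝ))
        = Complex.exp (a * (Real.log x : ℝ)) * Complex.exp (a * y)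
      rw [Real.log_mul (Real.exp_pos y).ne' hx.ne', Real.log_exp, ← Complex.exp_add]
      congr 1
      push_cast
      ring
    have h4 := tendsto_nhds_unique (h1.congr' h3) h2
    exact (mul_left_cancel₀ hw0 (by rw [mul_one]; exact h4)).symm
  have hk := key (1 / ‖a‖)
  rw [Complex.exp_eq_one_iff] at hk
  obtain ⟨m, hm⟩ := hk
  have hn := congrArg norm hm
  have han : 0 < ‖a‖ := norm_pos_iff.2 ha0
  rw [norm_mul, norm_mul, norm_mul, norm_mul, Complex.norm_I, Complex.norm_real, Complex.norm_real,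
    Complex.norm_intCast, Real.norm_eq_abs, Real.norm_eq_abs, abs_of_pos (by positivity : 0 < 1 / ‖a‖),
    abs_of_pos Real.pi_pos, mul_one_div, div_self han.ne'] at hn
  have hpi := Real.pi_gt_three
  rcases eq_or_ne m 0 with h0 | h0
  · rw [h0] at hn
    simp at hn
  · have h1 : (1 : ℝ) ≤ |(m : ℝ)| := by
      have : (1 : ℤ) ≤ |m| := Int.one_le_abs h0
      exact_mod_cast this
    have h2 : ‖(2 : ℂ)‖ = 2 := by simp
    rw [h2] at hn
    nlinarith

/-- no decay for the functions `gk κ P` -/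
theorem core_all (hP : Large κ P) (hd : Dec κ P) : False := by
  by_cases h : ∃ k : ℕ, κ = k
  · obtain ⟨k, rfl⟩ := h
    exact core_nat k hP hd
  · push Not at h
    exact core_other h hP hd

/-- the conclusion of the question for all completely multiplicative functions whose values at the
primes are close to `-κ / p` -/
theorem main (f : ℕ → ℂ) (h1 : f 1 = 1)
    (hf : ∀ m n : ℕ, 0 < m → 0 < n → f (m * n) = f m * f n) (κ : ℂ)
    (hs : Summable fun p : ℕ => if p.Prime then Real.sqrt p * ‖f p + κ / p‖ else 0) :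
    ∃ c : ℝ, 0 < c ∧ ∀ M : ℕ, ∃ N : ℕ, M ≤ N ∧ 0 < N ∧
      c / Real.sqrt (N : ℝ) ≤ ‖∑ n ∈ Finset.Icc 1 N, f n‖ := by
  by_contra hcon
  have hd := tendsto_of_not_omega f hcon
  obtain ⟨P, hP⟩ := exists_large κ
  refine core_all hP (P := P) ?_
  have hd' : Tendsto (fun N : ℕ => Real.sqrt N * ‖SS (fun n => ext0 f n) N‖) atTop (𝓝 0) := by
    refine hd.congr fun N => ?_
    rw [ext0_SS]
  have hnorm : ∀ p : ℕ, p.Prime → ‖gk κ P p‖ * Real.sqrt p ≤ 1 / 4 := by
    intro p hp
    rw [gk_prime p hp]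
    have hp0 : (0 : ℝ) < p := by exact_mod_cast hp.pos
    split_ifs with h
    · have h2 := hP p h
      rw [norm_neg, norm_div, Complex.norm_natCast]
      have e : ‖κ‖ / p * Real.sqrt p = ‖κ‖ * (p : ℝ) ^ (-(1 / 2) : ℝ) := by
        rw [Real.sqrt_eq_rpow, div_mul_eq_mul_div, mul_div_assoc]
        congr 1
        rw [div_eq_iff hp0.ne', ← Real.rpow_add_one hp0.ne']
        norm_num
      rw [e]; exact h2
    · simp
  refine perturb (ext0 f) (gk κ P) (by rw [ext0_apply f 1 one_ne_zero, h1]) (ext0_mul f hf)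
    gk_one gk_mul (fun p hp => by linarith [hnorm p hp]) ?_ hd'
  refine Summable.of_norm_bounded_eventually_nat (hs.mul_left 2) ?_
  filter_upwards [eventually_ge_atTop (max P 1)] with p hp
  have hpP : P ≤ p := (le_max_left _ _).trans hp
  have hp1 : 1 ≤ p := (le_max_right _ _).trans hp
  by_cases hpp : p.Prime
  · rw [if_pos hpp, if_pos hpp]
    have h2 := hnorm p hpp
    have h3 : 0 ≤ ‖gk κ P p‖ * Real.sqrt p := by positivity
    have h4 : ‖gk κ P p - ext0 f p‖ = ‖f p + κ / p‖ := by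
      rw [gk_prime p hpp, if_pos hpP, ext0_apply f p hpp.ne_zero, ← norm_neg]
      congr 1
      ring
    rw [Real.norm_eq_abs, abs_of_nonneg (div_nonneg (by positivity) (by linarith)), h4,
      div_le_iff₀ (by linarith)]
    have h5 : 0 ≤ Real.sqrt p * ‖f p + κ / p‖ := by positivity
    nlinarith
  · rw [if_neg hpp, if_neg hpp]
    simp

end Pool.Agent.X87.CM
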