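import Pool.Agent.X87.CM.Main2

set_option autoImplicit false

/-!
# Values at the primes close to `-T (log p) / p` for a trigonometric polynomial `T`
-/

open Finset Filter Topology

namespace Pool.Agent.X87.CM

open Pool.H232R3

/-- the shift `s - i t` -/
noncomputable def sh (s : ℂ) (t : ℝ) : ℂ := s - t * Complex.I

theorem sh_re (s : ℂ) (t : ℝ) : (sh s t).re = s.re := by simp [sh]

theorem sh_differentiable (t : ℝ) : Differentiable ℂ (fun s => sh s t) :=
  differentiable_id.sub_const _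

theorem zz_sh_norm (s : ℂ) (t : ℝ) (p : Nat.Primes) : ‖zz (sh s t) p‖ = ‖zz s p‖ := by
  rw [zz_norm, zz_norm, sh_re]

variable {ι : Type} [Fintype ι]

/-- the sum of the absolute values of the coefficients -/
noncomputable def KK (κ : ι → ℂ) : ℝ := ∑ j, ‖κ j‖

theorem KK_nonneg (κ : ι → ℂ) : 0 ≤ KK κ := Finset.sum_nonneg fun _ _ => norm_nonneg _

/-- the trigonometric polynomial at `log p` -/
noncomputable def aa (κ : ι → ℂ) (γ : ι → ℝ) (p : ℕ) : ℂ := ∑ j, κ j * (p : ℂ) ^ (γ j * Complex.I)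

noncomputable def AA (κ : ι → ℂ) (γ : ι → ℝ) (s : ℂ) (p : Nat.Primes) : ℂ :=
  ∑ j, κ j * zz (sh s (γ j)) p

variable {κ : ι → ℂ} {γ : ι → ℝ} {P : ℕ}

theorem AA_norm (s : ℂ) (p : Nat.Primes) : ‖AA κ γ s p‖ ≤ KK κ * ‖zz s p‖ := by
  unfold AA KK
  rw [Finset.sum_mul]
  refine (norm_sum_le _ _).trans (Finset.sum_le_sum fun j _ => ?_)
  rw [norm_mul, zz_sh_norm]

/-- `P` is large compared with the coefficients -/
def LargeT (κ : ι → ℂ) (P : ℕ) : Prop := ∀ p : ℕ, P ≤ p → KK κ * (p : ℝ) ^ (-(1 / 2) : ℝ) ≤ 1 / 4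

theorem exists_largeT (κ : ι → ℂ) : ∃ P, LargeT κ P := by
  obtain ⟨P, hP⟩ := exists_large ((KK κ : ℝ) : ℂ)
  refine ⟨P, fun p hp => ?_⟩
  have := hP p hp
  rwa [Complex.norm_real, Real.norm_eq_abs, abs_of_nonneg (KK_nonneg κ)] at this

theorem smallT (hP : LargeT κ P) {s : ℂ} (hs : -(1 / 2) ≤ s.re) (p : Nat.Primes) (hp : P ≤ (p : ℕ)) :
    ‖AA κ γ s p‖ ≤ 1 / 4 := by
  refine (AA_norm s p).trans (le_trans ?_ (hP p hp))
  exact mul_le_mul_of_nonneg_left (zz_le s hs p) (KK_nonneg κ)

/-- the logarithm of the regularised local factor -/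
noncomputable def ellT (κ : ι → ℂ) (γ : ι → ℝ) (P : ℕ) (s : ℂ) (p : Nat.Primes) : ℂ :=
  if P ≤ (p : ℕ) then -Complex.log (1 + AA κ γ s p) - ∑ j, κ j * Complex.log (1 - zz (sh s (γ j)) p)
  else 0

noncomputable def LLT (κ : ι → ℂ) (γ : ι → ℝ) (P : ℕ) (s : ℂ) : ℂ := ∑' p, ellT κ γ P s p

theorem ellT_bound (hP : LargeT κ P) (s : ℂ) (hs : -(1 / 2) ≤ s.re) (p : Nat.Primes) :
    ‖ellT κ γ P s p‖ ≤ (KK κ ^ 2 + 2 * KK κ) * ‖zz s p‖ ^ 2 := by
  have hK := KK_nonneg κ
  unfold ellT
  split_ifs with hp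
  · have h1 : ‖AA κ γ s p‖ ≤ 1 / 4 := smallT hP hs p hp
    have h := Complex.norm_log_one_add_sub_self_le (z := AA κ γ s p) (by linarith)
    have h4 : (1 - ‖AA κ γ s p‖)⁻¹ ≤ 4 / 3 := by
      rw [inv_le_comm₀ (by linarith) (by norm_num)]
      linarith
    have h5 : ‖Complex.log (1 + AA κ γ s p) - AA κ γ s p‖ ≤ KK κ ^ 2 * ‖zz s p‖ ^ 2 := by
      have h6 : ‖AA κ γ s p‖ ^ 2 ≤ (KK κ * ‖zz s p‖) ^ 2 := by
        gcongr
        exact AA_norm s p
      rw [← mul_pow]
      refine h.trans ?_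
      nlinarith [sq_nonneg ‖AA κ γ s p‖]
    have h7 : ‖∑ j, κ j * (Complex.log (1 - zz (sh s (γ j)) p) + zz (sh s (γ j)) p)‖
        ≤ KK κ * (2 * ‖zz s p‖ ^ 2) := by
      unfold KK
      rw [Finset.sum_mul]
      refine (norm_sum_le _ _).trans (Finset.sum_le_sum fun j _ => ?_)
      rw [norm_mul, ← zz_sh_norm s (γ j) p]
      exact mul_le_mul_of_nonneg_left (log_sub _ (by rw [sh_re]; exact hs) p) (norm_nonneg _)
    have e : -Complex.log (1 + AA κ γ s p) - ∑ j, κ j * Complex.log (1 - zz (sh s (γ j)) p)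
        = -(Complex.log (1 + AA κ γ s p) - AA κ γ s p)
          - ∑ j, κ j * (Complex.log (1 - zz (sh s (γ j)) p) + zz (sh s (γ j)) p) := by
      simp only [mul_add, Finset.sum_add_distrib]
      unfold AA
      ring
    rw [e]
    refine (norm_sub_le _ _).trans ?_
    rw [norm_neg]
    linarith
  · rw [norm_zero]; positivity

theorem ellT_summable (hP : LargeT κ P) (s : ℂ) (hs : -(1 / 2) < s.re) :
    Summable (ellT κ γ P s) := by
  refine Summable.of_norm_bounded ((sq_summable hs).mul_left (KK κ ^ 2 + 2 * KK κ)) fun p => ?_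
  rw [← zz_sq_norm]
  exact ellT_bound hP s hs.le p

theorem ellT_differentiableAt (hP : LargeT κ P) (s : ℂ) (hs : -(1 / 2) ≤ s.re) (p : Nat.Primes) :
    DifferentiableAt ℂ (fun s => ellT κ γ P s p) s := by
  unfold ellT
  by_cases hp : P ≤ (p : ℕ)
  · simp only [if_pos hp]
    have h1 : ‖AA κ γ s p‖ ≤ 1 / 4 := smallT hP hs p hp
    have hA : DifferentiableAt ℂ (fun s => AA κ γ s p) s := by
      unfold AA
      refine DifferentiableAt.fun_sum fun j _ => ?_
      exact ((zz_differentiable p _).comp s (sh_differentiable (γ j) s)).const_mul (κ j)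
    refine DifferentiableAt.sub (DifferentiableAt.neg ?_) ?_
    · exact DifferentiableAt.clog ((differentiableAt_const _).add hA) (slit (by linarith))
    · refine DifferentiableAt.fun_sum fun j _ => DifferentiableAt.const_mul ?_ (κ j)
      exact (log_differentiableAt (sh s (γ j)) (by rw [sh_re]; exact hs) p).comp s
        (sh_differentiable (γ j) s)
  · simp only [if_neg hp]
    exact differentiableAt_const _

theorem LLT_differentiableAt (hP : LargeT κ P) (s : ℂ) (hs : -(1 / 2) < s.re) :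
    DifferentiableAt ℂ (LLT κ γ P) s := by
  have hK := KK_nonneg κ
  set a : ℝ := (s.re - 1 / 2) / 2 with ha
  have ha1 : -(1 / 2) < a := by rw [ha]; linarith
  have ha2 : a < s.re := by rw [ha]; linarith
  have h := Complex.differentiableOn_tsum_of_summable_norm (U := {s : ℂ | a < s.re})
    (F := fun p s => ellT κ γ P s p) (u := fun p : Nat.Primes =>
      (KK κ ^ 2 + 2 * KK κ) * (p : ℝ) ^ (-(2 + 2 * a))) ((sq_summable ha1).mul_left _)
    (fun p w hw => (ellT_differentiableAt hP w (by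
      have : a < w.re := hw
      linarith) p).differentiableWithinAt) (open_re a) (fun p w hw => by
      have hw' : a < w.re := hw
      refine (ellT_bound hP w (by linarith) p).trans ?_
      rw [zz_sq_norm]
      have hp1 : (1 : ℝ) ≤ p := by exact_mod_cast p.2.one_lt.le
      gcongr)
  exact (h s ha2).differentiableAt ((open_re a).mem_nhds ha2)

/-- the values at the primes -/
noncomputable def uT (κ : ι → ℂ) (γ : ι → ℝ) (P : ℕ) : ℕ → ℂ :=
  fun p => if P ≤ p then -(aa κ γ p / p) else 0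

/-- the completely multiplicative function with these values -/
noncomputable def gT (κ : ι → ℂ) (γ : ι → ℝ) (P : ℕ) : ArithmeticFunction ℂ := cmOf (uT κ γ P)

theorem gT_one : gT κ γ P 1 = 1 := cmOf_one _
theorem gT_mul (m n : ℕ) : gT κ γ P (m * n) = gT κ γ P m * gT κ γ P n := cmOf_mul _ m n
theorem gT_prime (p : ℕ) (hp : p.Prime) :
    gT κ γ P p = if P ≤ p then -(aa κ γ p / p) else 0 := cmOf_prime _ p hp

theorem AA_eq (s : ℂ) (p : Nat.Primes) :
    AA κ γ s p = aa κ γ p / ((p : ℕ) : ℂ) * ((p : ℕ) : ℂ) ^ (-s) := by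
  have hp : ((p : ℕ) : ℂ) ≠ 0 := by exact_mod_cast p.2.ne_zero
  unfold AA aa
  rw [Finset.sum_div, Finset.sum_mul]
  refine Finset.sum_congr rfl fun j _ => ?_
  rw [zz_eq]
  have : -(sh s (γ j)) = γ j * Complex.I + -s := by unfold sh; ring
  rw [this, Complex.cpow_add _ _ hp]
  ring

theorem gT_euler (hP : LargeT κ P) (s : ℂ) (hs : 0 < s.re)
    (hS : LSeriesSummable (fun n => gT κ γ P n) s) :
    LSeries (fun n => gT κ γ P n) s
      = Complex.exp (LLT κ γ P s + ∑ j, κ j * TT P (sh s (γ j))) := by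
  let φ : ℕ →*₀ ℂ :=
    { toFun := fun n => gT κ γ P n * (n : ℂ) ^ (-s)
      map_zero' := by simp
      map_one' := by simp [gT_one]
      map_mul' := fun m n => by
        rw [gT_mul, Nat.cast_mul, Complex.natCast_mul_natCast_cpow]
        ring }
  have hφ : ∀ n, φ n = LSeries.term (fun n => gT κ γ P n) s n := by
    intro n
    rw [LSeries.term_def]
    split_ifs with h0
    · rw [h0]; simp
    · show gT κ γ P n * (n : ℂ) ^ (-s) = _
      rw [Complex.cpow_neg, div_eq_mul_inv]
  have hsum : Summable (fun n => ‖φ n‖) := by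
    simp_rw [hφ]
    exact hS.norm
  have h := EulerProduct.exp_tsum_primes_log_eq_tsum (f := φ) hsum
  have e1 : ∑' n, φ n = LSeries (fun n => gT κ γ P n) s := tsum_congr hφ
  rw [e1] at h
  rw [← h]
  congr 1
  have e2 : ∀ p : Nat.Primes, -Complex.log (1 - φ p)
      = ellT κ γ P s p + ∑ j, κ j * tt P (sh s (γ j)) p := by
    intro p
    have e3 : φ (p : ℕ) = gT κ γ P p * (p : ℂ) ^ (-s) := rfl
    rw [e3, gT_prime _ p.2]
    unfold ellT tt
    by_cases hp : P ≤ (p : ℕ)
    · simp only [if_pos hp]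
      have : 1 - -(aa κ γ p / ((p : ℕ) : ℂ)) * ((p : ℕ) : ℂ) ^ (-s) = 1 + AA κ γ s p := by
        rw [AA_eq]; ring
      rw [this]
      ring
    · simp only [if_neg hp]
      simp
  have h3 : ∀ j : ι, Summable fun p => κ j * tt P (sh s (γ j)) p := fun j =>
    (tt_summable _ (by rw [sh_re]; exact hs)).mul_left _
  rw [tsum_congr e2, (ellT_summable hP s (by linarith)).tsum_add (summable_sum fun j _ => h3 j),
    Summable.tsum_finsetSum fun j _ => h3 j]
  simp only [tsum_mul_left]
  rfl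

/-- decay of the partial sums -/
def DecT (κ : ι → ℂ) (γ : ι → ℝ) (P : ℕ) : Prop :=
  Tendsto (fun N : ℕ => Real.sqrt N * ‖SS (fun n => gT κ γ P n) N‖) atTop (𝓝 0)

theorem summable_of_decT (hd : DecT κ γ P) (s : ℂ) (hs : 1 < s.re) :
    LSeriesSummable (fun n => gT κ γ P n) s := by
  obtain ⟨C, hC0, hC⟩ := bound_of_tendsto _ hd
  have hb := norm_SS_le_const _ C hC0 hC
  refine LSeriesSummable_of_bounded_of_one_lt_re (m := 2 * C) ?_ hs
  intro n hn
  obtain ⟨m, rfl⟩ : ∃ m, n = m + 1 := ⟨n - 1, by omega⟩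
  have h2 : gT κ γ P (m + 1) = SS (fun n => gT κ γ P n) (m + 1) - SS (fun n => gT κ γ P n) m := by
    rw [SS_succ]; ring
  rw [h2]
  refine (norm_sub_le _ _).trans ?_
  have := hb (m + 1)
  have := hb m
  linarith

theorem TTsh_differentiableAt (t : ℝ) (s : ℂ) (hs : 0 < s.re) :
    DifferentiableAt ℂ (fun s => TT P (sh s t)) s :=
  DifferentiableAt.comp (g := TT P) (f := fun s => sh s t) s
    (TT_differentiableAt (sh s t) (by rw [sh_re]; exact hs)) (sh_differentiable t s)

/-- the Euler product, right of the line `Re s = 0` -/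
theorem stepBT (hP : LargeT κ P) (hd : DecT κ γ P) (s : ℂ) (hs : 0 < s.re) :
    s * Phi (fun n => gT κ γ P n) s
      = Complex.exp (LLT κ γ P s + ∑ j, κ j * TT P (sh s (γ j))) := by
  refine ident 0 one_pos (fun s => s * Phi (fun n => gT κ γ P n) s)
    (fun s => Complex.exp (LLT κ γ P s + ∑ j, κ j * TT P (sh s (γ j)))) ?_ ?_ ?_ s hs
  · intro s hs
    have hs' : 0 < s.re := hs
    exact (differentiableAt_id.mul (Phi_differentiableAt _ hd s (by linarith))).differentiableWithinAt
  · intro s hs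
    have hs' : 0 < s.re := hs
    refine (DifferentiableAt.add (LLT_differentiableAt hP s (by linarith)) ?_).cexp.differentiableWithinAt
    exact DifferentiableAt.fun_sum fun j _ => (TTsh_differentiableAt (γ j) s hs').const_mul (κ j)
  · intro s hs
    have h1 := summable_of_decT hd s hs
    show s * Phi (fun n => gT κ γ P n) s = _
    rw [← Phi_LSeries _ hd s (by linarith) h1, gT_euler hP s (by linarith) h1]

/-- the Euler product for natural coefficients, right of the line `Re s = -1 / 2` -/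
theorem stepCT {k : ι → ℕ} (hP : LargeT (fun j => (k j : ℂ)) P)
    (hd : DecT (fun j => (k j : ℂ)) γ P) (s : ℂ) (hs : -(1 / 2) < s.re) :
    s * Phi (fun n => gT (fun j => (k j : ℂ)) γ P n) s *
        ∏ j, (ZZ (sh s (γ j)) * QQ P (sh s (γ j))) ^ k j
      = (∏ j, (sh s (γ j)) ^ k j) * Complex.exp (LLT (fun j => (k j : ℂ)) γ P s) := by
  refine ident (-(1 / 2)) (by norm_num)
    (fun s => s * Phi (fun n => gT (fun j => (k j : ℂ)) γ P n) s *
        ∏ j, (ZZ (sh s (γ j)) * QQ P (sh s (γ j))) ^ k j)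
    (fun s => (∏ j, (sh s (γ j)) ^ k j) * Complex.exp (LLT (fun j => (k j : ℂ)) γ P s)) ?_ ?_ ?_ s hs
  · intro s hs
    refine ((differentiableAt_id.mul (Phi_differentiableAt _ hd s hs)).mul ?_).differentiableWithinAt
    refine DifferentiableAt.fun_finsetProd fun j _ => ?_
    refine DifferentiableAt.pow ?_ _
    exact ((ZZ_differentiable _).comp s (sh_differentiable (γ j) s)).mul
      ((QQ_differentiable _).comp s (sh_differentiable (γ j) s))
  · intro s hs
    refine (DifferentiableAt.mul ?_ (LLT_differentiableAt hP s hs).cexp).differentiableWithinAt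
    exact DifferentiableAt.fun_finsetProd fun j _ => (sh_differentiable (γ j) s).pow _
  · intro s hs
    show s * Phi (fun n => gT (fun j => (k j : ℂ)) γ P n) s *
        ∏ j, (ZZ (sh s (γ j)) * QQ P (sh s (γ j))) ^ k j
      = (∏ j, (sh s (γ j)) ^ k j) * Complex.exp (LLT (fun j => (k j : ℂ)) γ P s)
    rw [stepBT hP hd s (by linarith), Complex.exp_add, Complex.exp_sum, mul_assoc,
      ← Finset.prod_mul_distrib, mul_comm]
    congr 1
    refine Finset.prod_congr rfl fun j _ => ?_
    have s0 : sh s (γ j) ≠ 0 := by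
      intro h
      have := congrArg Complex.re h
      rw [sh_re] at this
      simp at this
      linarith
    have h1 := zeta_id (P := P) (sh s (γ j)) (by rw [sh_re]; linarith)
    rw [ZZ_eq _ s0, Complex.exp_nat_mul, ← mul_pow]
    congr 1
    calc Complex.exp (TT P (sh s (γ j))) *
          (sh s (γ j) * riemannZeta (sh s (γ j) + 1) * QQ P (sh s (γ j)))
        = sh s (γ j) * (riemannZeta (sh s (γ j) + 1) * Complex.exp (TT P (sh s (γ j))) *
            QQ P (sh s (γ j))) := by ring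
      _ = _ := by rw [h1, mul_one]

end Pool.Agent.X87.CM
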