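import Pool.Agent.X87.CM.Trig

set_option autoImplicit false

/-!
# The coefficients are natural numbers
-/

open Finset Filter Topology

namespace Pool.Agent.X87.CM

open Pool.H232R3

variable {ι : Type} [Fintype ι] {κ : ι → ℂ} {γ : ι → ℝ} {P : ℕ}

theorem TT_pos (x : ℝ) (hx : 0 < x) :
    TT P (x : ℂ) = ((Real.log x - (Real.log ‖ZZ x‖ + Real.log ‖QQ P x‖) : ℝ) : ℂ) := by
  obtain ⟨τ, hτ⟩ := TT_real (P := P) x hx
  have h1 := zeta_id (P := P) (x : ℂ) (by simpa using hx)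
  have hx0 : (x : ℂ) ≠ 0 := by exact_mod_cast hx.ne'
  have h2 := congrArg norm h1
  rw [hτ, norm_mul, norm_mul, Complex.norm_exp, Complex.ofReal_re, norm_one] at h2
  have hq : 0 < ‖QQ P (x : ℂ)‖ := norm_pos_iff.2 (QQ_ne _ (by simp; linarith))
  have hz : 0 < ‖riemannZeta ((x : ℂ) + 1)‖ := by
    rw [norm_pos_iff]
    intro h
    rw [h] at h1
    simp at h1
  have h3 : ‖ZZ (x : ℂ)‖ = x * ‖riemannZeta ((x : ℂ) + 1)‖ := by
    rw [ZZ_eq _ hx0, norm_mul, Complex.norm_real, Real.norm_eq_abs, abs_of_pos hx]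
  have h4 : Real.log ‖riemannZeta ((x : ℂ) + 1)‖ + τ + Real.log ‖QQ P (x : ℂ)‖ = 0 := by
    have := congrArg Real.log h2
    rw [Real.log_mul (by positivity) hq.ne', Real.log_mul hz.ne' (Real.exp_pos _).ne',
      Real.log_exp, Real.log_one] at this
    exact this
  have h5 : Real.log ‖ZZ (x : ℂ)‖ = Real.log x + Real.log ‖riemannZeta ((x : ℂ) + 1)‖ := by
    rw [h3, Real.log_mul hx.ne' hz.ne']
  have h6 : τ = Real.log x - (Real.log ‖ZZ (x : ℂ)‖ + Real.log ‖QQ P (x : ℂ)‖) := by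
    rw [h5]; linarith
  rw [hτ, h6]

theorem logs_cont : ContinuousAt
    (fun x : ℝ => Real.log ‖ZZ (x : ℂ)‖ + Real.log ‖QQ P (x : ℂ)‖) 0 := by
  have c2 : ContinuousAt (fun x : ℝ => Real.log ‖ZZ (x : ℂ)‖) 0 := by
    have : ContinuousAt (fun x : ℝ => ‖ZZ (x : ℂ)‖) 0 :=
      (ZZ_differentiable.continuous.comp Complex.continuous_ofReal).norm.continuousAt
    refine this.log ?_
    simpa using ZZ_zero_ne
  have c3 : ContinuousAt (fun x : ℝ => Real.log ‖QQ P (x : ℂ)‖) 0 := by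
    have : ContinuousAt (fun x : ℝ => ‖QQ P (x : ℂ)‖) 0 :=
      (QQ_differentiable.continuous.comp Complex.continuous_ofReal).norm.continuousAt
    refine this.log ?_
    simpa using QQ_ne (P := P) 0 (by simp)
  exact c2.add c3

theorem natural_of_branch (κ₀ c : ℂ) (F : ℂ → ℂ) (hFa : AnalyticAt ℂ F c) (V : ℝ → ℂ) (V₀ : ℂ)
    (hV₀ : V₀ ≠ 0) (hV0 : Tendsto V (𝓝[>] 0) (𝓝 V₀)) (hVne : ∀ x, V x ≠ 0)
    (hFV : ∀ x : ℝ, 0 < x → F (c + x) = V x * Complex.exp (κ₀ * (Real.log x : ℝ))) :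
    ∃ n : ℕ, κ₀ = n := by
  by_contra hκ
  push Not at hκ
  have hpos : ∀ᶠ x : ℝ in 𝓝[>] 0, 0 < x := self_mem_nhdsWithin
  have hof : Tendsto (fun x : ℝ => c + (x : ℂ)) (𝓝[>] 0) (𝓝 c) := by
    have : Tendsto (fun x : ℝ => c + (x : ℂ)) (𝓝 0) (𝓝 (c + ((0 : ℝ) : ℂ))) :=
      (continuous_const.add Complex.continuous_ofReal).tendsto 0
    rw [Complex.ofReal_zero, add_zero] at this
    exact this.mono_left nhdsWithin_le_nhds
  have hne : ¬ ∀ᶠ z in 𝓝 c, F z = 0 := by
    intro h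
    obtain ⟨x, hx0, hx⟩ := ((hof.eventually h).and hpos).exists
    rw [hFV x hx] at hx0
    exact (mul_ne_zero (hVne x) (Complex.exp_ne_zero _)) hx0
  obtain ⟨n, G, hGa, hG0, hFG⟩ := (hFa.exists_eventuallyEq_pow_smul_nonzero_iff).2 hne
  set a : ℂ := κ₀ - n with ha
  have ha0 : a ≠ 0 := sub_ne_zero.2 (hκ n)
  set φ : ℝ → ℂ := fun x => Complex.exp (a * (Real.log x : ℝ)) with hφ
  have hφeq : ∀ᶠ x : ℝ in 𝓝[>] 0, φ x = G (c + x) / V x := by
    filter_upwards [hof.eventually hFG, hpos] with x hx hx0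
    rw [hFV x hx0, add_sub_cancel_left, smul_eq_mul] at hx
    rw [eq_div_iff (hVne x)]
    have hxn : (x : ℂ) ^ n = Complex.exp (n * (Real.log x : ℝ)) := by
      rw [Complex.exp_nat_mul, ← Complex.ofReal_exp, Real.exp_log hx0]
    have e1 : φ x * Complex.exp (n * (Real.log x : ℝ)) = Complex.exp (κ₀ * (Real.log x : ℝ)) := by
      rw [hφ]
      show Complex.exp (a * (Real.log x : ℝ)) * _ = _
      rw [← Complex.exp_add]
      congr 1
      rw [ha]; ring
    have hn0 : Complex.exp ((n : ℂ) * (Real.log x : ℝ)) ≠ 0 := Complex.exp_ne_zero _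
    apply mul_right_cancel₀ hn0
    calc φ x * V x * Complex.exp (n * (Real.log x : ℝ))
        = V x * (φ x * Complex.exp (n * (Real.log x : ℝ))) := by ring
      _ = V x * Complex.exp (κ₀ * (Real.log x : ℝ)) := by rw [e1]
      _ = (x : ℂ) ^ n * G (c + x) := hx
      _ = G (c + x) * Complex.exp (n * (Real.log x : ℝ)) := by rw [hxn]; ring
  set w : ℂ := G c / V₀ with hw
  have hw0 : w ≠ 0 := div_ne_zero hG0 hV₀
  have hφw : Tendsto φ (𝓝[>] 0) (𝓝 w) := by
    have h1 : Tendsto (fun x : ℝ => G (c + (x : ℂ))) (𝓝[>] 0) (𝓝 (G c)) :=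
      hGa.continuousAt.tendsto.comp hof
    exact (h1.div hV0 hV₀).congr' (hφeq.mono fun x hx => hx.symm)
  have key : ∀ y : ℝ, Complex.exp (a * y) = 1 := by
    intro y
    have hm : Tendsto (fun x : ℝ => Real.exp y * x) (𝓝[>] 0) (𝓝[>] 0) := by
      refine tendsto_nhdsWithin_iff.2 ⟨?_, ?_⟩
      · have : Tendsto (fun x : ℝ => Real.exp y * x) (𝓝 0) (𝓝 (Real.exp y * 0)) :=
          (continuous_const.mul continuous_id).tendsto 0
        rw [mul_zero] at this
        exact this.mono_left nhdsWithin_le_nhds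
      · filter_upwards [hpos] with x hx
        exact mul_pos (Real.exp_pos y) hx
    have h1 := hφw.comp hm
    have h2 : Tendsto (fun x => φ x * Complex.exp (a * y)) (𝓝[>] 0) (𝓝 (w * Complex.exp (a * y))) :=
      hφw.mul_const _
    have h3 : (φ ∘ fun x : ℝ => Real.exp y * x) =ᶠ[𝓝[>] 0] fun x => φ x * Complex.exp (a * y) := by
      filter_upwards [hpos] with x hx
      show Complex.exp (a * (Real.log (Real.exp y * x) : ℝ))
        = Complex.exp (a * (Real.log x : ℝ)) * Complex.exp (a * y)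
      rw [Real.log_mul (Real.exp_pos y).ne' hx.ne', Real.log_exp, ← Complex.exp_add]
      congr 1
      push_cast
      ring
    have h4 := tendsto_nhds_unique (h1.congr' h3) h2
    exact (mul_left_cancel₀ hw0 (by rw [mul_one]; exact h4)).symm
  have hk := key (1 / ‖a‖)
  rw [Complex.exp_eq_one_iff] at hk
  obtain ⟨m, hm⟩ := hk
  have hn := congrArg norm hm
  have han : 0 < ‖a‖ := norm_pos_iff.2 ha0
  rw [norm_mul, norm_mul, norm_mul, norm_mul, Complex.norm_I, Complex.norm_real, Complex.norm_real,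
    Complex.norm_intCast, Real.norm_eq_abs, Real.norm_eq_abs, abs_of_pos (by positivity : 0 < 1 / ‖a‖),
    abs_of_pos Real.pi_pos, mul_one_div, div_self han.ne'] at hn
  have hpi := Real.pi_gt_three
  rcases eq_or_ne m 0 with h0 | h0
  · rw [h0] at hn
    simp at hn
  · have h1 : (1 : ℝ) ≤ |(m : ℝ)| := by
      have : (1 : ℤ) ≤ |m| := Int.one_le_abs h0
      exact_mod_cast this
    have h2 : ‖(2 : ℂ)‖ = 2 := by simp
    rw [h2] at hn
    nlinarith

theorem sh_ofReal_ne (x t : ℝ) (ht : t ≠ 0) : sh (x : ℂ) t ≠ 0 := by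
  intro h
  have := congrArg Complex.im h
  simp [sh] at this
  exact ht this

theorem zeta_QQ_ne (s : ℂ) (hs : 0 ≤ s.re) : riemannZeta (s + 1) * QQ P s ≠ 0 := by
  refine mul_ne_zero (riemannZeta_ne_zero_of_one_le_re (by simpa using hs)) (QQ_ne _ (by linarith))

theorem TT_limit (t : ℝ) (ht : t ≠ 0) :
    ∃ T : ℂ, Tendsto (fun x : ℝ => TT P (sh (x : ℂ) t)) (𝓝[>] 0) (𝓝 T) := by
  set s₀ : ℂ := sh 0 t with hs₀
  have hs₀re : s₀.re = 0 := by rw [hs₀, sh_re]; simp
  set H : ℂ → ℂ := fun s => riemannZeta (s + 1) * QQ P s with hH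
  have hs₀0 : s₀ ≠ 0 := by
    have := sh_ofReal_ne 0 t ht
    rw [Complex.ofReal_zero] at this
    exact this
  have hHd : ∀ s : ℂ, s ≠ 0 → DifferentiableAt ℂ H s := by
    intro s hs
    have hs1 : s + 1 ≠ 1 := by simpa using hs
    exact ((differentiableAt_riemannZeta hs1).comp s (differentiableAt_id.add_const 1)).mul
      (QQ_differentiable s)
  have hH0 : H s₀ ≠ 0 := zeta_QQ_ne s₀ hs₀re.ge
  -- the quotient is close to one near `s₀`
  have hcont : ContinuousAt (fun s => H s₀ / H s) s₀ :=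
    continuousAt_const.div (hHd s₀ hs₀0).continuousAt hH0
  have hone : (fun s => H s₀ / H s) s₀ = 1 := div_self hH0
  have hev : ∀ᶠ s in 𝓝 s₀, H s₀ / H s ∈ Complex.slitPlane ∧ s ≠ 0 := by
    refine (hcont.eventually (Complex.isOpen_slitPlane.mem_nhds (x := (fun s => H s₀ / H s) s₀) ?_)).and
      (isOpen_ne.mem_nhds hs₀0)
    rw [hone]
    exact Complex.one_mem_slitPlane
  rw [Metric.eventually_nhds_iff_ball] at hev
  obtain ⟨δ, hδ, hev⟩ := hev
  set U : Set ℂ := {s : ℂ | 0 < s.re} ∩ Metric.ball s₀ δ with hU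
  have hUo : IsOpen U := (open_re 0).inter Metric.isOpen_ball
  have hUc : IsPreconnected U :=
    ((convex_halfSpace_re_gt 0).inter (convex_ball s₀ δ)).isPreconnected
  set D : ℂ → ℂ := fun s => TT P s - Complex.log (H s₀ / H s) with hD
  have hDd : DifferentiableOn ℂ D U := by
    intro s hs
    have hb := hev s hs.2
    refine (DifferentiableAt.sub (TT_differentiableAt s hs.1) ?_).differentiableWithinAt
    exact ((differentiableAt_const _).div (hHd s hb.2) (zeta_QQ_ne s hs.1.le)).clog hb.1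
  have hexp : ∀ s ∈ U, Complex.exp (D s) = (H s₀)⁻¹ := by
    intro s hs
    have hne : H s ≠ 0 := zeta_QQ_ne s hs.1.le
    have h1 := zeta_id (P := P) s hs.1
    have h2 : Complex.exp (TT P s) = (H s)⁻¹ := by
      refine eq_inv_of_mul_eq_one_left ?_
      rw [← h1]
      show _ * (riemannZeta (s + 1) * QQ P s) = _
      ring
    rw [hD]
    show Complex.exp (TT P s - Complex.log (H s₀ / H s)) = _
    rw [Complex.exp_sub, h2, Complex.exp_log (div_ne_zero hH0 hne)]
    field_simp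
  have hderiv : Set.EqOn (deriv D) 0 U := by
    intro s hs
    have hd := (hDd s hs).differentiableAt (hUo.mem_nhds hs)
    have h1 : HasDerivAt (fun s => Complex.exp (D s)) (Complex.exp (D s) * deriv D s) s :=
      hd.hasDerivAt.cexp
    have h2 : HasDerivAt (fun s => Complex.exp (D s)) 0 s := by
      refine (hasDerivAt_const s ((H s₀)⁻¹)).congr_of_eventuallyEq ?_
      filter_upwards [hUo.mem_nhds hs] with w hw
      exact hexp w hw
    have h3 := h1.unique h2
    exact (mul_eq_zero.1 h3).resolve_left (Complex.exp_ne_zero _)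
  have hxU : ∀ᶠ x : ℝ in 𝓝[>] 0, sh (x : ℂ) t ∈ U := by
    have hc : Tendsto (fun x : ℝ => sh (x : ℂ) t) (𝓝[>] 0) (𝓝 s₀) := by
      have : Tendsto (fun x : ℝ => sh (x : ℂ) t) (𝓝 0) (𝓝 (sh ((0 : ℝ) : ℂ) t)) :=
        ((sh_differentiable t).continuous.comp Complex.continuous_ofReal).tendsto 0
      rw [Complex.ofReal_zero] at this
      exact this.mono_left nhdsWithin_le_nhds
    filter_upwards [hc.eventually (Metric.ball_mem_nhds s₀ hδ), self_mem_nhdsWithin] with x hx hx0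
    refine ⟨?_, hx⟩
    show 0 < (sh (x : ℂ) t).re
    rw [sh_re]
    exact hx0
  obtain ⟨x₁, hx₁⟩ := hxU.exists
  refine ⟨D (sh (x₁ : ℂ) t) + Complex.log 1, ?_⟩
  have hlim : Tendsto (fun x : ℝ => D (sh (x₁ : ℂ) t) + Complex.log (H s₀ / H (sh (x : ℂ) t)))
      (𝓝[>] 0) (𝓝 (D (sh (x₁ : ℂ) t) + Complex.log 1)) := by
    refine tendsto_const_nhds.add ?_
    have hc : Tendsto (fun x : ℝ => H s₀ / H (sh (x : ℂ) t)) (𝓝[>] 0) (𝓝 1) := by
      have h1 : ContinuousAt (fun x : ℝ => sh (x : ℂ) t) 0 :=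
        ((sh_differentiable t).continuous.comp Complex.continuous_ofReal).continuousAt
      have h2 : ContinuousAt (fun x : ℝ => H s₀ / H (sh (x : ℂ) t)) 0 := by
        refine ContinuousAt.comp (f := fun x : ℝ => sh (x : ℂ) t) (g := fun s => H s₀ / H s) ?_ h1
        simpa [hs₀] using hcont
      have h3 := h2.tendsto
      simp only [Complex.ofReal_zero] at h3
      rw [← hs₀, div_self hH0] at h3
      exact h3.mono_left nhdsWithin_le_nhds
    exact (continuousAt_clog Complex.one_mem_slitPlane).tendsto.comp hc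
  refine hlim.congr' ?_
  filter_upwards [hxU] with x hx
  have h1 := hUo.is_const_of_deriv_eq_zero hUc hDd hderiv hx hx₁
  rw [← h1, hD]
  ring

end Pool.Agent.X87.CM
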