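import Pool.Agent.X87.CM.Trig2

set_option autoImplicit false

/-!
# The singularity at `-1 / 2`
-/

open Finset Filter Topology

namespace Pool.Agent.X87.CM

open Pool.H232R3

variable {ι : Type} [Fintype ι] {κ : ι → ℂ} {γ : ι → ℝ} {P : ℕ}

theorem natural_coeffs (hγ : Function.Injective γ) (hP : LargeT κ P) (hd : DecT κ γ P) (j : ι) :
    ∃ n : ℕ, κ j = n := by
  classical
  have hT : ∀ i, ∃ T : ℂ, i ≠ j →
      Tendsto (fun x : ℝ => TT P (sh (x : ℂ) (γ i - γ j))) (𝓝[>] 0) (𝓝 T) := by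
    intro i
    by_cases hi : i = j
    · exact ⟨0, fun h => absurd hi h⟩
    · obtain ⟨T, hT⟩ := TT_limit (P := P) (γ i - γ j) (sub_ne_zero.2 fun h => hi (hγ h))
      exact ⟨T, fun _ => hT⟩
  choose T hT using hT
  set c : ℂ := γ j * Complex.I with hc
  have hcre : c.re = 0 := by simp [hc]
  set F : ℂ → ℂ := fun s => s * Phi (fun n => gT κ γ P n) s with hF
  have hFd : DifferentiableOn ℂ F {s | -(1 / 2) < s.re} := fun s hs =>
    (differentiableAt_id.mul (Phi_differentiableAt _ hd s hs)).differentiableWithinAt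
  have hFa : AnalyticAt ℂ F c := hFd.analyticOnNhd (open_re _) c (by
    show -(1 / 2) < c.re
    rw [hcre]; norm_num)
  refine natural_of_branch (κ j) c F hFa
    (fun x : ℝ => Complex.exp (LLT κ γ P (c + x) +
      ∑ i ∈ univ.erase j, κ i * TT P (sh (x : ℂ) (γ i - γ j))
      - κ j * (Real.log ‖ZZ x‖ + Real.log ‖QQ P x‖ : ℝ)))
    (Complex.exp (LLT κ γ P c + ∑ i ∈ univ.erase j, κ i * T i
      - κ j * (Real.log ‖ZZ ((0 : ℝ) : ℂ)‖ + Real.log ‖QQ P ((0 : ℝ) : ℂ)‖ : ℝ)))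
    (Complex.exp_ne_zero _) ?_ (fun x => Complex.exp_ne_zero _) ?_
  · refine (Complex.continuous_exp.tendsto _).comp ((Tendsto.add ?_ ?_).sub ?_)
    · have h1 : ContinuousAt (fun x : ℝ => c + (x : ℂ)) 0 :=
        (continuous_const.add Complex.continuous_ofReal).continuousAt
      have h2 : ContinuousAt (fun x : ℝ => LLT κ γ P (c + (x : ℂ))) 0 := by
        refine ContinuousAt.comp (f := fun x : ℝ => c + (x : ℂ)) (g := LLT κ γ P) ?_ h1
        refine (LLT_differentiableAt hP _ ?_).continuousAt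
        simp [hcre]
      have h3 := h2.tendsto
      simp only [Complex.ofReal_zero, add_zero] at h3
      exact h3.mono_left nhdsWithin_le_nhds
    · refine tendsto_finsetSum _ fun i hi => ?_
      exact (hT i (Finset.ne_of_mem_erase hi)).const_mul (κ i)
    · refine Tendsto.const_mul (κ j) ?_
      exact ((Complex.continuous_ofReal.continuousAt.comp (logs_cont (P := P))).tendsto).mono_left
        nhdsWithin_le_nhds
  · intro x hx
    have h1 : 0 < (c + (x : ℂ)).re := by simp [hcre, hx]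
    have h2 : ∀ i, sh (c + (x : ℂ)) (γ i) = sh (x : ℂ) (γ i - γ j) := by
      intro i
      unfold sh
      rw [hc]; push_cast; ring
    have h3 : sh (x : ℂ) (γ j - γ j) = x := by unfold sh; simp
    rw [hF]
    show (c + (x : ℂ)) * Phi (fun n => gT κ γ P n) (c + x) = _
    rw [stepBT hP hd _ h1, ← Finset.add_sum_erase _ _ (Finset.mem_univ j), h2, h3, TT_pos x hx,
      ← Complex.exp_add]
    congr 1
    simp only [h2]
    push_cast
    ring

theorem zz_mul_zz (x : ℝ) (a b : ℝ) (p : Nat.Primes) :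
    zz (sh (x : ℂ) a) p * zz (sh (x : ℂ) b) p = zz (sh ((1 + 2 * x : ℝ) : ℂ) (a + b)) p := by
  have hp : ((p : ℕ) : ℂ) ≠ 0 := by exact_mod_cast p.2.ne_zero
  unfold zz sh
  rw [← Complex.cpow_add _ _ hp]
  congr 1
  push_cast
  ring

theorem log3 (z : ℂ) (hz : ‖z‖ ≤ 3 / 4) : ‖Complex.log (1 + z) - (z - z ^ 2 / 2)‖ ≤ 2 * ‖z‖ ^ 3 := by
  have h := Complex.norm_log_sub_logTaylor_le 2 (z := z) (by linarith)
  have e : Complex.logTaylor (2 + 1) z = z - z ^ 2 / 2 := by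
    simp [Complex.logTaylor, Finset.sum_range_succ]
    ring
  rw [e] at h
  refine h.trans ?_
  have h4 : (1 - ‖z‖)⁻¹ ≤ 4 := by
    rw [inv_le_comm₀ (by linarith) (by norm_num)]
    linarith
  have h5 : 0 ≤ ‖z‖ ^ 3 := by positivity
  have h6 : ‖z‖ ^ 3 * (1 - ‖z‖)⁻¹ ≤ ‖z‖ ^ 3 * 4 := by gcongr
  push_cast
  norm_num
  linarith

/-- the second order term -/
noncomputable def RR (κ : ι → ℂ) (γ : ι → ℝ) (P : ℕ) (y : ℝ) (p : Nat.Primes) : ℂ :=
  (∑ i, ∑ j, κ i * κ j * tt P (sh (y : ℂ) (γ i + γ j)) p +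
    ∑ j, κ j * tt P (sh (y : ℂ) (γ j + γ j)) p) / 2

theorem second (hP : LargeT κ P) (x : ℝ) (hx : -(1 / 2) < x) (p : Nat.Primes) :
    ‖ellT κ γ P (x : ℂ) p + RR κ γ P (1 + 2 * x) p‖
      ≤ (2 * KK κ ^ 3 + KK κ ^ 2 + 3 * KK κ) * (p : ℝ) ^ (-(3 / 2) : ℝ) := by
  have hK := KK_nonneg κ
  have hp1 : (1 : ℝ) < p := by exact_mod_cast p.2.one_lt
  by_cases hp : P ≤ (p : ℕ)
  swap
  · have e1 : ellT κ γ P (x : ℂ) p = 0 := by unfold ellT; rw [if_neg hp]
    have e2 : RR κ γ P (1 + 2 * x) p = 0 := by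
      unfold RR tt
      simp only [if_neg hp]
      simp
    rw [e1, e2, add_zero, norm_zero]
    positivity
  have hxre : -(1 / 2) ≤ ((x : ℂ)).re := by simpa using hx.le
  set τ : ℝ := ‖zz (x : ℂ) p‖ with hτ
  have hτ0 : 0 ≤ τ := norm_nonneg _
  have hτ1 : τ ≤ (p : ℝ) ^ (-(1 / 2) : ℝ) := zz_le _ hxre p
  have hτ34 : τ ≤ 3 / 4 := zz_three _ hxre p
  have hτ3 : τ ^ 3 ≤ (p : ℝ) ^ (-(3 / 2) : ℝ) := by
    have : (p : ℝ) ^ (-(3 / 2) : ℝ) = ((p : ℝ) ^ (-(1 / 2) : ℝ)) ^ 3 := by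
      rw [← Real.rpow_natCast, ← Real.rpow_mul (by linarith)]
      norm_num
    rw [this]
    gcongr
  have hzj : ∀ j, ‖zz (sh (x : ℂ) (γ j)) p‖ = τ := fun j => zz_sh_norm _ _ _
  set A : ℂ := AA κ γ (x : ℂ) p with hA
  have hA1 : ‖A‖ ≤ 1 / 4 := smallT hP hxre p hp
  have hA2 : ‖A‖ ≤ KK κ * τ := AA_norm _ _
  set e1 : ℂ := Complex.log (1 + A) - (A - A ^ 2 / 2) with he1
  have he1n : ‖e1‖ ≤ 2 * KK κ ^ 3 * τ ^ 3 := by
    refine (log3 A (by linarith)).trans ?_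
    rw [mul_assoc, ← mul_pow]
    gcongr
  set e2 : ι → ℂ := fun j => Complex.log (1 - zz (sh (x : ℂ) (γ j)) p)
    - (-zz (sh (x : ℂ) (γ j)) p - zz (sh (x : ℂ) (γ j)) p ^ 2 / 2) with he2
  have he2n : ∀ j, ‖e2 j‖ ≤ 2 * τ ^ 3 := by
    intro j
    have := log3 (-zz (sh (x : ℂ) (γ j)) p) (by rw [norm_neg, hzj]; exact hτ34)
    rw [norm_neg, hzj, neg_sq, ← sub_eq_add_neg] at this
    exact this
  set w : ι → ι → ℂ := fun i j => zz (sh (x : ℂ) (γ i)) p * zz (sh (x : ℂ) (γ j)) p with hw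
  have hwz : ∀ i j, w i j = zz (sh ((1 + 2 * x : ℝ) : ℂ) (γ i + γ j)) p := fun i j =>
    zz_mul_zz x _ _ p
  set f : ι → ι → ℂ := fun i j => Complex.log (1 - w i j) + w i j with hf
  have hfn : ∀ i j, ‖f i j‖ ≤ 2 * τ ^ 3 := by
    intro i j
    have h1 := log_sub (sh ((1 + 2 * x : ℝ) : ℂ) (γ i + γ j)) (by
      rw [sh_re, Complex.ofReal_re]; linarith) p
    rw [← hwz] at h1
    have h2 : ‖w i j‖ = τ * τ := by
      rw [hw]
      show ‖zz (sh (x : ℂ) (γ i)) p * zz (sh (x : ℂ) (γ j)) p‖ = _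
      rw [norm_mul, hzj, hzj]
    rw [h2] at h1
    refine h1.trans ?_
    have h3 : (τ * τ) ^ 2 = τ ^ 3 * τ := by ring
    rw [h3]
    have h4 : τ ^ 3 * τ ≤ τ ^ 3 * 1 := by
      gcongr
      linarith
    linarith
  have key : ellT κ γ P (x : ℂ) p + RR κ γ P (1 + 2 * x) p
      = -e1 - ∑ j, κ j * e2 j + (∑ i, ∑ j, κ i * κ j * f i j + ∑ j, κ j * f j j) / 2 := by
    have hAA : A = ∑ j, κ j * zz (sh (x : ℂ) (γ j)) p := rfl
    have hA2' : A ^ 2 = ∑ i, ∑ j, κ i * κ j * w i j := by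
      rw [sq, hAA, Finset.sum_mul_sum]
      refine Finset.sum_congr rfl fun i _ => Finset.sum_congr rfl fun j _ => ?_
      rw [hw]; ring
    have hR : RR κ γ P (1 + 2 * x) p = (∑ i, ∑ j, κ i * κ j * Complex.log (1 - w i j) +
        ∑ j, κ j * Complex.log (1 - w j j)) / 2 := by
      unfold RR tt
      simp only [if_pos hp, ← hwz]
    have hE : ellT κ γ P (x : ℂ) p = -Complex.log (1 + A) -
        ∑ j, κ j * Complex.log (1 - zz (sh (x : ℂ) (γ j)) p) := by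
      unfold ellT
      rw [if_pos hp]
    have h1 : ∑ j, κ j * e2 j = ∑ j, κ j * Complex.log (1 - zz (sh (x : ℂ) (γ j)) p)
        + A + (∑ j, κ j * w j j) / 2 := by
      rw [hAA, Finset.sum_div, ← Finset.sum_add_distrib, ← Finset.sum_add_distrib]
      refine Finset.sum_congr rfl fun j _ => ?_
      rw [he2, hw]; ring
    have h2 : ∑ i, ∑ j, κ i * κ j * f i j
        = ∑ i, ∑ j, κ i * κ j * Complex.log (1 - w i j) + A ^ 2 := by
      rw [hA2', ← Finset.sum_add_distrib]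
      refine Finset.sum_congr rfl fun i _ => ?_
      rw [← Finset.sum_add_distrib]
      refine Finset.sum_congr rfl fun j _ => ?_
      rw [hf]; ring
    have h3 : ∑ j, κ j * f j j = ∑ j, κ j * Complex.log (1 - w j j) + ∑ j, κ j * w j j := by
      rw [← Finset.sum_add_distrib]
      refine Finset.sum_congr rfl fun j _ => ?_
      rw [hf]; ring
    rw [hE, hR, h1, h2, h3, he1]
    ring
  have b1 : ‖∑ j, κ j * e2 j‖ ≤ KK κ * (2 * τ ^ 3) := by
    unfold KK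
    rw [Finset.sum_mul]
    refine (norm_sum_le _ _).trans (Finset.sum_le_sum fun j _ => ?_)
    rw [norm_mul]
    exact mul_le_mul_of_nonneg_left (he2n j) (norm_nonneg _)
  have b2 : ‖∑ j, κ j * f j j‖ ≤ KK κ * (2 * τ ^ 3) := by
    unfold KK
    rw [Finset.sum_mul]
    refine (norm_sum_le _ _).trans (Finset.sum_le_sum fun j _ => ?_)
    rw [norm_mul]
    exact mul_le_mul_of_nonneg_left (hfn j j) (norm_nonneg _)
  have b3 : ‖∑ i, ∑ j, κ i * κ j * f i j‖ ≤ KK κ * (KK κ * (2 * τ ^ 3)) := by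
    have : ∀ i, ‖∑ j, κ i * κ j * f i j‖ ≤ ‖κ i‖ * (KK κ * (2 * τ ^ 3)) := by
      intro i
      have e : ∑ j, κ i * κ j * f i j = κ i * ∑ j, κ j * f i j := by
        rw [Finset.mul_sum]
        exact Finset.sum_congr rfl fun j _ => by ring
      rw [e, norm_mul]
      refine mul_le_mul_of_nonneg_left ?_ (norm_nonneg _)
      unfold KK
      rw [Finset.sum_mul]
      refine (norm_sum_le _ _).trans (Finset.sum_le_sum fun j _ => ?_)
      rw [norm_mul]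
      exact mul_le_mul_of_nonneg_left (hfn i j) (norm_nonneg _)
    have e3 : KK κ * (KK κ * (2 * τ ^ 3)) = ∑ i, ‖κ i‖ * (KK κ * (2 * τ ^ 3)) := by
      conv_lhs => rw [KK, Finset.sum_mul]
      rfl
    rw [e3]
    exact (norm_sum_le _ _).trans (Finset.sum_le_sum fun i _ => this i)
  rw [key]
  have c1 := norm_add_le (-e1 - ∑ j, κ j * e2 j)
    ((∑ i, ∑ j, κ i * κ j * f i j + ∑ j, κ j * f j j) / 2)
  have c2 := norm_sub_le (-e1) (∑ j, κ j * e2 j)
  have c3 : ‖(∑ i, ∑ j, κ i * κ j * f i j + ∑ j, κ j * f j j) / 2‖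
      ≤ (KK κ * (KK κ * (2 * τ ^ 3)) + KK κ * (2 * τ ^ 3)) / 2 := by
    rw [norm_div]
    have : ‖(2 : ℂ)‖ = 2 := by simp
    rw [this]
    have := norm_add_le (∑ i, ∑ j, κ i * κ j * f i j) (∑ j, κ j * f j j)
    linarith
  rw [norm_neg] at c2
  have c4 : (2 * KK κ ^ 3 + KK κ ^ 2 + 3 * KK κ) * τ ^ 3
      ≤ (2 * KK κ ^ 3 + KK κ ^ 2 + 3 * KK κ) * (p : ℝ) ^ (-(3 / 2) : ℝ) := by
    gcongr
  nlinarith

end Pool.Agent.X87.CM
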