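import Pool.Agent.X87.CM.Trig3

set_option autoImplicit false

/-!
# The theorem for trigonometric polynomials
-/

open Finset Filter Topology

namespace Pool.Agent.X87.CM

open Pool.H232R3

variable {ι : Type} [Fintype ι] {κ : ι → ℂ} {γ : ι → ℝ} {P : ℕ}

theorem LLT_second (hP : LargeT κ P) : ∃ C : ℝ, ∀ x : ℝ, -(1 / 2) < x →
    ‖LLT κ γ P (x : ℂ) + (∑ i, ∑ j, κ i * κ j * TT P (sh ((1 + 2 * x : ℝ) : ℂ) (γ i + γ j)) +
      ∑ j, κ j * TT P (sh ((1 + 2 * x : ℝ) : ℂ) (γ j + γ j))) / 2‖ ≤ C := by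
  have hS : Summable fun p : Nat.Primes => (p : ℝ) ^ (-(3 / 2) : ℝ) :=
    Nat.Primes.summable_rpow.mpr (by norm_num)
  refine ⟨∑' p : Nat.Primes,
    (2 * KK κ ^ 3 + KK κ ^ 2 + 3 * KK κ) * (p : ℝ) ^ (-(3 / 2) : ℝ), fun x hx => ?_⟩
  have hTT : ∀ δ : ℝ, HasSum (fun p => tt P (sh ((1 + 2 * x : ℝ) : ℂ) δ) p)
      (TT P (sh ((1 + 2 * x : ℝ) : ℂ) δ)) := fun δ =>
    (tt_summable _ (by rw [sh_re, Complex.ofReal_re]; linarith)).hasSum
  have hR : HasSum (RR κ γ P (1 + 2 * x))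
      ((∑ i, ∑ j, κ i * κ j * TT P (sh ((1 + 2 * x : ℝ) : ℂ) (γ i + γ j)) +
      ∑ j, κ j * TT P (sh ((1 + 2 * x : ℝ) : ℂ) (γ j + γ j))) / 2) := by
    unfold RR
    exact ((hasSum_sum fun i _ => hasSum_sum fun j _ => (hTT _).mul_left _).add
      (hasSum_sum fun j _ => (hTT _).mul_left _)).div_const 2
  have hE : HasSum (ellT κ γ P (x : ℂ)) (LLT κ γ P (x : ℂ)) :=
    (ellT_summable hP _ (by simpa using hx)).hasSum
  rw [← (hE.add hR).tsum_eq]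
  exact tsum_of_norm_bounded (hS.mul_left _).hasSum fun p => second hP x hx p

theorem lower0 : ∃ C : ℝ, ∀ᶠ y : ℝ in 𝓝[>] 0, -Real.log y - C ≤ -(TT P (y : ℂ)).re := by
  have h1 := (logs_cont (P := P)).tendsto
  refine ⟨1 - (Real.log ‖ZZ ((0 : ℝ) : ℂ)‖ + Real.log ‖QQ P ((0 : ℝ) : ℂ)‖), ?_⟩
  have h2 := (h1.mono_left nhdsWithin_le_nhds : Tendsto _ (𝓝[>] (0 : ℝ)) _).eventually
    (lt_mem_nhds (sub_one_lt _))
  filter_upwards [h2, self_mem_nhdsWithin] with y hy hy0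
  rw [TT_pos y hy0, Complex.ofReal_re]
  linarith

theorem lower (δ : ℝ) : ∃ C : ℝ, ∀ᶠ y : ℝ in 𝓝[>] 0, -C ≤ -(TT P (sh (y : ℂ) δ)).re := by
  by_cases hδ : δ = 0
  · subst hδ
    obtain ⟨C, hC⟩ := lower0 (P := P)
    refine ⟨C, ?_⟩
    have h1 : ∀ᶠ y : ℝ in 𝓝[>] 0, y < 1 :=
      eventually_nhdsWithin_of_eventually_nhds (gt_mem_nhds one_pos)
    filter_upwards [hC, h1, self_mem_nhdsWithin] with y hy hy1 hy0
    have e : sh (y : ℂ) 0 = y := by unfold sh; simp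
    rw [e]
    have : Real.log y ≤ 0 := Real.log_nonpos (le_of_lt hy0) hy1.le
    linarith
  · obtain ⟨T, hT⟩ := TT_limit (P := P) δ hδ
    have h1 : Tendsto (fun y : ℝ => -(TT P (sh (y : ℂ) δ)).re) (𝓝[>] 0) (𝓝 (-T.re)) :=
      ((Complex.continuous_re.tendsto T).comp hT).neg
    refine ⟨T.re + 1, ?_⟩
    filter_upwards [h1.eventually (lt_mem_nhds (sub_one_lt _))] with y hy
    linarith

theorem LLT_lower {k : ι → ℕ} (hP : LargeT (fun j => (k j : ℂ)) P) (j₀ : ι) (hj : γ j₀ = 0)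
    (hk : k j₀ ≠ 0) : ∃ C : ℝ, ∀ᶠ y : ℝ in 𝓝[>] 0,
      -Real.log y - C ≤ (LLT (fun j => (k j : ℂ)) γ P (((y - 1) / 2 : ℝ) : ℂ)).re := by
  classical
  obtain ⟨C₀, hC₀⟩ := LLT_second (γ := γ) hP
  have hl : ∀ i j : ι, ∃ C : ℝ, ∀ᶠ y : ℝ in 𝓝[>] 0, -C ≤ -(TT P (sh (y : ℂ) (γ i + γ j))).re :=
    fun i j => lower _
  choose c hc using hl
  obtain ⟨c₀, hc₀⟩ := lower0 (P := P)
  set C₁ : ℝ := |c₀| + ∑ i, ∑ j, |c i j| with hC₁
  have hcij : ∀ i j, c i j ≤ C₁ := by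
    intro i j
    have h1 : |c i j| ≤ ∑ j, |c i j| :=
      Finset.single_le_sum (f := fun j => |c i j|) (fun _ _ => abs_nonneg _) (Finset.mem_univ j)
    have h2 : ∑ j, |c i j| ≤ ∑ i, ∑ j, |c i j| :=
      Finset.single_le_sum (f := fun i => ∑ j, |c i j|)
        (fun _ _ => Finset.sum_nonneg fun _ _ => abs_nonneg _) (Finset.mem_univ i)
    have := le_abs_self (c i j)
    have := abs_nonneg c₀
    linarith
  have hc0 : c₀ ≤ C₁ := by
    have h2 : 0 ≤ ∑ i, ∑ j, |c i j| :=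
      Finset.sum_nonneg fun _ _ => Finset.sum_nonneg fun _ _ => abs_nonneg _
    have := le_abs_self c₀
    linarith
  set S : ℝ := ∑ i, ∑ j, (k i : ℝ) * k j with hS
  set S' : ℝ := ∑ j, (k j : ℝ) with hS'
  refine ⟨C₀ + C₁ * (S + S') / 2, ?_⟩
  have h1 : ∀ᶠ y : ℝ in 𝓝[>] 0, y < 1 :=
    eventually_nhdsWithin_of_eventually_nhds (gt_mem_nhds one_pos)
  filter_upwards [hc₀, h1, self_mem_nhdsWithin,
    eventually_all.2 fun i => eventually_all.2 fun j => hc i j] with y hy hy1 hy0 hyij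
  have hy0' : (0 : ℝ) < y := hy0
  have hlog : Real.log y ≤ 0 := Real.log_nonpos hy0'.le hy1.le
  set m : ι → ι → ℝ := fun i j => -(TT P (sh (y : ℂ) (γ i + γ j))).re with hm
  have hm0 : ∀ i j, 0 ≤ m i j + C₁ := fun i j => by
    have := hyij i j
    have := hcij i j
    show 0 ≤ -(TT P (sh (y : ℂ) (γ i + γ j))).re + C₁
    linarith
  have hm1 : -Real.log y ≤ m j₀ j₀ + C₁ := by
    have e : sh (y : ℂ) (γ j₀ + γ j₀) = y := by rw [hj]; unfold sh; simp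
    show -Real.log y ≤ -(TT P (sh (y : ℂ) (γ j₀ + γ j₀))).re + C₁
    rw [e]
    linarith
  have hk1 : (1 : ℝ) ≤ k j₀ := by exact_mod_cast Nat.one_le_iff_ne_zero.2 hk
  have hA : -Real.log y ≤ ∑ i, ∑ j, (k i : ℝ) * k j * (m i j + C₁) := by
    have t1 : (k j₀ : ℝ) * k j₀ * (m j₀ j₀ + C₁) ≤ ∑ j, (k j₀ : ℝ) * k j * (m j₀ j + C₁) :=
      Finset.single_le_sum (f := fun j => (k j₀ : ℝ) * k j * (m j₀ j + C₁))
        (fun j _ => mul_nonneg (by positivity) (hm0 _ _)) (Finset.mem_univ j₀)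
    have t2 : ∑ j, (k j₀ : ℝ) * k j * (m j₀ j + C₁) ≤ ∑ i, ∑ j, (k i : ℝ) * k j * (m i j + C₁) :=
      Finset.single_le_sum (f := fun i => ∑ j, (k i : ℝ) * k j * (m i j + C₁))
        (fun i _ => Finset.sum_nonneg fun j _ => mul_nonneg (by positivity) (hm0 _ _))
        (Finset.mem_univ j₀)
    have t3 : (1 : ℝ) ≤ (k j₀ : ℝ) * k j₀ := by nlinarith
    have t4 : 1 * (m j₀ j₀ + C₁) ≤ (k j₀ : ℝ) * k j₀ * (m j₀ j₀ + C₁) :=
      mul_le_mul_of_nonneg_right t3 (hm0 _ _)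
    linarith
  have hB : -Real.log y ≤ ∑ j, (k j : ℝ) * (m j j + C₁) := by
    have t1 : (k j₀ : ℝ) * (m j₀ j₀ + C₁) ≤ ∑ j, (k j : ℝ) * (m j j + C₁) :=
      Finset.single_le_sum (f := fun j => (k j : ℝ) * (m j j + C₁))
        (fun j _ => mul_nonneg (by positivity) (hm0 _ _)) (Finset.mem_univ j₀)
    have t4 : 1 * (m j₀ j₀ + C₁) ≤ (k j₀ : ℝ) * (m j₀ j₀ + C₁) :=
      mul_le_mul_of_nonneg_right hk1 (hm0 _ _)
    linarith
  have hA' : ∑ i, ∑ j, (k i : ℝ) * k j * (m i j + C₁)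
      = ∑ i, ∑ j, (k i : ℝ) * k j * m i j + C₁ * S := by
    rw [hS, Finset.mul_sum, ← Finset.sum_add_distrib]
    refine Finset.sum_congr rfl fun i _ => ?_
    rw [Finset.mul_sum, ← Finset.sum_add_distrib]
    exact Finset.sum_congr rfl fun j _ => by ring
  have hB' : ∑ j, (k j : ℝ) * (m j j + C₁) = ∑ j, (k j : ℝ) * m j j + C₁ * S' := by
    rw [hS', Finset.mul_sum, ← Finset.sum_add_distrib]
    exact Finset.sum_congr rfl fun j _ => by ring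
  have hx : -(1 / 2) < (y - 1) / 2 := by linarith
  have hxy : 1 + 2 * ((y - 1) / 2) = y := by ring
  have h2 := hC₀ ((y - 1) / 2) hx
  rw [hxy] at h2
  set E : ℂ := (∑ i, ∑ j, (k i : ℂ) * (k j : ℂ) * TT P (sh (y : ℂ) (γ i + γ j)) +
      ∑ j, (k j : ℂ) * TT P (sh (y : ℂ) (γ j + γ j))) / 2 with hE
  have hEre : E.re = -(∑ i, ∑ j, (k i : ℝ) * k j * m i j + ∑ j, (k j : ℝ) * m j j) / 2 := by
    have e1 : ∀ i j : ι, ((k i : ℂ) * (k j : ℂ) * TT P (sh (y : ℂ) (γ i + γ j))).re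
        = -((k i : ℝ) * k j * m i j) := by
      intro i j
      have : (k i : ℂ) * (k j : ℂ) = (((k i : ℝ) * k j : ℝ) : ℂ) := by push_cast; rfl
      rw [this, Complex.re_ofReal_mul]
      show _ = -((k i : ℝ) * k j * -(TT P (sh (y : ℂ) (γ i + γ j))).re)
      ring
    have e2 : ∀ j : ι, ((k j : ℂ) * TT P (sh (y : ℂ) (γ j + γ j))).re = -((k j : ℝ) * m j j) := by
      intro j
      have : (k j : ℂ) = ((k j : ℝ) : ℂ) := by push_cast; rfl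
      rw [this, Complex.re_ofReal_mul]
      show _ = -((k j : ℝ) * -(TT P (sh (y : ℂ) (γ j + γ j))).re)
      ring
    have e3 : E.re = ((∑ i, ∑ j, (k i : ℂ) * (k j : ℂ) * TT P (sh (y : ℂ) (γ i + γ j)) +
      ∑ j, (k j : ℂ) * TT P (sh (y : ℂ) (γ j + γ j)))).re / 2 := by
      rw [hE]
      have : (2 : ℂ) = ((2 : ℝ) : ℂ) := by norm_num
      rw [this, Complex.div_ofReal_re]
    rw [e3, Complex.add_re, Complex.re_sum, Complex.re_sum]
    simp only [Complex.re_sum, e1, e2, Finset.sum_neg_distrib]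
    ring
  have h3 := (Complex.abs_re_le_norm _).trans h2
  rw [Complex.add_re, hEre] at h3
  have h4 := (abs_le.1 h3).1
  rw [hA'] at hA
  rw [hB'] at hB
  linarith

end Pool.Agent.X87.CM
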