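import Pool.Agent.X87.CM.Trig4

set_option autoImplicit false

/-!
# The question of Kahane and Saias for values close to `-T (log p) / p`
-/

open Finset Filter Topology

namespace Pool.Agent.X87.CM

open Pool.H232R3

variable {ι : Type} [Fintype ι] {κ : ι → ℂ} {γ : ι → ℝ} {P : ℕ}

theorem coreT_nat {k : ι → ℕ} (hP : LargeT (fun j => (k j : ℂ)) P)
    (hd : DecT (fun j => (k j : ℂ)) γ P) : False := by
  classical
  by_cases hj : ∃ j₀, γ j₀ = 0 ∧ k j₀ ≠ 0
  swap
  · push Not at hj
    have h := stepCT hP hd 0 (by simp)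
    rw [zero_mul, zero_mul] at h
    refine (mul_ne_zero ?_ (Complex.exp_ne_zero _)) h.symm
    refine Finset.prod_ne_zero_iff.2 fun j _ => ?_
    by_cases h0 : γ j = 0
    · rw [hj j h0, pow_zero]; exact one_ne_zero
    · refine pow_ne_zero _ ?_
      have := sh_ofReal_ne 0 (γ j) h0
      rwa [Complex.ofReal_zero] at this
  obtain ⟨j₀, hj₀, hk₀⟩ := hj
  obtain ⟨C, hC⟩ := LLT_lower (γ := γ) hP j₀ hj₀ hk₀
  -- the products near `-1 / 2`
  set X : ℝ → ℝ := fun y => (y - 1) / 2 with hX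
  have hX0 : Tendsto X (𝓝[>] 0) (𝓝 (-(1 / 2))) := by
    have h1 : Tendsto X (𝓝 0) (𝓝 (X 0)) := by
      have : Continuous X := by rw [hX]; fun_prop
      exact this.tendsto 0
    have h2 : X 0 = -(1 / 2) := by rw [hX]; norm_num
    rw [h2] at h1
    exact h1.mono_left nhdsWithin_le_nhds
  set W : ℝ → ℝ := fun x => ‖∏ j, (ZZ (sh (x : ℂ) (γ j)) * QQ P (sh (x : ℂ) (γ j))) ^ k j‖ with hW
  have hshc : ∀ j, Continuous fun x : ℝ => sh (x : ℂ) (γ j) := fun j =>
    (sh_differentiable (γ j)).continuous.comp Complex.continuous_ofReal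
  have hWc : Continuous W := by
    rw [hW]
    refine (continuous_finsetProd _ fun j _ => ?_).norm
    exact (((ZZ_differentiable.continuous.comp (hshc j))).mul
      (QQ_differentiable.continuous.comp (hshc j))).pow _
  set R : ℝ → ℝ := fun x => ‖∏ j, (sh (x : ℂ) (γ j)) ^ k j‖ with hR
  have hRc : Continuous R := by
    rw [hR]
    exact (continuous_finsetProd _ fun j _ => (hshc j).pow _).norm
  have hR0 : 0 < R (-(1 / 2)) := by
    rw [hR]
    refine norm_pos_iff.2 (Finset.prod_ne_zero_iff.2 fun j _ => pow_ne_zero _ ?_)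
    intro h
    have := congrArg Complex.re h
    rw [sh_re, Complex.ofReal_re, Complex.zero_re] at this
    norm_num at this
  set r : ℝ := R (-(1 / 2)) / 2 with hr
  have hr0 : 0 < r := by rw [hr]; positivity
  set M : ℝ := W (-(1 / 2)) + 1 with hM
  have hM0 : 0 < M := by
    have : 0 ≤ W (-(1 / 2)) := norm_nonneg _
    rw [hM]; linarith
  have hWe : ∀ᶠ y : ℝ in 𝓝[>] 0, W (X y) < M :=
    ((hWc.tendsto _).comp hX0).eventually (gt_mem_nhds (by rw [hM]; linarith))
  have hRe : ∀ᶠ y : ℝ in 𝓝[>] 0, r < R (X y) :=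
    ((hRc.tendsto _).comp hX0).eventually (lt_mem_nhds (by rw [hr]; linarith))
  set c : ℝ := r * Real.exp (-C) with hc
  have hc0 : 0 < c := by positivity
  set ε : ℝ := c / (8 * M) with hε
  have hε0 : 0 < ε := by positivity
  obtain ⟨B, hB0, hB⟩ := Phi_small _ hd ε hε0
  have h1 : ∀ᶠ y : ℝ in 𝓝[>] 0, y < 1 :=
    eventually_nhdsWithin_of_eventually_nhds (gt_mem_nhds one_pos)
  have hfin : ∀ᶠ y : ℝ in 𝓝[>] 0, c ≤ M * (B * y + 2 * ε) := by
    filter_upwards [hC, hWe, hRe, h1, self_mem_nhdsWithin] with y hCy hWy hRy hy1 hy0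
    have hy0' : (0 : ℝ) < y := hy0
    have hx : -(1 / 2) < X y := by rw [hX]; show -(1 / 2) < (y - 1) / 2; linarith
    have h2 := congrArg norm (stepCT hP hd (X y : ℂ) (by simpa using hx))
    rw [norm_mul, norm_mul, norm_mul, Complex.norm_exp] at h2
    have h3 : ‖((X y : ℝ) : ℂ)‖ ≤ 1 := by
      rw [Complex.norm_real, Real.norm_eq_abs, abs_le]
      rw [hX]
      show -1 ≤ (y - 1) / 2 ∧ (y - 1) / 2 ≤ 1
      constructor <;> linarith
    have h4 := hB (X y) hx
    have h5 : X y + 1 / 2 = y / 2 := by rw [hX]; show (y - 1) / 2 + 1 / 2 = y / 2; ring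
    rw [h5] at h4
    have h6 : 0 ≤ B + ε / (y / 2) := by positivity
    have h7 : ‖((X y : ℝ) : ℂ)‖ * ‖Phi (fun n => gT (fun j => (k j : ℂ)) γ P n) (X y : ℂ)‖ * W (X y)
        ≤ 1 * (B + ε / (y / 2)) * M := by
      have : 0 ≤ W (X y) := norm_nonneg _
      gcongr
    have h8 : r * (Real.exp (-C) / y) ≤ R (X y) *
        Real.exp (LLT (fun j => (k j : ℂ)) γ P ((X y : ℝ) : ℂ)).re := by
      have h9 : Real.exp (-C) / y ≤ Real.exp (LLT (fun j => (k j : ℂ)) γ P ((X y : ℝ) : ℂ)).re := by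
        have h10 : Real.exp (-C) / y = Real.exp (-Real.log y - C) := by
          rw [sub_eq_add_neg, Real.exp_add, Real.exp_neg (Real.log y), Real.exp_log hy0']
          ring
        rw [h10]
        exact Real.exp_le_exp.2 hCy
      have : 0 ≤ Real.exp (-C) / y := by positivity
      gcongr
    have h11 : r * (Real.exp (-C) / y) ≤ 1 * (B + ε / (y / 2)) * M :=
      h8.trans (h2.symm.le.trans h7)
    have h12 : r * (Real.exp (-C) / y) = c / y := by rw [hc]; ring
    have h13 : 1 * (B + ε / (y / 2)) * M = M * (B * y + 2 * ε) / y := by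
      field_simp
    rw [h12, h13] at h11
    exact (div_le_div_iff_of_pos_right hy0').1 h11
  have hlim : Tendsto (fun y : ℝ => M * (B * y + 2 * ε)) (𝓝[>] 0) (𝓝 (M * (B * 0 + 2 * ε))) := by
    have : Continuous fun y : ℝ => M * (B * y + 2 * ε) := by fun_prop
    exact (this.tendsto 0).mono_left nhdsWithin_le_nhds
  have h14 := ge_of_tendsto hlim hfin
  have h15 : M * (B * 0 + 2 * ε) = c / 4 := by
    rw [hε]
    field_simp
    ring
  rw [h15] at h14
  linarith

/-- no decay for the functions `gT κ γ P` -/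
theorem coreT (hγ : Function.Injective γ) (hP : LargeT κ P) (hd : DecT κ γ P) : False := by
  choose k hk using natural_coeffs hγ hP hd
  obtain rfl : κ = fun j => (k j : ℂ) := funext hk
  exact coreT_nat hP hd

/-- the conclusion of the question for all completely multiplicative functions whose values at the
primes are close to `-T (log p) / p` for a trigonometric polynomial `T` -/
theorem mainT (f : ℕ → ℂ) (h1 : f 1 = 1)
    (hf : ∀ m n : ℕ, 0 < m → 0 < n → f (m * n) = f m * f n) (κ : ι → ℂ) (γ : ι → ℝ)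
    (hγ : Function.Injective γ)
    (hs : Summable fun p : ℕ => if p.Prime then
      Real.sqrt p * ‖f p + (∑ j, κ j * (p : ℂ) ^ (γ j * Complex.I)) / p‖ else 0) :
    ∃ c : ℝ, 0 < c ∧ ∀ M : ℕ, ∃ N : ℕ, M ≤ N ∧ 0 < N ∧
      c / Real.sqrt (N : ℝ) ≤ ‖∑ n ∈ Finset.Icc 1 N, f n‖ := by
  by_contra hcon
  have hd := tendsto_of_not_omega f hcon
  obtain ⟨P, hP⟩ := exists_largeT κ
  refine coreT hγ hP (P := P) ?_
  have hd' : Tendsto (fun N : ℕ => Real.sqrt N * ‖SS (fun n => ext0 f n) N‖) atTop (𝓝 0) := by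
    refine hd.congr fun N => ?_
    rw [ext0_SS]
  have haa : ∀ p : ℕ, p.Prime → ‖aa κ γ p‖ ≤ KK κ := by
    intro p hp
    unfold aa KK
    refine (norm_sum_le _ _).trans (Finset.sum_le_sum fun j _ => ?_)
    rw [norm_mul, Complex.norm_natCast_cpow_of_pos hp.pos]
    simp
  have hnorm : ∀ p : ℕ, p.Prime → ‖gT κ γ P p‖ * Real.sqrt p ≤ 1 / 4 := by
    intro p hp
    rw [gT_prime p hp]
    have hp0 : (0 : ℝ) < p := by exact_mod_cast hp.pos
    split_ifs with h
    · have h2 := hP p h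
      rw [norm_neg, norm_div, Complex.norm_natCast]
      have e : KK κ / p * Real.sqrt p = KK κ * (p : ℝ) ^ (-(1 / 2) : ℝ) := by
        rw [Real.sqrt_eq_rpow, div_mul_eq_mul_div, mul_div_assoc]
        congr 1
        rw [div_eq_iff hp0.ne', ← Real.rpow_add_one hp0.ne']
        norm_num
      rw [← e] at h2
      refine le_trans ?_ h2
      have := haa p hp
      gcongr
    · simp
  refine perturb (ext0 f) (gT κ γ P) (by rw [ext0_apply f 1 one_ne_zero, h1]) (ext0_mul f hf)
    gT_one gT_mul (fun p hp => by linarith [hnorm p hp]) ?_ hd'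
  refine Summable.of_norm_bounded_eventually_nat (hs.mul_left 2) ?_
  filter_upwards [eventually_ge_atTop (max P 1)] with p hp
  have hpP : P ≤ p := (le_max_left _ _).trans hp
  have hp1 : 1 ≤ p := (le_max_right _ _).trans hp
  by_cases hpp : p.Prime
  · rw [if_pos hpp, if_pos hpp]
    have h2 := hnorm p hpp
    have h3 : 0 ≤ ‖gT κ γ P p‖ * Real.sqrt p := by positivity
    have h4 : ‖gT κ γ P p - ext0 f p‖
        = ‖f p + (∑ j, κ j * (p : ℂ) ^ (γ j * Complex.I)) / p‖ := by
      rw [gT_prime p hpp, if_pos hpP, ext0_apply f p hpp.ne_zero, ← norm_neg]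
      congr 1
      unfold aa
      ring
    rw [Real.norm_eq_abs, abs_of_nonneg (div_nonneg (by positivity) (by linarith)), h4,
      div_le_iff₀ (by linarith)]
    have h5 : 0 ≤ Real.sqrt p * ‖f p + (∑ j, κ j * (p : ℂ) ^ (γ j * Complex.I)) / p‖ := by
      positivity
    nlinarith
  · rw [if_neg hpp, if_neg hpp]
    simp

end Pool.Agent.X87.CM
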